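import Pool.Statements.S13621

set_option autoImplicit false
open Pool Pool.MP_984099_gt
open Filter Topology Set

namespace Pool.Agent.S13621

/-- The index set of the edges; its cardinality exceeds the continuum. -/
abbrev D : Type := Set ℝ

/-- The points of the auxiliary space `S`. -/
inductive Pt : Type
  | o : Pt
  | a (m : ℕ) (u : List ℕ) (d : D) : Pt
  | b (m : ℕ) (x : ℕ → ℕ) (d : D) : Pt
  | e (m : ℕ) (u : List ℕ) (i : ℕ) (d d' : D) : Pt
  | g (m : ℕ) (x : ℕ → ℕ) (d d' : D) : Pt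

/-- The stage of a point. -/
def stage : Pt → ℕ
  | .o => 0
  | .a m _ _ => m
  | .b m _ _ => m
  | .e m _ _ _ _ => m
  | .g m _ _ _ => m + 1

/-- The first `n` values of `x`, in reverse order. -/
def res (x : ℕ → ℕ) : ℕ → List ℕ
  | 0 => []
  | n + 1 => x n :: res x n

@[simp] lemma res_length (x : ℕ → ℕ) (n : ℕ) : (res x n).length = n := by
  induction n with
  | zero => rfl
  | succ n ih => simp [res, ih]

/-- The deleted neighbourhood filters. -/
def L : Pt → Filter Pt
  | .o => comap stage atTop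
  | .a m [] d =>
      map (fun p : ℕ × D => Pt.e m [] p.1 d p.2) (atTop ×ˢ ⊤) ⊔
      map (fun p : D × (ℕ → ℕ) => Pt.g m p.2 p.1 d) (cofinite ×ˢ ⊤)
  | .a m (i :: v) d =>
      map (fun p : ℕ × D => Pt.e m (i :: v) p.1 d p.2) (atTop ×ˢ ⊤) ⊔
      map (fun d' : D => Pt.e m v i d' d) cofinite
  | .b 0 x d => map (fun p : ℕ × D => Pt.e 0 (res x p.1) (x p.1) d p.2) (atTop ×ˢ ⊤)
  | .b (m + 1) x d =>
      map (fun p : ℕ × D => Pt.e (m + 1) (res x p.1) (x p.1) d p.2) (atTop ×ˢ ⊤) ⊔
      map (fun d' : D => Pt.g m x d d') cofinite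
  | .e _ _ _ _ _ => ⊥
  | .g _ _ _ _ => ⊥

lemma ev_o {p : Pt → Prop} : (∀ᶠ z in L .o, p z) ↔ ∃ N, ∀ z, N ≤ stage z → p z := by
  simp only [L, eventually_comap, eventually_atTop]
  constructor
  · rintro ⟨N, hN⟩
    exact ⟨N, fun z hz => hN _ hz z rfl⟩
  · rintro ⟨N, hN⟩
    exact ⟨N, fun n hn z hz => hN z (hz ▸ hn)⟩

lemma ev_prod_top {α β : Type} {l : Filter α} {q : α → β → Prop} :
    (∀ᶠ z in l ×ˢ (⊤ : Filter β), q z.1 z.2) ↔ ∀ᶠ x in l, ∀ y, q x y :=
  mem_prod_top

lemma ev_a_nil {m : ℕ} {d : D} {p : Pt → Prop} :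
    (∀ᶠ z in L (.a m [] d), p z) ↔
      (∃ k, ∀ i, k ≤ i → ∀ d', p (.e m [] i d d')) ∧
      (∀ᶠ d' in cofinite, ∀ x, p (.g m x d' d)) := by
  simp only [L, eventually_sup, eventually_map]
  rw [ev_prod_top (q := fun i d' => p (.e m [] i d d')),
    ev_prod_top (q := fun d' x => p (.g m x d' d)), eventually_atTop]

lemma ev_a_cons {m i : ℕ} {v : List ℕ} {d : D} {p : Pt → Prop} :
    (∀ᶠ z in L (.a m (i :: v) d), p z) ↔
      (∃ k, ∀ j, k ≤ j → ∀ d', p (.e m (i :: v) j d d')) ∧
      (∀ᶠ d' in cofinite, p (.e m v i d' d)) := by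
  simp only [L, eventually_sup, eventually_map]
  rw [ev_prod_top (q := fun j d' => p (.e m (i :: v) j d d')), eventually_atTop]

lemma ev_b_zero {x : ℕ → ℕ} {d : D} {p : Pt → Prop} :
    (∀ᶠ z in L (.b 0 x d), p z) ↔
      (∃ k, ∀ n, k ≤ n → ∀ d', p (.e 0 (res x n) (x n) d d')) := by
  simp only [L, eventually_map]
  rw [ev_prod_top (q := fun n d' => p (.e 0 (res x n) (x n) d d')), eventually_atTop]

lemma ev_b_succ {m : ℕ} {x : ℕ → ℕ} {d : D} {p : Pt → Prop} :
    (∀ᶠ z in L (.b (m + 1) x d), p z) ↔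
      (∃ k, ∀ n, k ≤ n → ∀ d', p (.e (m + 1) (res x n) (x n) d d')) ∧
      (∀ᶠ d' in cofinite, p (.g m x d d')) := by
  simp only [L, eventually_sup, eventually_map]
  rw [ev_prod_top (q := fun n d' => p (.e (m + 1) (res x n) (x n) d d')), eventually_atTop]

lemma ev_e {m : ℕ} {u : List ℕ} {i : ℕ} {d d' : D} {p : Pt → Prop} :
    ∀ᶠ z in L (.e m u i d d'), p z := by
  simp [L]

lemma ev_g {m : ℕ} {x : ℕ → ℕ} {d d' : D} {p : Pt → Prop} :
    ∀ᶠ z in L (.g m x d d'), p z := by
  simp [L]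

/-- The neighbourhood filters. -/
def nb (s : Pt) : Filter Pt := pure s ⊔ L s

lemma ev_nb {s : Pt} {p : Pt → Prop} : (∀ᶠ z in nb s, p z) ↔ p s ∧ ∀ᶠ z in L s, p z := by
  simp [nb, eventually_sup]

lemma stage_ev {y : Pt} (hy : y ≠ .o) : ∀ᶠ z in L y, stage y ≤ stage z := by
  match y with
  | .o => exact absurd rfl hy
  | .a m [] d => exact ev_a_nil.2 ⟨⟨0, fun i _ d' => by simp [stage]⟩, by simp [stage]⟩
  | .a m (i :: v) d => exact ev_a_cons.2 ⟨⟨0, fun i _ d' => by simp [stage]⟩, by simp [stage]⟩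
  | .b 0 x d => exact ev_b_zero.2 ⟨0, fun i _ d' => by simp [stage]⟩
  | .b (m + 1) x d => exact ev_b_succ.2 ⟨⟨0, fun i _ d' => by simp [stage]⟩, by simp [stage]⟩
  | .e _ _ _ _ _ => exact ev_e
  | .g _ _ _ _ => exact ev_g

lemma iso_ev {y : Pt} (hy : y ≠ .o) : ∀ᶠ z in L y, L z = ⊥ := by
  match y with
  | .o => exact absurd rfl hy
  | .a m [] d => exact ev_a_nil.2 ⟨⟨0, fun i _ d' => by simp [L]⟩, by simp [L]⟩
  | .a m (i :: v) d => exact ev_a_cons.2 ⟨⟨0, fun i _ d' => by simp [L]⟩, by simp [L]⟩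
  | .b 0 x d => exact ev_b_zero.2 ⟨0, fun i _ d' => by simp [L]⟩
  | .b (m + 1) x d => exact ev_b_succ.2 ⟨⟨0, fun i _ d' => by simp [L]⟩, by simp [L]⟩
  | .e _ _ _ _ _ => exact ev_e
  | .g _ _ _ _ => exact ev_g

instance : TopologicalSpace Pt := TopologicalSpace.mkOfNhds nb

lemma nhds_pt (s : Pt) : 𝓝 s = nb s := by
  refine TopologicalSpace.nhds_mkOfNhds nb s (fun s => le_sup_left) ?_
  intro a V hV
  have hV' : V ∈ nb a := hV
  rw [← Filter.eventually_mem_set, ev_nb] at hV'
  obtain ⟨h1, h2⟩ := hV'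
  rw [ev_nb]
  refine ⟨hV, ?_⟩
  by_cases ha : a = .o
  · subst ha
    rw [ev_o] at h2 ⊢
    obtain ⟨N, hN⟩ := h2
    refine ⟨N + 1, fun y hy => ?_⟩
    have hyo : y ≠ .o := by
      rintro rfl
      simp [stage] at hy
    rw [← Filter.eventually_mem_set, ev_nb]
    refine ⟨hN y (by omega), ?_⟩
    filter_upwards [stage_ev hyo] with z hz
    exact hN z (by omega)
  · filter_upwards [iso_ev ha, h2] with y hy hyV
    rw [← Filter.eventually_mem_set, ev_nb]
    refine ⟨hyV, ?_⟩
    rw [hy]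
    exact eventually_bot

lemma L_ne (s y : Pt) : ∀ᶠ z in L s, z ≠ y := by
  match s with
  | .o =>
    refine ev_o.2 ⟨stage y + 1, fun z hz h => ?_⟩
    subst h
    omega
  | .a m [] d =>
    refine ev_a_nil.2 ⟨?_, ?_⟩
    · match y with
      | .e m' u' i' d1 d2 =>
        refine ⟨i' + 1, fun i hi d' h => ?_⟩
        simp only [Pt.e.injEq] at h
        omega
      | .o | .a _ _ _ | .b _ _ _ | .g _ _ _ _ => exact ⟨0, fun i _ d' => by simp⟩
    · match y with
      | .g m' x' d1 d2 =>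
        filter_upwards [(Set.finite_singleton d1).compl_mem_cofinite] with d' hd' x h
        simp only [Pt.g.injEq] at h
        exact hd' h.2.2.1
      | .o | .a _ _ _ | .b _ _ _ | .e _ _ _ _ _ => simp
  | .a m (j :: v) d =>
    refine ev_a_cons.2 ⟨?_, ?_⟩
    · match y with
      | .e m' u' i' d1 d2 =>
        refine ⟨i' + 1, fun i hi d' h => ?_⟩
        simp only [Pt.e.injEq] at h
        omega
      | .o | .a _ _ _ | .b _ _ _ | .g _ _ _ _ => exact ⟨0, fun i _ d' => by simp⟩
    · match y with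
      | .e m' x' i' d1 d2 =>
        filter_upwards [(Set.finite_singleton d1).compl_mem_cofinite] with d' hd' h
        simp only [Pt.e.injEq] at h
        exact hd' h.2.2.2.1
      | .o | .a _ _ _ | .b _ _ _ | .g _ _ _ _ => simp
  | .b 0 x d =>
    refine ev_b_zero.2 ?_
    match y with
    | .e m' u' i' d1 d2 =>
      refine ⟨u'.length + 1, fun i hi d' h => ?_⟩
      simp only [Pt.e.injEq] at h
      have := congrArg List.length h.2.1
      simp at this
      omega
    | .o | .a _ _ _ | .b _ _ _ | .g _ _ _ _ => exact ⟨0, fun i _ d' => by simp⟩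
  | .b (m + 1) x d =>
    refine ev_b_succ.2 ⟨?_, ?_⟩
    · match y with
      | .e m' u' i' d1 d2 =>
        refine ⟨u'.length + 1, fun i hi d' h => ?_⟩
        simp only [Pt.e.injEq] at h
        have := congrArg List.length h.2.1
        simp at this
        omega
      | .o | .a _ _ _ | .b _ _ _ | .g _ _ _ _ => exact ⟨0, fun i _ d' => by simp⟩
    · match y with
      | .g m' x' d1 d2 =>
        filter_upwards [(Set.finite_singleton d2).compl_mem_cofinite] with d' hd' h
        simp only [Pt.g.injEq] at h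
        exact hd' h.2.2.2
      | .o | .a _ _ _ | .b _ _ _ | .e _ _ _ _ _ => simp
  | .e _ _ _ _ _ => exact ev_e
  | .g _ _ _ _ => exact ev_g

instance : T1Space Pt := by
  refine ⟨fun y => ?_⟩
  rw [← isOpen_compl_iff, isOpen_iff_eventually]
  intro s hs
  rw [nhds_pt, ev_nb]
  exact ⟨hs, L_ne s y⟩

/-- A set is clopen as soon as membership is locally constant. -/
lemma isClopen_of_ev {X : Type} [TopologicalSpace X] {K : Set X}
    (h : ∀ s, ∀ᶠ z in 𝓝 s, (z ∈ K ↔ s ∈ K)) : IsClopen K := by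
  constructor
  · rw [← isOpen_compl_iff, isOpen_iff_eventually]
    intro s hs
    filter_upwards [h s] with z hz
    simpa [hz] using hs
  · rw [isOpen_iff_eventually]
    intro s hs
    filter_upwards [h s] with z hz
    exact hz.2 hs

/-- Membership predicate of the basic clopen neighbourhood of `a m u d`. -/
def KaP (m : ℕ) (u : List ℕ) (d : D) (k : ℕ) (F : Set D) : Pt → Prop
  | .a m' u' d' => m' = m ∧ u' = u ∧ d' = d
  | .e m' u' i' d' e' =>
      (m' = m ∧ u' = u ∧ d' = d ∧ k ≤ i') ∨ (m' = m ∧ i' :: u' = u ∧ e' = d ∧ d' ∉ F)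
  | .g m' _ d' e' => m' = m ∧ u = [] ∧ e' = d ∧ d' ∉ F
  | .o => False
  | .b _ _ _ => False

/-- Membership predicate of the basic clopen neighbourhood of `b m x d`. -/
def KbP (m : ℕ) (x : ℕ → ℕ) (d : D) (N : ℕ) (F : Set D) : Pt → Prop
  | .b m' x' d' => m' = m ∧ x' = x ∧ d' = d
  | .e m' u' i' d' _ =>
      m' = m ∧ d' = d ∧ N ≤ u'.length ∧ i' :: u' = res x (u'.length + 1)
  | .g m' x' d' e' => m' + 1 = m ∧ x' = x ∧ d' = d ∧ e' ∉ F
  | .o => False
  | .a _ _ _ => False

/-- Basic clopen neighbourhood of `a m u d`. -/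
def Ka (m : ℕ) (u : List ℕ) (d : D) (k : ℕ) (F : Set D) : Set Pt := {y | KaP m u d k F y}

/-- Basic clopen neighbourhood of `b m x d`. -/
def Kb (m : ℕ) (x : ℕ → ℕ) (d : D) (N : ℕ) (F : Set D) : Set Pt := {y | KbP m x d N F y}

lemma cof_ne (d : D) : ∀ᶠ d' in (cofinite : Filter D), d' ≠ d :=
  (Set.finite_singleton d).compl_mem_cofinite

lemma isClopen_Ka (m : ℕ) (u : List ℕ) (d : D) (k : ℕ) {F : Set D} (hF : F.Finite) :
    IsClopen (Ka m u d k F) := by
  have hF' : ∀ᶠ d' in (cofinite : Filter D), d' ∉ F := hF.compl_mem_cofinite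
  refine isClopen_of_ev fun s => ?_
  rw [nhds_pt, ev_nb]
  refine ⟨Iff.rfl, ?_⟩
  match s with
  | .o =>
    refine ev_o.2 ⟨m + 2, fun z hz => ?_⟩
    match z with
    | .o => simp [stage] at hz
    | .a m' u' d' =>
      simp only [stage] at hz
      simp only [Ka, Set.mem_ofPred_eq, KaP, iff_false]
      omega
    | .b m' u' d' => simp [Ka, KaP]
    | .e m' u' i' d' e' =>
      simp only [stage] at hz
      simp only [Ka, Set.mem_ofPred_eq, KaP, iff_false]
      omega
    | .g m' x' d' e' =>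
      simp only [stage] at hz
      simp only [Ka, Set.mem_ofPred_eq, KaP, iff_false]
      omega
  | .a m' [] d' =>
    refine ev_a_nil.2 ⟨?_, ?_⟩
    · refine ⟨k + (u.headD 0) + 1, fun i hi d2 => ?_⟩
      simp only [Ka, Set.mem_ofPred_eq, KaP]
      constructor
      · rintro (⟨h1, h2, h3, h4⟩ | ⟨h1, h2, h3, h4⟩)
        · exact ⟨h1, h2, h3⟩
        · subst h2
          simp at hi
      · rintro ⟨h1, h2, h3⟩
        exact Or.inl ⟨h1, h2, h3, by omega⟩
    · filter_upwards [hF'] with d2 hd2 x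
      simp only [Ka, Set.mem_ofPred_eq, KaP]
      constructor
      · rintro ⟨h1, h2, h3, h4⟩
        exact ⟨h1, h2.symm, h3⟩
      · rintro ⟨h1, h2, h3⟩
        exact ⟨h1, h2.symm, h3, hd2⟩
  | .a m' (j :: v) d' =>
    refine ev_a_cons.2 ⟨?_, ?_⟩
    · refine ⟨k + (u.headD 0) + 1, fun i hi d2 => ?_⟩
      simp only [Ka, Set.mem_ofPred_eq, KaP]
      constructor
      · rintro (⟨h1, h2, h3, h4⟩ | ⟨h1, h2, h3, h4⟩)
        · exact ⟨h1, h2, h3⟩
        · subst h2
          simp at hi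
      · rintro ⟨h1, h2, h3⟩
        exact Or.inl ⟨h1, h2, h3, by omega⟩
    · filter_upwards [hF', cof_ne d] with d2 hd2 hd3
      simp only [Ka, Set.mem_ofPred_eq, KaP]
      constructor
      · rintro (⟨h1, h2, h3, h4⟩ | ⟨h1, h2, h3, h4⟩)
        · exact absurd h3 hd3
        · exact ⟨h1, h2, h3⟩
      · rintro ⟨h1, h2, h3⟩
        exact Or.inr ⟨h1, h2, h3, hd2⟩
  | .b 0 x d' =>
    refine ev_b_zero.2 ⟨u.length + 1, fun n hn d2 => ?_⟩
    simp only [Ka, Set.mem_ofPred_eq, KaP, iff_false]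
    rintro (⟨h1, h2, h3, h4⟩ | ⟨h1, h2, h3, h4⟩)
    · have := congrArg List.length h2
      simp at this
      omega
    · have := congrArg List.length h2
      simp at this
      omega
  | .b (m' + 1) x d' =>
    refine ev_b_succ.2 ⟨⟨u.length + 1, fun n hn d2 => ?_⟩, ?_⟩
    · simp only [Ka, Set.mem_ofPred_eq, KaP, iff_false]
      rintro (⟨h1, h2, h3, h4⟩ | ⟨h1, h2, h3, h4⟩)
      · have := congrArg List.length h2
        simp at this
        omega
      · have := congrArg List.length h2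
        simp at this
        omega
    · filter_upwards [cof_ne d] with d2 hd2
      simp only [Ka, Set.mem_ofPred_eq, KaP, iff_false]
      rintro ⟨h1, h2, h3, h4⟩
      exact hd2 h3
  | .e _ _ _ _ _ => exact ev_e
  | .g _ _ _ _ => exact ev_g

lemma res_ext {x y : ℕ → ℕ} (h : ∃ᶠ n in atTop, res x n = res y n) : x = y := by
  funext j
  obtain ⟨n, hn, h⟩ := (frequently_atTop.1 h) (j + 1)
  have key : ∀ k, ∀ j < k, res x k = res y k → x j = y j := by
    intro k
    induction k with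
    | zero => intro j hj; omega
    | succ k ih =>
      intro j hj h
      simp only [res, List.cons.injEq] at h
      rcases Nat.lt_succ_iff_lt_or_eq.1 hj with h' | h'
      · exact ih j h' h.2
      · subst h'; exact h.1
  exact key n j (by omega) h

lemma isClopen_Kb (m : ℕ) (x : ℕ → ℕ) (d : D) (N : ℕ) {F : Set D} (hF : F.Finite) :
    IsClopen (Kb m x d N F) := by
  have hF' : ∀ᶠ d' in (cofinite : Filter D), d' ∉ F := hF.compl_mem_cofinite
  refine isClopen_of_ev fun s => ?_
  rw [nhds_pt, ev_nb]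
  refine ⟨Iff.rfl, ?_⟩
  match s with
  | .o =>
    refine ev_o.2 ⟨m + 1, fun z hz => ?_⟩
    match z with
    | .o => simp [stage] at hz
    | .a m' u' d' => simp [Kb, KbP]
    | .b m' u' d' =>
      simp only [stage] at hz
      simp only [Kb, Set.mem_ofPred_eq, KbP, iff_false]
      omega
    | .e m' u' i' d' e' =>
      simp only [stage] at hz
      simp only [Kb, Set.mem_ofPred_eq, KbP, iff_false]
      omega
    | .g m' x' d' e' =>
      simp only [stage] at hz
      simp only [Kb, Set.mem_ofPred_eq, KbP, iff_false]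
      omega
  | .a m' [] d' =>
    refine ev_a_nil.2 ⟨?_, ?_⟩
    · refine ⟨x 0 + 1, fun i hi d2 => ?_⟩
      simp only [Kb, Set.mem_ofPred_eq, KbP, iff_false]
      rintro ⟨h1, h2, h3, h4⟩
      simp only [List.length_nil, res, List.cons.injEq, and_true] at h4
      omega
    · filter_upwards [cof_ne d] with d2 hd2 x'
      simp only [Kb, Set.mem_ofPred_eq, KbP, iff_false]
      rintro ⟨h1, h2, h3, h4⟩
      exact hd2 h3
  | .a m' (j :: v) d' =>
    refine ev_a_cons.2 ⟨?_, ?_⟩
    · refine ⟨x ((j :: v).length) + 1, fun i hi d2 => ?_⟩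
      simp only [Kb, Set.mem_ofPred_eq, KbP, iff_false]
      rintro ⟨h1, h2, h3, h4⟩
      rw [res] at h4
      simp only [List.cons.injEq] at h4
      omega
    · filter_upwards [cof_ne d] with d2 hd2
      simp only [Kb, Set.mem_ofPred_eq, KbP, iff_false]
      rintro ⟨h1, h2, h3, h4⟩
      exact hd2 h2
  | .b 0 x' d' =>
    refine ev_b_zero.2 ?_
    by_cases hx : x' = x
    · subst hx
      refine ⟨N, fun n hn d2 => ?_⟩
      simp only [Kb, Set.mem_ofPred_eq, KbP, res_length]
      constructor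
      · rintro ⟨h1, h2, h3, h4⟩
        exact ⟨h1, trivial, h2⟩
      · rintro ⟨h1, h2, h3⟩
        exact ⟨h1, h3, hn, rfl⟩
    · have h0 : ∀ᶠ n in atTop, res x' n ≠ res x n := by
        by_contra hcon
        exact hx (res_ext (by simpa [Filter.Frequently] using hcon))
      obtain ⟨M, hM⟩ := eventually_atTop.1 h0
      refine ⟨M, fun n hn d2 => ?_⟩
      simp only [Kb, Set.mem_ofPred_eq, KbP, res_length]
      constructor
      · rintro ⟨h1, h2, h3, h4⟩
        exact absurd h4 (hM (n + 1) (by omega))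
      · rintro ⟨h1, h2, h3⟩
        exact absurd h2 hx
  | .b (m' + 1) x' d' =>
    refine ev_b_succ.2 ⟨?_, ?_⟩
    · by_cases hx : x' = x
      · subst hx
        refine ⟨N, fun n hn d2 => ?_⟩
        simp only [Kb, Set.mem_ofPred_eq, KbP, res_length]
        constructor
        · rintro ⟨h1, h2, h3, h4⟩
          exact ⟨h1, trivial, h2⟩
        · rintro ⟨h1, h2, h3⟩
          exact ⟨h1, h3, hn, rfl⟩
      · have h0 : ∀ᶠ n in atTop, res x' n ≠ res x n := by
          by_contra hcon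
          exact hx (res_ext (by simpa [Filter.Frequently] using hcon))
        obtain ⟨M, hM⟩ := eventually_atTop.1 h0
        refine ⟨M, fun n hn d2 => ?_⟩
        simp only [Kb, Set.mem_ofPred_eq, KbP, res_length]
        constructor
        · rintro ⟨h1, h2, h3, h4⟩
          exact absurd h4 (hM (n + 1) (by omega))
        · rintro ⟨h1, h2, h3⟩
          exact absurd h2 hx
    · filter_upwards [hF'] with d2 hd2
      simp only [Kb, Set.mem_ofPred_eq, KbP]
      constructor
      · rintro ⟨h1, h2, h3, h4⟩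
        exact ⟨h1, h2, h3⟩
      · rintro ⟨h1, h2, h3⟩
        exact ⟨h1, h2, h3, hd2⟩
  | .e _ _ _ _ _ => exact ev_e
  | .g _ _ _ _ => exact ev_g

lemma isClopen_singleton_iso {y : Pt} (hy : L y = ⊥) : IsClopen ({y} : Set Pt) := by
  refine isClopen_of_ev fun s => ?_
  rw [nhds_pt, ev_nb]
  refine ⟨Iff.rfl, ?_⟩
  by_cases hs : s = y
  · subst hs
    rw [hy]
    exact eventually_bot
  · filter_upwards [L_ne s y] with z hz
    simp [hz, hs]

/-- Every point of `S` other than `o` has a base of clopen neighbourhoods. -/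
lemma exists_clopen {s : Pt} (hs : s ≠ .o) {V : Set Pt} (hV : V ∈ 𝓝 s) :
    ∃ K : Set Pt, IsClopen K ∧ s ∈ K ∧ K ⊆ V := by
  rw [nhds_pt, ← Filter.eventually_mem_set, ev_nb] at hV
  obtain ⟨h1, h2⟩ := hV
  match s with
  | .o => exact absurd rfl hs
  | .a m [] d =>
    rw [ev_a_nil] at h2
    obtain ⟨⟨k, hk⟩, h3⟩ := h2
    refine ⟨Ka m [] d k {d' | ¬ ∀ x, Pt.g m x d' d ∈ V}, isClopen_Ka _ _ _ _ h3, ?_, ?_⟩
    · exact ⟨rfl, rfl, rfl⟩
    · intro z hz
      match z with
      | .o => exact False.elim hz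
      | .b _ _ _ => exact False.elim hz
      | .a m' u' d' =>
        obtain ⟨rfl, rfl, rfl⟩ := hz
        exact h1
      | .e m' u' i' d' e' =>
        rcases hz with ⟨rfl, rfl, rfl, h⟩ | ⟨_, h, _⟩
        · exact hk _ h _
        · exact absurd h (by simp)
      | .g m' x' d' e' =>
        obtain ⟨rfl, -, rfl, h⟩ := hz
        simp only [Set.mem_ofPred_eq, not_not] at h
        exact h _
  | .a m (j :: v) d =>
    rw [ev_a_cons] at h2
    obtain ⟨⟨k, hk⟩, h3⟩ := h2
    refine ⟨Ka m (j :: v) d k {d' | ¬ Pt.e m v j d' d ∈ V}, isClopen_Ka _ _ _ _ h3, ?_, ?_⟩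
    · exact ⟨rfl, rfl, rfl⟩
    · intro z hz
      match z with
      | .o => exact False.elim hz
      | .b _ _ _ => exact False.elim hz
      | .a m' u' d' =>
        obtain ⟨rfl, rfl, rfl⟩ := hz
        exact h1
      | .e m' u' i' d' e' =>
        rcases hz with ⟨rfl, rfl, rfl, h⟩ | ⟨rfl, h', rfl, h⟩
        · exact hk _ h _
        · simp only [List.cons.injEq] at h'
          obtain ⟨rfl, rfl⟩ := h'
          simp only [Set.mem_ofPred_eq, not_not] at h
          exact h
      | .g m' x' d' e' =>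
        obtain ⟨rfl, h, -, -⟩ := hz
        exact absurd h (by simp)
  | .b 0 x d =>
    rw [ev_b_zero] at h2
    obtain ⟨k, hk⟩ := h2
    refine ⟨Kb 0 x d k ∅, isClopen_Kb _ _ _ _ Set.finite_empty, ?_, ?_⟩
    · exact ⟨rfl, rfl, rfl⟩
    · intro z hz
      match z with
      | .o => exact False.elim hz
      | .a _ _ _ => exact False.elim hz
      | .b m' u' d' =>
        obtain ⟨rfl, rfl, rfl⟩ := hz
        exact h1
      | .e m' u' i' d' e' =>
        obtain ⟨rfl, rfl, h, h'⟩ := hz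
        have := hk _ h e'
        rw [res] at h'
        simp only [List.cons.injEq] at h'
        rw [← h'.1, ← h'.2] at this
        exact this
      | .g m' x' d' e' =>
        obtain ⟨h, -⟩ := hz
        exact absurd h (by simp)
  | .b (m + 1) x d =>
    rw [ev_b_succ] at h2
    obtain ⟨⟨k, hk⟩, h3⟩ := h2
    refine ⟨Kb (m + 1) x d k {d' | ¬ Pt.g m x d d' ∈ V}, isClopen_Kb _ _ _ _ h3, ?_, ?_⟩
    · exact ⟨rfl, rfl, rfl⟩
    · intro z hz
      match z with
      | .o => exact False.elim hz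
      | .a _ _ _ => exact False.elim hz
      | .b m' u' d' =>
        obtain ⟨rfl, rfl, rfl⟩ := hz
        exact h1
      | .e m' u' i' d' e' =>
        obtain ⟨rfl, rfl, h, h'⟩ := hz
        have := hk _ h e'
        rw [res] at h'
        simp only [List.cons.injEq] at h'
        rw [← h'.1, ← h'.2] at this
        exact this
      | .g m' x' d' e' =>
        obtain ⟨h, rfl, rfl, h'⟩ := hz
        simp only [Nat.add_right_cancel_iff] at h
        subst h
        simp only [Set.mem_ofPred_eq, not_not] at h'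
        exact h'
  | .e m u i d d' =>
    exact ⟨{Pt.e m u i d d'}, isClopen_singleton_iso (by simp [L]), rfl,
      Set.singleton_subset_iff.2 h1⟩
  | .g m x d d' =>
    exact ⟨{Pt.g m x d d'}, isClopen_singleton_iso (by simp [L]), rfl,
      Set.singleton_subset_iff.2 h1⟩

/-- The set of cut times. -/
def Cut : Set ℝ := {t | ∃ q : ℚ, t = √2 + q}

lemma rat_notin_cut (q : ℚ) : (q : ℝ) ∉ Cut := by
  rintro ⟨q', h⟩
  apply irrational_sqrt_two
  exact ⟨q - q', by push_cast; linarith⟩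

/-- An enumeration of the rationals. -/
noncomputable def rho : ℕ → ℚ := Classical.choose (exists_surjective_nat ℚ)

lemma rho_surj : Function.Surjective rho := Classical.choose_spec (exists_surjective_nat ℚ)

/-- A dense sequence of cut times. -/
noncomputable def r (j : ℕ) : ℝ := √2 + rho j

lemma exists_rat_near (t : ℝ) {ε : ℝ} (hε : 0 < ε) : ∃ q : ℚ, |t - q| < ε := by
  obtain ⟨q, h1, h2⟩ := exists_rat_btwn (show t - ε < t + ε by linarith)
  exact ⟨q, abs_lt.2 ⟨by linarith, by linarith⟩⟩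

lemma exists_alpha (x : ℕ → ℕ) :
    ∃ α : ℝ, (∀ q : ℚ, α + q ∉ Cut) ∧ ∀ q : ℚ, ∃ j, |α + q - r j| < 1 / ((x j : ℝ) + 1) := by
  let O : ℚ → Set ℝ := fun q => {t | ∃ j, |t + q - r j| < 1 / ((x j : ℝ) + 1)}
  let O' : ℚ → Set ℝ := fun q => {√2 + (q : ℝ)}ᶜ
  have hO : ∀ q, IsOpen (O q) := by
    intro q
    have : O q = ⋃ j, {t : ℝ | |t + q - r j| < 1 / ((x j : ℝ) + 1)} := by
      ext t; simp [O]
    rw [this]
    refine isOpen_iUnion fun j => ?_
    exact isOpen_lt (by fun_prop) (by fun_prop)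
  have hOd : ∀ q, Dense (O q) := by
    intro q
    rw [Metric.dense_iff]
    intro t ε hε
    obtain ⟨q', hq'⟩ := exists_rat_near (t + q - √2) hε
    obtain ⟨j, hj⟩ := rho_surj q'
    refine ⟨r j - q, ?_, j, ?_⟩
    · rw [Metric.mem_ball, Real.dist_eq, abs_sub_comm, r, hj]
      convert hq' using 2
      ring
    · have : r j - q + q - r j = 0 := by ring
      rw [this, abs_zero]
      positivity
  have hO' : ∀ q, IsOpen (O' q) := fun q => isOpen_compl_singleton
  have hOd' : ∀ q, Dense (O' q) := fun q => dense_compl_singleton _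
  have h1 : Dense (⋂ i : ℚ ⊕ ℚ, Sum.elim O O' i) := by
    apply dense_iInter_of_isOpen
    · rintro (q | q)
      · exact hO q
      · exact hO' q
    · rintro (q | q)
      · exact hOd q
      · exact hOd' q
  obtain ⟨α, hα⟩ := h1.nonempty
  rw [Set.mem_iInter] at hα
  refine ⟨α, ?_, ?_⟩
  · rintro q ⟨q', h⟩
    have := hα (Sum.inr (q' - q))
    simp only [Sum.elim_inr, O', Set.mem_compl_iff, Set.mem_singleton_iff] at this
    apply this
    push_cast
    linarith
  · intro q
    exact hα (Sum.inl q)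

/-- The chosen coset representative for `x`. -/
noncomputable def alpha (x : ℕ → ℕ) : ℝ := Classical.choose (exists_alpha x)

lemma alpha_cut (x : ℕ → ℕ) (q : ℚ) : alpha x + q ∉ Cut :=
  (Classical.choose_spec (exists_alpha x)).1 q

lemma alpha_near (x : ℕ → ℕ) (q : ℚ) : ∃ j, |alpha x + q - r j| < 1 / ((x j : ℝ) + 1) :=
  (Classical.choose_spec (exists_alpha x)).2 q

/-- The time shift of a point. -/
noncomputable def shift : Pt → ℝ
  | .b _ x _ => alpha x
  | _ => 0

/-- The `ℚ`-space. -/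
def X : Type := ℚ × Pt

/-- The map into `ℝ × S`. -/
noncomputable def emb (p : X) : ℝ × Pt := (p.1 + shift p.2, p.2)

noncomputable instance : TopologicalSpace X := TopologicalSpace.induced emb inferInstance

lemma emb_inj : Function.Injective emb := by
  rintro ⟨q, s⟩ ⟨q', s'⟩ h
  simp only [emb, Prod.mk.injEq] at h
  obtain ⟨h1, rfl⟩ := h
  have : q = q' := by
    have : (q : ℝ) = q' := by linarith
    exact_mod_cast this
  rw [this]

lemma emb_embedding : IsEmbedding emb := ⟨⟨rfl⟩, emb_inj⟩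

/-- The time of a point of `X`. -/
noncomputable def time (p : X) : ℝ := (emb p).1

lemma continuous_time : Continuous time :=
  continuous_fst.comp emb_embedding.continuous

lemma continuous_pt : Continuous (fun p : X => (emb p).2) :=
  continuous_snd.comp emb_embedding.continuous

lemma time_cut (p : X) : time p ∉ Cut := by
  obtain ⟨q, s⟩ := p
  match s with
  | .b m x d =>
    have := alpha_cut x q
    rw [add_comm] at this
    exact this
  | .o | .a _ _ _ | .e _ _ _ _ _ | .g _ _ _ _ =>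
    have := rat_notin_cut q
    simpa [time, emb, shift] using this

instance : AddAction ℚ X where
  vadd q p := (q + p.1, p.2)
  zero_vadd p := by
    obtain ⟨q, s⟩ := p
    show ((0 + q, s) : ℚ × Pt) = (q, s)
    rw [zero_add]
  add_vadd q q' p := by
    obtain ⟨q'', s⟩ := p
    show ((q + q' + q'', s) : ℚ × Pt) = (q + (q' + q''), s)
    rw [add_assoc]

lemma vadd_def (q : ℚ) (p : X) : q +ᵥ p = ((q + p.1, p.2) : ℚ × Pt) := rfl

instance : ContinuousVAdd ℚ X := by
  refine ⟨?_⟩
  rw [emb_embedding.continuous_iff]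
  have : (emb ∘ fun p : ℚ × X => p.1 +ᵥ p.2) =
      fun p : ℚ × X => (((p.1 : ℝ) + time p.2, (emb p.2).2) : ℝ × Pt) := by
    funext p
    simp only [Function.comp, vadd_def, emb, time]
    push_cast
    rw [add_assoc]
  rw [this]
  refine Continuous.prodMk ?_ (continuous_pt.comp continuous_snd)
  exact (Rat.continuous_coe_real.comp continuous_fst).add (continuous_time.comp continuous_snd)

/-- The set of times at which a node is switched. -/
def Bad : List ℕ → ℝ → Prop
  | [], _ => False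
  | i :: v, t => Bad v t ∨ |t - r v.length| < 1 / ((i : ℝ) + 1)

lemma bad_loc (u : List ℕ) {t : ℝ} (ht : t ∉ Cut) : ∀ᶠ t' in 𝓝 t, (Bad u t' ↔ Bad u t) := by
  induction u with
  | nil => simp [Bad]
  | cons i v ih =>
    have h1 : |t - r v.length| ≠ 1 / ((i : ℝ) + 1) := by
      intro h
      rcases abs_eq (by positivity) |>.1 h with h | h
      · apply ht
        refine ⟨rho v.length + 1 / (i + 1), ?_⟩
        rw [r] at h
        push_cast
        linarith
      · apply ht
        refine ⟨rho v.length - 1 / (i + 1), ?_⟩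
        rw [r] at h
        push_cast
        linarith
    have h2 : ∀ᶠ t' in 𝓝 t,
        (|t' - r v.length| < 1 / ((i : ℝ) + 1) ↔ |t - r v.length| < 1 / ((i : ℝ) + 1)) := by
      have hc : Continuous fun t' : ℝ => |t' - r v.length| := by fun_prop
      rcases lt_or_gt_of_ne h1 with h | h
      · filter_upwards [hc.continuousAt.eventually_lt continuousAt_const h] with t' ht'
        exact iff_of_true ht' h
      · filter_upwards [(continuousAt_const (y := 1 / ((i : ℝ) + 1))).eventually_lt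
          hc.continuousAt h] with t' ht'
        constructor
        · intro h'; exact absurd h' (not_lt.2 ht'.le)
        · intro h'; exact absurd h' (not_lt.2 h.le)
    filter_upwards [ih, h2] with t' h3 h4
    simp only [Bad, h3, h4]

lemma bad_res {x : ℕ → ℕ} {t : ℝ} {j n : ℕ} (hj : j < n) (h : |t - r j| < 1 / ((x j : ℝ) + 1)) :
    Bad (res x n) t := by
  induction n with
  | zero => omega
  | succ n ih =>
    rcases Nat.lt_succ_iff_lt_or_eq.1 hj with h' | h'
    · exact Or.inl (ih h')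
    · subst h'
      right
      rw [res_length]
      exact h

lemma bad_far {t : ℝ} (l : ℕ) (ht : t ∉ Cut) :
    ∃ k : ℕ, ∀ᶠ t' in 𝓝 t, ∀ i, k ≤ i → ¬ |t' - r l| < 1 / ((i : ℝ) + 1) := by
  have h0 : 0 < |t - r l| := by
    rw [abs_pos, sub_ne_zero]
    rintro rfl
    exact ht ⟨rho l, rfl⟩
  obtain ⟨k, hk⟩ := exists_nat_one_div_lt (half_pos h0)
  refine ⟨k, ?_⟩
  have hc : Continuous fun t' : ℝ => |t' - r l| := by fun_prop
  filter_upwards [(continuousAt_const (y := |t - r l| / 2)).eventually_lt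
          hc.continuousAt (by linarith)] with t' ht' i hi
  rw [not_lt]
  refine le_trans ?_ ht'.le
  refine le_trans ?_ hk.le
  apply one_div_le_one_div_of_le
  · positivity
  · have : (k : ℝ) ≤ i := by exact_mod_cast hi
    linarith

/-- The predicate defining the time-dependent clopen sets. -/
def P (N : ℕ) (t : ℝ) : Pt → Prop
  | .o => True
  | .a m u _ => N < m ∨ (m = N ∧ ¬ Bad u t)
  | .b m _ _ => N < m
  | .e m u i _ _ => N < m ∨ (m = N ∧ ¬ Bad (i :: u) t)
  | .g m _ _ _ => N ≤ m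

lemma P_loc (N : ℕ) {t : ℝ} (s : Pt) (ht : t ∉ Cut)
    (hb : ∀ m x d, s = .b m x d → ∃ j, |t - r j| < 1 / ((x j : ℝ) + 1)) :
    ∀ᶠ w in 𝓝 t ×ˢ nb s, (P N w.1 w.2 ↔ P N t s) := by
  rw [nb, prod_sup, eventually_sup]
  constructor
  · rw [prod_pure, eventually_map]
    match s with
    | .o => simp [P]
    | .a m u d =>
      filter_upwards [bad_loc u ht] with t' h
      simp [P, h]
    | .b m x d => simp [P]
    | .e m u i d d' =>
      filter_upwards [bad_loc (i :: u) ht] with t' h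
      simp [P, h]
    | .g m x d d' => simp [P]
  · match s with
    | .o =>
      have h1 : ∀ᶠ z in L .o, N + 1 ≤ stage z := ev_o.2 ⟨N + 1, fun z hz => hz⟩
      refine ((Filter.Eventually.of_forall (fun _ => trivial) :
        ∀ᶠ t' in 𝓝 t, True).prod_mk h1).mono ?_
      rintro ⟨t', z⟩ ⟨-, hz⟩
      simp only at hz
      match z with
      | .o => simp [P]
      | .a m u d => simp only [stage] at hz; simp only [P, iff_true]; left; omega
      | .b m x d => simp only [stage] at hz; simp only [P, iff_true]; omega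
      | .e m u i d d' => simp only [stage] at hz; simp only [P, iff_true]; left; omega
      | .g m x d d' => simp only [stage] at hz; simp only [P, iff_true]; omega
    | .a m [] d =>
      obtain ⟨k, hk⟩ := bad_far (t := t) 0 ht
      have h1 : ∀ᶠ z in L (.a m [] d),
          (∃ i d', k ≤ i ∧ z = Pt.e m [] i d d') ∨ (∃ x d', z = Pt.g m x d' d) :=
        ev_a_nil.2 ⟨⟨k, fun i hi d' => Or.inl ⟨i, d', hi, rfl⟩⟩,
          Filter.Eventually.of_forall fun d' x => Or.inr ⟨x, d', rfl⟩⟩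
      refine (hk.prod_mk h1).mono ?_
      rintro ⟨t', z⟩ ⟨ht', hz⟩
      rcases hz with ⟨i, d', hi, hz⟩ | ⟨x, d', hz⟩
      · simp only at hz
        subst hz
        have := ht' i hi
        simp only [P, Bad, List.length_nil, false_or, this, not_false_eq_true, and_true]
      · simp only at hz
        subst hz
        simp only [P, Bad, not_false_eq_true, and_true]
        omega
    | .a m (j :: v) d =>
      obtain ⟨k, hk⟩ := bad_far (t := t) (j :: v).length ht
      have h1 : ∀ᶠ z in L (.a m (j :: v) d),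
          (∃ i d', k ≤ i ∧ z = Pt.e m (j :: v) i d d') ∨ (∃ d', z = Pt.e m v j d' d) :=
        ev_a_cons.2 ⟨⟨k, fun i hi d' => Or.inl ⟨i, d', hi, rfl⟩⟩,
          Filter.Eventually.of_forall fun d' => Or.inr ⟨d', rfl⟩⟩
      refine ((hk.and (bad_loc (j :: v) ht)).prod_mk h1).mono ?_
      rintro ⟨t', z⟩ ⟨⟨ht', ht2⟩, hz⟩
      rcases hz with ⟨i, d', hi, hz⟩ | ⟨d', hz⟩
      · simp only at hz
        subst hz
        have h3 := ht' i hi
        have h4 : Bad (i :: j :: v) t' ↔ Bad (j :: v) t := by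
          rw [← ht2, Bad]
          simp only [h3, or_false]
        simp only [P, h4]
      · simp only at hz
        subst hz
        simp only [P, ht2]
    | .b 0 x d =>
      obtain ⟨j, hj⟩ := hb 0 x d rfl
      have h1 : ∀ᶠ z in L (.b 0 x d),
          (∃ n d', j + 1 ≤ n ∧ z = Pt.e 0 (res x n) (x n) d d') :=
        ev_b_zero.2 ⟨j + 1, fun n hn d' => ⟨n, d', hn, rfl⟩⟩
      have hc : Continuous fun t' : ℝ => |t' - r j| := by fun_prop
      have h2 : ∀ᶠ t' in 𝓝 t, |t' - r j| < 1 / ((x j : ℝ) + 1) :=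
        hc.continuousAt.eventually_lt continuousAt_const hj
      refine (h2.prod_mk h1).mono ?_
      rintro ⟨t', z⟩ ⟨ht', hz⟩
      obtain ⟨n, d', hn, hz⟩ := hz
      simp only at hz
      subst hz
      have h4 : Bad (x n :: res x n) t' := bad_res (x := x) (n := n + 1) (j := j) (by omega) ht'
      simp only [P, h4, not_true_eq_false, and_false, or_false]
    | .b (m + 1) x d =>
      obtain ⟨j, hj⟩ := hb (m + 1) x d rfl
      have h1 : ∀ᶠ z in L (.b (m + 1) x d),
          (∃ n d', j + 1 ≤ n ∧ z = Pt.e (m + 1) (res x n) (x n) d d') ∨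
            (∃ d', z = Pt.g m x d d') :=
        ev_b_succ.2 ⟨⟨j + 1, fun n hn d' => Or.inl ⟨n, d', hn, rfl⟩⟩,
          Filter.Eventually.of_forall fun d' => Or.inr ⟨d', rfl⟩⟩
      have hc : Continuous fun t' : ℝ => |t' - r j| := by fun_prop
      have h2 : ∀ᶠ t' in 𝓝 t, |t' - r j| < 1 / ((x j : ℝ) + 1) :=
        hc.continuousAt.eventually_lt continuousAt_const hj
      refine (h2.prod_mk h1).mono ?_
      rintro ⟨t', z⟩ ⟨ht', hz⟩
      rcases hz with ⟨n, d', hn, hz⟩ | ⟨d', hz⟩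
      · simp only at hz
        subst hz
        have h4 : Bad (x n :: res x n) t' := bad_res (x := x) (n := n + 1) (j := j) (by omega) ht'
        simp only [P, h4, not_true_eq_false, and_false, or_false]
      · simp only at hz
        subst hz
        simp only [P]
        omega
    | .e _ _ _ _ _ =>
      rw [L, prod_bot]
      exact eventually_bot
    | .g _ _ _ _ =>
      rw [L, prod_bot]
      exact eventually_bot

lemma nhds_X (p : X) : 𝓝 p = comap emb (𝓝 (time p) ×ˢ nb p.2) := by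
  rw [nhds_induced emb p]
  congr 1
  rw [← nhds_pt]
  exact nhds_prod_eq

lemma near_of_b (p : X) : ∀ m x d, p.2 = .b m x d →
    ∃ j, |time p - r j| < 1 / ((x j : ℝ) + 1) := by
  obtain ⟨q, s⟩ := p
  rintro m x d rfl
  obtain ⟨j, hj⟩ := alpha_near x q
  refine ⟨j, ?_⟩
  have : time (q, Pt.b m x d) = alpha x + q := by
    simp only [time, emb, shift]
    ring
  rw [this]
  exact hj

lemma isClopen_W (N : ℕ) : IsClopen {p : X | P N (time p) p.2} := by
  refine isClopen_of_ev fun p => ?_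
  rw [nhds_X]
  exact (P_loc N p.2 (time_cut p) (near_of_b p)).comap emb

lemma exists_cut_btwn {a b : ℝ} (h : a < b) : ∃ c ∈ Cut, a < c ∧ c < b := by
  obtain ⟨q, h1, h2⟩ := exists_rat_btwn (show a - √2 < b - √2 by linarith)
  exact ⟨√2 + q, ⟨q, rfl⟩, by linarith, by linarith⟩

lemma isClopen_time {a b : ℝ} (ha : a ∈ Cut) (hb : b ∈ Cut) :
    IsClopen {p : X | a < time p ∧ time p < b} := by
  constructor
  · have : {p : X | a < time p ∧ time p < b} = {p : X | a ≤ time p ∧ time p ≤ b} := by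
      ext p
      constructor
      · rintro ⟨h1, h2⟩
        exact ⟨h1.le, h2.le⟩
      · rintro ⟨h1, h2⟩
        refine ⟨lt_of_le_of_ne h1 ?_, lt_of_le_of_ne h2 ?_⟩
        · rintro h
          exact time_cut p (h ▸ ha)
        · rintro h
          exact time_cut p (h ▸ hb)
    rw [this]
    exact (isClosed_le continuous_const continuous_time).inter
      (isClosed_le continuous_time continuous_const)
  · exact (isOpen_lt continuous_const continuous_time).inter
      (isOpen_lt continuous_time continuous_const)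

lemma P_stage {N : ℕ} {t : ℝ} {s : Pt} (h : P N t s) : s = .o ∨ N ≤ stage s := by
  match s with
  | .o => exact Or.inl rfl
  | .a m u d => right; simp only [P] at h; simp only [stage]; omega
  | .b m u d => right; simp only [P] at h; simp only [stage]; omega
  | .e m u i d d' => right; simp only [P] at h; simp only [stage]; omega
  | .g m x d d' => right; simp only [P] at h; simp only [stage]; omega

lemma exists_clopen_X {p : X} {V : Set X} (hV : V ∈ 𝓝 p) :
    ∃ K : Set X, IsClopen K ∧ p ∈ K ∧ K ⊆ V := by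
  have hV' := hV
  rw [nhds_induced emb p, nhds_prod_eq, mem_comap] at hV'
  obtain ⟨W, hW, hWV⟩ := hV'
  rw [mem_prod_iff] at hW
  obtain ⟨I, hI, U, hU, hIU⟩ := hW
  obtain ⟨ε, hε, hεI⟩ := Metric.mem_nhds_iff.1 hI
  obtain ⟨a, ha, ha1, ha2⟩ := exists_cut_btwn (show time p - ε < time p by linarith)
  obtain ⟨b, hb, hb1, hb2⟩ := exists_cut_btwn (show time p < time p + ε by linarith)
  have hJ : ∀ z : X, a < time z → time z < b → (emb z).1 ∈ I := by
    intro z h1 h2
    apply hεI
    rw [Metric.mem_ball, Real.dist_eq, abs_lt]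
    exact ⟨by linarith [show time z = (emb z).1 from rfl, show time p = (emb p).1 from rfl],
      by linarith [show time z = (emb z).1 from rfl, show time p = (emb p).1 from rfl]⟩
  by_cases hp : p.2 = .o
  · have hU' : U ∈ nb p.2 := by rw [← nhds_pt]; exact hU
    rw [← Filter.eventually_mem_set, ev_nb, hp, ev_o] at hU'
    obtain ⟨h1, N, hN⟩ := hU'
    refine ⟨{z : X | a < time z ∧ time z < b} ∩ {z : X | P N (time z) z.2},
      (isClopen_time ha hb).inter (isClopen_W N), ⟨⟨ha2, hb1⟩, ?_⟩, ?_⟩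
    · show P N (time p) p.2
      rw [hp]
      trivial
    · rintro z ⟨⟨hz1, hz2⟩, hz3⟩
      apply hWV
      apply hIU
      refine ⟨hJ z hz1 hz2, ?_⟩
      rcases P_stage hz3 with h | h
      · show z.2 ∈ U
        rw [h]
        exact h1
      · exact hN _ h
  · obtain ⟨K, hK1, hK2, hK3⟩ := exists_clopen (s := p.2) hp hU
    refine ⟨{z : X | a < time z ∧ time z < b} ∩ (fun z : X => (emb z).2) ⁻¹' K,
      (isClopen_time ha hb).inter (hK1.preimage continuous_pt), ⟨⟨ha2, hb1⟩, hK2⟩, ?_⟩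
    rintro z ⟨⟨hz1, hz2⟩, hz3⟩
    apply hWV
    apply hIU
    exact ⟨hJ z hz1 hz2, hK3 hz3⟩

instance : CompletelyRegularSpace X := by
  refine ⟨fun p C hC hp => ?_⟩
  obtain ⟨K, hK1, hK2, hK3⟩ := exists_clopen_X (hC.isOpen_compl.mem_nhds hp)
  refine ⟨Kᶜ.indicator (fun _ => (1 : unitInterval)), ?_, ?_, ?_⟩
  · exact hK1.compl.continuous_indicator continuous_const
  · rw [Set.indicator_of_notMem]
    simpa using hK2
  · intro z hz
    rw [Set.indicator_of_mem]
    · rfl
    · intro h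
      exact hK3 h hz

instance : T0Space X := emb_embedding.t0Space

instance : T35Space X := {}

/-- The point of `X` with rational coordinate `q` over `s`. -/
def pt (q : ℚ) (s : Pt) : X := (q, s)

lemma pt_eq_vadd (q : ℚ) (s : Pt) : pt q s = q +ᵥ pt 0 s := by
  show ((q, s) : ℚ × Pt) = (q + 0, s)
  rw [add_zero]

lemma time_pt (q : ℚ) (s : Pt) : time (pt q s) = q + shift s := rfl

lemma ext_nhds {q : ℚ} {s : Pt} {V : Set X} (hV : V ∈ 𝓝 (pt q s)) :
    ∃ δ > 0, ∀ᶠ z in L s, shift z = 0 →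
      ∀ q' : ℚ, |(q' : ℝ) - time (pt q s)| < δ → pt q' z ∈ V := by
  rw [nhds_X, mem_comap] at hV
  obtain ⟨W, hW, hWV⟩ := hV
  rw [mem_prod_iff] at hW
  obtain ⟨I, hI, U, hU, hIU⟩ := hW
  obtain ⟨δ, hδ, hδI⟩ := Metric.mem_nhds_iff.1 hI
  refine ⟨δ, hδ, ?_⟩
  have hU' : U ∈ L s := by
    have : L s ≤ nb s := le_sup_right
    exact this hU
  filter_upwards [hU'] with z hz hsz q' hq'
  apply hWV
  apply hIU
  refine ⟨?_, hz⟩
  apply hδI
  rw [Metric.mem_ball, Real.dist_eq]
  have : (emb (pt q' z)).1 = q' := by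
    show (q' : ℝ) + shift z = q'
    rw [hsz, add_zero]
  rw [this]
  exact hq'

lemma card_lt : Cardinal.mk (List ℕ → ℕ) < Cardinal.mk D := by
  have h1 : Cardinal.mk (List ℕ → ℕ) = Cardinal.continuum := by
    rw [← Cardinal.power_def, Cardinal.mk_nat]
    have : Cardinal.mk (List ℕ) = Cardinal.aleph0 := Cardinal.mk_eq_aleph0 _
    rw [this, Cardinal.aleph0_power_aleph0]
  rw [h1, Cardinal.mk_set, Cardinal.mk_real]
  exact Cardinal.cantor _

lemma D_uncountable : ¬ (Set.univ : Set D).Countable := by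
  intro h
  have h1 : Cardinal.mk D ≤ Cardinal.aleph0 := by
    rw [Cardinal.mk_le_aleph0_iff]
    exact Set.countable_univ_iff.1 h
  have h2 : Cardinal.aleph0 ≤ Cardinal.mk (List ℕ → ℕ) := Cardinal.aleph0_le_mk _
  exact absurd (card_lt.trans_le h1) (not_lt.2 h2)

lemma step {ψ : X → ℝ} (hc : Continuous ψ)
    (hu : ∀ ε > 0, ∃ δ > 0, ∀ q : ℚ, |(q : ℝ)| < δ → ∀ p, |ψ (q +ᵥ p) - ψ p| < ε)
    (m : ℕ) (c ε : ℝ) (hε : 0 < ε)
    (h : {d : D | ¬ ψ (pt 0 (.a (m + 1) [] d)) ≤ c}.Countable) :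
    {d : D | ¬ ψ (pt 0 (.a m [] d)) ≤ c + 4 * ε}.Countable := by
  classical
  -- thresholds
  have hH : ∀ (u : List ℕ) (d : D), ∃ k : ℕ, ∀ i, k ≤ i → ∀ d' : D,
      ψ (pt 0 (.e (m + 1) u i d d')) <
        ψ (pt 0 (.a (m + 1) u d)) + ε * (1 / 2) ^ (u.length + 1) := by
    intro u d
    have hpos : 0 < ε * (1 / 2) ^ (u.length + 1) := by positivity
    have hV : {p : X | ψ p < ψ (pt 0 (.a (m + 1) u d)) + ε * (1 / 2) ^ (u.length + 1)} ∈
        𝓝 (pt 0 (.a (m + 1) u d)) := by
      apply (isOpen_lt hc continuous_const).mem_nhds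
      show ψ (pt 0 (.a (m + 1) u d)) < ψ (pt 0 (.a (m + 1) u d)) + ε * (1 / 2) ^ (u.length + 1)
      linarith
    obtain ⟨δ, hδ, hev⟩ := ext_nhds hV
    match u with
    | [] =>
      rw [ev_a_nil] at hev
      obtain ⟨⟨k, hk⟩, -⟩ := hev
      refine ⟨k, fun i hi d' => hk i hi d' rfl 0 ?_⟩
      simpa [time_pt, shift] using hδ
    | j :: v =>
      rw [ev_a_cons] at hev
      obtain ⟨⟨k, hk⟩, -⟩ := hev
      refine ⟨k, fun i hi d' => hk i hi d' rfl 0 ?_⟩
      simpa [time_pt, shift] using hδ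
  choose H hH using hH
  -- pigeonhole
  have hcard : Cardinal.aleph0 ≤ Cardinal.mk D :=
    (Cardinal.aleph0_le_mk (List ℕ → ℕ)).trans card_lt.le
  obtain ⟨H0, hH0⟩ := Cardinal.infinite_pigeonhole_card_lt (fun d : D => fun u => H u d)
    card_lt hcard
  set Fib : Set D := (fun d : D => fun u => H u d) ⁻¹' {H0} with hFib
  set D' : Set D := Fib \ {d : D | ¬ ψ (pt 0 (.a (m + 1) [] d)) ≤ c} with hD'
  have hinf : D'.Infinite := by
    intro hfin
    have h1 : Fib.Countable := by
      refine (hfin.countable.union h).mono ?_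
      intro d hd
      by_cases hd' : d ∈ {d : D | ¬ ψ (pt 0 (.a (m + 1) [] d)) ≤ c}
      · exact Or.inr hd'
      · exact Or.inl ⟨hd, hd'⟩
    have h2 : Cardinal.mk Fib ≤ Cardinal.aleph0 := by
      rw [Cardinal.mk_le_aleph0_iff]
      exact h1
    have h3 : Cardinal.aleph0 ≤ Cardinal.mk (List ℕ → ℕ) := Cardinal.aleph0_le_mk _
    exact absurd (hH0.trans_le h2) (not_lt.2 h3)
  have hHd : ∀ d ∈ D', ∀ u, H u d = H0 u := by
    intro d hd u
    have : (fun u => H u d) = H0 := hd.1
    exact congrFun this u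
  -- the branch
  let rr : ℕ → List ℕ := fun n => Nat.rec [] (fun _ l => H0 l :: l) n
  let x : ℕ → ℕ := fun n => H0 (rr n)
  have hres : ∀ n, res x n = rr n := by
    intro n
    induction n with
    | zero => rfl
    | succ n ih =>
      rw [res, ih]
  have hx : ∀ n, x n = H0 (res x n) := by
    intro n
    rw [hres]
  -- values along the branch
  have key : ∀ n, (∀ d ∈ D', ψ (pt 0 (.a (m + 1) (res x n) d)) ≤ c + ε * (1 - (1 / 2) ^ n)) →
      ∀ d ∈ D', ∀ d' : D, ψ (pt 0 (.e (m + 1) (res x n) (x n) d d')) ≤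
        c + ε * (1 - (1 / 2) ^ (n + 1)) := by
    intro n hn d hd d'
    have h1 := hH (res x n) d (x n) (by rw [hHd d hd, hx n]) d'
    have h2 := hn d hd
    rw [res_length] at h1
    have h3 : ε * (1 - (1 / 2) ^ n) + ε * (1 / 2) ^ (n + 1) = ε * (1 - (1 / 2) ^ (n + 1)) := by
      ring
    linarith
  have claim1 : ∀ n, ∀ d ∈ D', ψ (pt 0 (.a (m + 1) (res x n) d)) ≤ c + ε * (1 - (1 / 2) ^ n) := by
    intro n
    induction n with
    | zero =>
      intro d hd
      have := hd.2
      simp only [Set.mem_ofPred_eq, not_not] at this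
      simpa [res] using this
    | succ n ih =>
      intro d hd
      by_contra hcon
      rw [not_le] at hcon
      have hV : {p : X | c + ε * (1 - (1 / 2) ^ (n + 1)) < ψ p} ∈
          𝓝 (pt 0 (.a (m + 1) (res x (n + 1)) d)) :=
        (isOpen_lt continuous_const hc).mem_nhds hcon
      obtain ⟨δ, hδ, hev⟩ := ext_nhds hV
      rw [res, ev_a_cons] at hev
      obtain ⟨-, hev⟩ := hev
      obtain ⟨d1, hd1, hd2⟩ := (hinf.frequently_cofinite.and_eventually hev).exists
      have h1 := hd2 rfl 0 (by simpa [time_pt, shift] using hδ)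
      have h2 := key n ih d1 hd1 d
      exact absurd h1 (not_lt.2 h2)
  have claim2 : ∀ n, ∀ d ∈ D', ∀ d' : D,
      ψ (pt 0 (.e (m + 1) (res x n) (x n) d d')) ≤ c + ε := by
    intro n d hd d'
    have h1 := key n (claim1 n) d hd d'
    have h2 : (0 : ℝ) ≤ ε * (1 / 2) ^ (n + 1) := by positivity
    linarith
  -- the end of the branch
  obtain ⟨δ, hδ, hu'⟩ := hu ε hε
  obtain ⟨qb', hqb'⟩ := exists_rat_near (alpha x) hδ
  set qb : ℚ := -qb' with hqb
  have hτ : |time (pt qb (.b (m + 1) x (∅ : D)))| < δ := by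
    have : time (pt qb (.b (m + 1) x (∅ : D))) = alpha x - qb' := by
      rw [time_pt, shift, hqb]
      push_cast
      ring
    rw [this]
    exact hqb'
  have hτ' : ∀ d : D, time (pt qb (.b (m + 1) x d)) = time (pt qb (.b (m + 1) x (∅ : D))) :=
    fun d => rfl
  set τ : ℝ := time (pt qb (.b (m + 1) x (∅ : D))) with hτdef
  have hq' : ∀ δ' > 0, ∃ q' : ℚ, |(q' : ℝ) - τ| < δ' ∧ |(q' : ℝ)| < δ := by
    intro δ' hδ'
    obtain ⟨q', hq'⟩ := exists_rat_near τ (lt_min hδ' (sub_pos.2 hτ))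
    refine ⟨q', ?_, ?_⟩
    · rw [abs_sub_comm]
      exact hq'.trans_le (min_le_left _ _)
    · have h1 : |(q' : ℝ)| ≤ |τ| + |τ - q'| := by
        have := abs_sub_abs_le_abs_sub (q' : ℝ) τ
        rw [abs_sub_comm] at this
        linarith
      have h2 := hq'.trans_le (min_le_right _ _)
      linarith
  have claim3 : ∀ d ∈ D', ψ (pt qb (.b (m + 1) x d)) ≤ c + 2 * ε := by
    intro d hd
    by_contra hcon
    rw [not_le] at hcon
    have hV : {p : X | c + 2 * ε < ψ p} ∈ 𝓝 (pt qb (.b (m + 1) x d)) :=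
      (isOpen_lt continuous_const hc).mem_nhds hcon
    obtain ⟨δ', hδ', hev⟩ := ext_nhds hV
    rw [ev_b_succ] at hev
    obtain ⟨⟨k, hk⟩, -⟩ := hev
    obtain ⟨q', hq1, hq2⟩ := hq' δ' hδ'
    have h1 := hk k le_rfl ∅ rfl q' (by rw [hτ' d]; exact hq1)
    have h2 := claim2 k d hd ∅
    have h3 := hu' q' hq2 (pt 0 (.e (m + 1) (res x k) (x k) d ∅))
    rw [← pt_eq_vadd] at h3
    have h4 := (abs_lt.1 h3).2
    have h5 : c + 2 * ε < ψ (pt q' (.e (m + 1) (res x k) (x k) d ∅)) := h1
    linarith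
  have claim4 : ∀ d ∈ D', ∀ᶠ d' in (cofinite : Filter D), ψ (pt 0 (.g m x d d')) ≤ c + 4 * ε := by
    intro d hd
    have hV : {p : X | ψ p < c + 3 * ε} ∈ 𝓝 (pt qb (.b (m + 1) x d)) := by
      apply (isOpen_lt hc continuous_const).mem_nhds
      have := claim3 d hd
      show ψ (pt qb (.b (m + 1) x d)) < c + 3 * ε
      linarith
    obtain ⟨δ', hδ', hev⟩ := ext_nhds hV
    rw [ev_b_succ] at hev
    obtain ⟨-, hev⟩ := hev
    obtain ⟨q', hq1, hq2⟩ := hq' δ' hδ'
    filter_upwards [hev] with d' hd'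
    have h1 : ψ (pt q' (.g m x d d')) < c + 3 * ε := hd' rfl q' (by rw [hτ' d]; exact hq1)
    have h3 := hu' q' hq2 (pt 0 (.g m x d d'))
    rw [← pt_eq_vadd] at h3
    have h4 := (abs_lt.1 h3).1
    linarith
  -- conclusion
  let j : ℕ → D := fun n => (hinf.natEmbedding D' n : D)
  have hj : ∀ n, j n ∈ D' := fun n => (hinf.natEmbedding D' n).2
  have hjinj : Function.Injective j := by
    intro a b hab
    exact (hinf.natEmbedding D').injective (Subtype.ext hab)
  have hjr : (Set.range j).Infinite := Set.infinite_range_of_injective hjinj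
  have hcount : (⋃ n, {d' : D | ¬ ψ (pt 0 (.g m x (j n) d')) ≤ c + 4 * ε}).Countable := by
    refine Set.countable_iUnion fun n => ?_
    have h1 := claim4 (j n) (hj n)
    exact (show {d' : D | ¬ ψ (pt 0 (.g m x (j n) d')) ≤ c + 4 * ε}.Finite from h1).countable
  refine hcount.mono ?_
  intro d' hd'
  by_contra hcon
  simp only [Set.mem_iUnion, Set.mem_ofPred_eq, not_exists, not_not] at hcon
  have hd2 : c + 4 * ε < ψ (pt 0 (.a m [] d')) := not_le.1 hd'
  have hV : {p : X | c + 4 * ε < ψ p} ∈ 𝓝 (pt 0 (.a m [] d')) :=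
    (isOpen_lt continuous_const hc).mem_nhds hd2
  obtain ⟨δ', hδ', hev⟩ := ext_nhds hV
  rw [ev_a_nil] at hev
  obtain ⟨-, hev⟩ := hev
  obtain ⟨d1, hd1, hd2⟩ := (hjr.frequently_cofinite.and_eventually hev).exists
  obtain ⟨n, rfl⟩ := hd1
  have h1 : c + 4 * ε < ψ (pt 0 (.g m x (j n) d')) :=
    hd2 x rfl 0 (by simpa [time_pt, shift] using hδ')
  exact absurd h1 (not_lt.2 (hcon n))

lemma chain {ψ : X → ℝ} (hc : Continuous ψ)
    (hu : ∀ ε > 0, ∃ δ > 0, ∀ q : ℚ, |(q : ℝ)| < δ → ∀ p, |ψ (q +ᵥ p) - ψ p| < ε)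
    (ε : ℝ) (hε : 0 < ε) (m : ℕ) : ∀ (c : ℝ),
    {d : D | ¬ ψ (pt 0 (.a m [] d)) ≤ c}.Countable →
    {d : D | ¬ ψ (pt 0 (.a 0 [] d)) ≤ c + 4 * ε * m}.Countable := by
  induction m with
  | zero => intro c h; simpa using h
  | succ m ih =>
    intro c h
    have h1 := ih _ (step hc hu m c ε hε h)
    have h2 : c + 4 * ε + 4 * ε * m = c + 4 * ε * ((m + 1 : ℕ) : ℝ) := by
      push_cast
      ring
    rw [h2] at h1
    exact h1

lemma no_separation {ψ : X → ℝ} (hc : Continuous ψ)
    (hu : ∀ ε > 0, ∃ δ > 0, ∀ q : ℚ, |(q : ℝ)| < δ → ∀ p, |ψ (q +ᵥ p) - ψ p| < ε)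
    (h0 : ψ (pt 0 .o) = 0) (h1 : ∀ d : D, ψ (pt 0 (.a 0 [] d)) = 1) : False := by
  have hV : {p : X | ψ p < 1 / 4} ∈ 𝓝 (pt 0 .o) := by
    apply (isOpen_lt hc continuous_const).mem_nhds
    show ψ (pt 0 .o) < 1 / 4
    rw [h0]
    norm_num
  obtain ⟨δ, hδ, hev⟩ := ext_nhds hV
  rw [ev_o] at hev
  obtain ⟨N, hN⟩ := hev
  have h2 : {d : D | ¬ ψ (pt 0 (.a N [] d)) ≤ 1 / 4}.Countable := by
    have : {d : D | ¬ ψ (pt 0 (.a N [] d)) ≤ 1 / 4} = ∅ := by
      ext d
      simp only [Set.mem_ofPred_eq, not_le, Set.mem_empty_iff_false, iff_false, not_lt]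
      have : ψ (pt 0 (.a N [] d)) < 1 / 4 :=
        hN (.a N [] d) le_rfl rfl 0 (by simpa [time_pt, shift] using hδ)
      exact this.le
    rw [this]
    exact Set.countable_empty
  have hpos : (0 : ℝ) < 1 / (16 * ((N : ℝ) + 1)) := by positivity
  have h3 := chain hc hu _ hpos N _ h2
  apply D_uncountable
  refine h3.mono ?_
  intro d _
  simp only [Set.mem_ofPred_eq, not_le, h1]
  have hN0 : (0 : ℝ) ≤ N := Nat.cast_nonneg N
  have h4 : 4 * (1 / (16 * ((N : ℝ) + 1))) * N ≤ 1 / 4 := by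
    rw [show 4 * (1 / (16 * ((N : ℝ) + 1))) * N = (4 * N) / (16 * ((N : ℝ) + 1)) by ring]
    rw [div_le_div_iff₀ (by positivity) (by norm_num)]
    linarith
  linarith

lemma uniform_of_compact {Y : Type} [TopologicalSpace Y] [AddAction ℚ Y] [ContinuousVAdd ℚ Y]
    [CompactSpace Y] (φ : C(Y, ℝ)) :
    ∀ ε > 0, ∃ δ > 0, ∀ q : ℚ, |(q : ℝ)| < δ → ∀ y : Y, |φ (q +ᵥ y) - φ y| < ε := by
  intro ε hε
  have h1 : ∀ᶠ q in 𝓝 (0 : ℚ), ∀ y ∈ (Set.univ : Set Y), |φ (q +ᵥ y) - φ y| < ε := by
    apply IsCompact.eventually_forall_of_forall_eventually isCompact_univ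
    intro y _
    have hcont : Continuous fun z : ℚ × Y => |φ (z.1 +ᵥ z.2) - φ z.2| := by
      have h2 : Continuous fun z : ℚ × Y => z.1 +ᵥ z.2 := continuous_vadd
      exact ((φ.continuous.comp h2).sub (φ.continuous.comp continuous_snd)).abs
    have h3 : |φ ((0 : ℚ) +ᵥ y) - φ y| < ε := by
      rw [zero_vadd, sub_self, abs_zero]
      exact hε
    exact (isOpen_lt hcont continuous_const).mem_nhds (x := ((0 : ℚ), y)) h3
  obtain ⟨δ, hδ, hball⟩ := Metric.eventually_nhds_iff.1 h1
  refine ⟨δ, hδ, fun q hq y => hball ?_ y (Set.mem_univ y)⟩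
  rw [Rat.dist_eq]
  simpa using hq

lemma no_embedding : ¬ ∃ (Y : Type) (_ : TopologicalSpace Y) (_ : AddAction ℚ Y),
          ContinuousVAdd ℚ Y ∧ CompactSpace Y ∧ T2Space Y ∧
          ∃ f : X → Y, Topology.IsEmbedding f ∧ ∀ (q : ℚ) (x : X), f (q +ᵥ x) = q +ᵥ f x := by
  rintro ⟨Y, _, _, _, _, _, f, hf, hequi⟩
  set C : Set X := {p | ∃ d : D, p = pt 0 (.a 0 [] d)} with hC
  have h1 : pt 0 .o ∉ closure C := by
    rw [mem_closure_iff_nhds]
    intro hcl
    have hU : {s : Pt | s = .o ∨ 1 ≤ stage s} ∈ 𝓝 (Pt.o) := by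
      rw [nhds_pt, ← Filter.eventually_mem_set, ev_nb, ev_o]
      exact ⟨Or.inl rfl, 1, fun z hz => Or.inr hz⟩
    have hV : (fun p : X => (emb p).2) ⁻¹' {s : Pt | s = .o ∨ 1 ≤ stage s} ∈ 𝓝 (pt 0 .o) :=
      continuous_pt.continuousAt.preimage_mem_nhds hU
    obtain ⟨p, hp1, d, rfl⟩ := hcl _ hV
    rcases hp1 with h | h
    · exact absurd h (by simp [emb, pt])
    · have : stage (Pt.a 0 [] d) = 0 := rfl
      have h' : 1 ≤ stage (Pt.a 0 [] d) := h
      omega
  have h2 : f (pt 0 .o) ∉ closure (f '' C) := by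
    rw [hf.isInducing.closure_eq_preimage_closure_image] at h1
    exact h1
  obtain ⟨φ, hφ0, hφ1, -⟩ := exists_continuous_zero_one_of_isClosed
    (isClosed_singleton (x := f (pt 0 .o))) (isClosed_closure (s := f '' C))
    (Set.disjoint_singleton_left.2 h2)
  have hc : Continuous fun p : X => φ (f p) := φ.continuous.comp hf.continuous
  refine no_separation (ψ := fun p => φ (f p)) hc ?_ ?_ ?_
  · intro ε hε
    obtain ⟨δ, hδ, h⟩ := uniform_of_compact φ ε hε
    refine ⟨δ, hδ, fun q hq p => ?_⟩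
    show |φ (f (q +ᵥ p)) - φ (f p)| < ε
    rw [hequi]
    exact h q hq (f p)
  · exact hφ0 rfl
  · intro d
    exact hφ1 (subset_closure ⟨_, ⟨d, rfl⟩, rfl⟩)

/-- There is a Tychonoff space with a continuous action of the additive group of rationals that has no equivariant topological embedding into any compact Hausdorff space with a continuous action of the rationals. -/
theorem result :
    ∃ (X : Type) (_ : TopologicalSpace X) (_ : AddAction ℚ X),
      ContinuousVAdd ℚ X ∧ T35Space X ∧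
      ¬ ∃ (Y : Type) (_ : TopologicalSpace Y) (_ : AddAction ℚ Y),
          ContinuousVAdd ℚ Y ∧ CompactSpace Y ∧ T2Space Y ∧
          ∃ f : X → Y, Topology.IsEmbedding f ∧ ∀ (q : ℚ) (x : X), f (q +ᵥ x) = q +ᵥ f x :=
  ⟨X, inferInstance, inferInstance, inferInstance, inferInstance, no_embedding⟩

end Pool.Agent.S13621
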