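import Pool.Statements.S00846
import Pool.Agent.H89.UniqueAdd

set_option autoImplicit false
open Pool Pool.MP_1ad72b_al

namespace Pool.Agent.S00846

open Pool.Agent.H89.UniqueAdd Filter

/-- The additive group of hyperintegers inside the hyperreals. -/
noncomputable def hyperint : AddSubgroup Hyperreal where
  carrier := {x | ∃ f : ℕ → ℤ, x = Hyperreal.ofSeq (fun n => (f n : ℝ))}
  add_mem' := by
    rintro _ _ ⟨f, rfl⟩ ⟨g, rfl⟩
    refine ⟨fun n => f n + g n, ?_⟩
    have : (fun n => ((f n + g n : ℤ) : ℝ)) = (fun n => (f n : ℝ)) + (fun n => (g n : ℝ)) := by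
      funext n; simp
    rw [this]
    rfl
  zero_mem' := ⟨fun _ => 0, by
    have : (fun _ : ℕ => ((0 : ℤ) : ℝ)) = fun _ => (0 : ℝ) := by funext n; simp
    rw [this]
    rfl⟩
  neg_mem' := by
    rintro _ ⟨f, rfl⟩
    refine ⟨fun n => - f n, ?_⟩
    have : (fun n => ((- f n : ℤ) : ℝ)) = - (fun n => (f n : ℝ)) := by
      funext n; simp
    rw [this]
    rfl

theorem hyperint_pos_one_le (x : Hyperreal) (hx : x ∈ hyperint) (h0 : 0 < x) : 1 ≤ x := by
  obtain ⟨f, rfl⟩ := hx
  have h1 : Hyperreal.ofSeq (fun _ => (0 : ℝ)) < Hyperreal.ofSeq (fun n => (f n : ℝ)) := h0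
  rw [Hyperreal.ofSeq_lt_ofSeq] at h1
  change Hyperreal.ofSeq (fun _ => (1 : ℝ)) ≤ Hyperreal.ofSeq (fun n => (f n : ℝ))
  rw [Hyperreal.ofSeq_le_ofSeq]
  filter_upwards [h1] with n hn
  have h2 : (0 : ℤ) < f n := by exact_mod_cast hn
  have h3 : (1 : ℤ) ≤ f n := h2
  exact_mod_cast h3

theorem hyperint_one_le (x : Hyperreal) (hx : x ∈ hyperint) (h0 : x ≠ 0) : 1 ≤ |x| := by
  rcases lt_or_gt_of_ne h0 with h | h
  · rw [abs_of_neg h]
    exact hyperint_pos_one_le _ (hyperint.neg_mem hx) (neg_pos.2 h)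
  · rw [abs_of_pos h]
    exact hyperint_pos_one_le _ hx h

theorem hyperint_cofinal (x : Hyperreal) : ∃ r ∈ hyperint, x ≤ r := by
  obtain ⟨g, rfl⟩ := Hyperreal.ofSeq_surjective x
  refine ⟨Hyperreal.ofSeq (fun n => ((⌈g n⌉ : ℤ) : ℝ)), ⟨fun n => ⌈g n⌉, rfl⟩, ?_⟩
  rw [Hyperreal.ofSeq_le_ofSeq]
  exact Eventually.of_forall (fun n => Int.le_ceil _)

theorem hyperint_one : (1 : Hyperreal) ∈ hyperint := by
  refine ⟨fun _ => 1, ?_⟩
  have : (fun _ : ℕ => ((1 : ℤ) : ℝ)) = fun _ => (1 : ℝ) := by funext n; simp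
  rw [this]
  rfl

instance : AddLeftMono (GS hyperint ℝ) := ⟨fun a b c h p => by
  change a.1 p + b.1 p ≤ a.1 p + c.1 p
  have := h p
  change b.1 p ≤ c.1 p at this
  linarith⟩

instance : AddRightMono (GS hyperint ℝ) := ⟨fun a b c h p => by
  change b.1 p + a.1 p ≤ c.1 p + a.1 p
  have := h p
  change b.1 p ≤ c.1 p at this
  linarith⟩

/-- The negation of the preceding statement: Every lattice-ordered group whose addition is the only lattice-monotone group operation on its lattice with the same zero is archimedean: whenever all natural multiples of a lie below some b, a ≤ 0. -/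
theorem result :
    ¬ (∀ (G : Type) [Lattice G] [AddGroup G] [AddLeftMono G] [AddRightMono G],
      (∀ op : G → G → G,
          (∀ x y z : G, op (op x y) z = op x (op y z)) →
          (∀ x : G, op 0 x = x ∧ op x 0 = x) →
          (∀ x : G, ∃ y : G, op x y = 0 ∧ op y x = 0) →
          (∀ a b c : G, a ≤ b → op c a ≤ op c b ∧ op a c ≤ op b c) →
          ∀ x y : G, op x y = x + y) →
      ∀ a b : G, (∀ n : ℕ, n • a ≤ b) → a ≤ 0) := by
  intro H
  have h := H (GS hyperint ℝ) (fun op h1 h2 h3 h4 =>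
    unique_addition hyperint_one_le hyperint_cofinal hyperint_one op h1 h2 h3 h4)
    (C 1) (C Hyperreal.omega) (by
      intro n p
      have e : (n • (C 1 : GS hyperint ℝ)).1 p = (n : Hyperreal) := by
        have : (n • (C 1 : GS hyperint ℝ)).1 = n • (C 1 : GS hyperint ℝ).1 := rfl
        rw [this, Pi.smul_apply]
        change n • (1 : Hyperreal) = _
        simp
      change (n • (C 1 : GS hyperint ℝ)).1 p ≤ Hyperreal.omega
      rw [e]
      have := Hyperreal.coe_lt_omega (n : ℝ)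
      exact le_of_lt (by exact_mod_cast this))
  have h' := h (fun _ => 0)
  change (1 : Hyperreal) ≤ 0 at h'
  exact absurd h' (not_le.2 one_pos)

end Pool.Agent.S00846
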