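import Pool.Statements.S02168
import Pool.Agent.H26.SymGenMain

set_option autoImplicit false
open Pool Pool.MP_864522_al

namespace Pool.Agent.S02168

/-- The negation of the preceding statement: If two subgroups G and H together generate the full permutation group of ℕ, then for some finite set U of permutations, either G together with U or H together with U generates the whole group. -/
theorem result :
    ¬ (∀ G H : Subgroup (Equiv.Perm ℕ), G ⊔ H = ⊤ →
      ∃ U : Finset (Equiv.Perm ℕ),
        G ⊔ Subgroup.closure (↑U : Set (Equiv.Perm ℕ)) = ⊤ ∨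
        H ⊔ Subgroup.closure (↑U : Set (Equiv.Perm ℕ)) = ⊤) := by
  intro h
  obtain ⟨G, H, hGH, hU⟩ := Pool.Agent.H26.SymGen.main_Nat
  obtain ⟨U, h1 | h1⟩ := h G H hGH
  · exact (hU U).1 h1
  · exact (hU U).2 h1

end Pool.Agent.S02168
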