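import Pool.Statements.S02757
import Pool.Agent.H4.StH

set_option autoImplicit false
open scoped NumberField
open Pool Pool.MP_b2c262_al

namespace Pool.Agent.S02757

/-- For N ≥ 6 and O the Gaussian or Eisenstein integers, with G either GL_N(O) or SL_N(O), the first homology of G with coefficients in the Steinberg module of the fraction field vanishes (cycles are boundaries in the bar complex). -/
theorem result :
  ∀ n : ℕ, 4 ≤ n → ∀ (K : Type) [Field K] [NumberField K],
    (Nonempty (K ≃+* CyclotomicField 4 ℚ) ∨ Nonempty (K ≃+* CyclotomicField 3 ℚ)) →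
    ∀ (G : Type) [Group G] (φ : G →* Matrix.GeneralLinearGroup (Fin (n + 2)) (𝓞 K)),
      Function.Injective φ →
      (Set.range φ = Set.univ ∨
        Set.range φ = {g : Matrix.GeneralLinearGroup (Fin (n + 2)) (𝓞 K) | Matrix.det g.val = 1}) →
      ∀ z : G →₀ ((Fin (n + 1) → Submodule K (Fin (n + 2) → K)) →₀ ℤ),
        (∀ g, (∀ f ∈ (z g).support, StrictMono f ∧ ∀ i, f i ≠ ⊥ ∧ f i ≠ ⊤) ∧
          (z g).sum (fun f a => ∑ i : Fin (n + 1),
            Finsupp.single (f ∘ Fin.succAbove i) ((-1 : ℤ) ^ (i : ℕ) * a)) = 0) →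
        z.sum (fun g x => Finsupp.mapDomain
            (fun f j => Submodule.map
              (Matrix.toLin' ((φ g⁻¹).val.map (algebraMap (𝓞 K) K))) (f j)) x - x) = 0 →
        ∃ w : (G × G) →₀ ((Fin (n + 1) → Submodule K (Fin (n + 2) → K)) →₀ ℤ),
          (∀ p, (∀ f ∈ (w p).support, StrictMono f ∧ ∀ i, f i ≠ ⊥ ∧ f i ≠ ⊤) ∧
            (w p).sum (fun f a => ∑ i : Fin (n + 1),
              Finsupp.single (f ∘ Fin.succAbove i) ((-1 : ℤ) ^ (i : ℕ) * a)) = 0) ∧
          z = w.sum (fun p x =>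
            Finsupp.single p.2 (Finsupp.mapDomain
              (fun f j => Submodule.map
                (Matrix.toLin' ((φ p.1⁻¹).val.map (algebraMap (𝓞 K) K))) (f j)) x)
            - Finsupp.single (p.1 * p.2) x + Finsupp.single p.1 x) := by
  intro n hn K _ _ hK G _ φ hinj hrange z hz hd
  obtain ⟨E⟩ := Pool.Agent.H4.euc_of hK
  have hpid : IsPrincipalIdealRing (𝓞 K) := E.pid
  have hdet : ∀ A : Matrix (Fin (n + 1 + 1)) (Fin (n + 1 + 1)) (𝓞 K), A.det = 1 →
      ∃ g : G, (φ g).val = A := by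
    intro A hA
    have h1 : (Matrix.SpecialLinearGroup.toGL ⟨A, hA⟩ :
        Matrix.GeneralLinearGroup (Fin (n + 2)) (𝓞 K)) ∈ Set.range φ := by
      rcases hrange with h | h
      · rw [h]; trivial
      · rw [h]; exact hA
    obtain ⟨g, hg⟩ := h1
    exact ⟨g, by rw [hg]; rfl⟩
  have hV : Module.finrank K (Fin (n + 2) → K) = n + 2 := by
    rw [Module.finrank_fintype_fun_eq_card, Fintype.card_fin]
  let D := Pool.Agent.H4.matDat (K := K) (k := n + 1) φ hinj hdet
  obtain ⟨P⟩ := D.exists_Pq (by omega)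
  have hz' : ∀ g, z g ∈ Pool.Agent.H4.St (n + 1) (⊥ : Submodule K (Fin (n + 2) → K)) :=
    fun g => (Pool.Agent.H4.mem_St_iff hV (z g)).mpr (hz g)
  have h := Pool.Agent.H4.Dat.vanishing (D := D) E P (by omega) hV z hz' hd
  obtain ⟨w, hw, hwz⟩ := h
  refine ⟨w, fun p => (Pool.Agent.H4.mem_St_iff hV (w p)).mp (hw p), ?_⟩
  rw [← hwz, Pool.Agent.H4.Dat.D2_apply]
  rfl

end Pool.Agent.S02757
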