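import Pool.Statements.S02827
import Pool.Agent.H84.AR.Arith
import Pool.Agent.H89.SG.Gap
import Pool.Agent.H49.HY.MS

set_option autoImplicit false
open Pool Pool.MP_b77ed1_al

namespace Pool.Agent.S02827

/-- There is a word-hyperbolic group (finite generating set, four-point condition on word metric) such that every faithful action has orbit-ball growth at least f(n) up to constants for some superlinear f, yet no infinite subgroup has the property that every action with an invariant mean has a finite or -/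
theorem result :
  ∃ (G : Type) (_ : Group G) (S : Finset G),
    Subgroup.closure (S : Set G) = ⊤ ∧
    (∃ δ : ℕ, ∀ x y z w : G,
      (SimpleGraph.fromRel fun g h : G => g⁻¹ * h ∈ S).dist x y
        + (SimpleGraph.fromRel fun g h : G => g⁻¹ * h ∈ S).dist z w ≤
      max ((SimpleGraph.fromRel fun g h : G => g⁻¹ * h ∈ S).dist x z
            + (SimpleGraph.fromRel fun g h : G => g⁻¹ * h ∈ S).dist y w)
          ((SimpleGraph.fromRel fun g h : G => g⁻¹ * h ∈ S).dist x w
            + (SimpleGraph.fromRel fun g h : G => g⁻¹ * h ∈ S).dist y z) + 2 * δ) ∧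
    (∃ f : ℕ → ℝ, Filter.Tendsto (fun n : ℕ => f n / (n : ℝ)) Filter.atTop Filter.atTop ∧
      ∀ (X : Type) [MulAction G X], FaithfulSMul G X →
        ∃ C : ℕ, 0 < C ∧ ∀ n : ℕ, ∃ x : X,
          f n ≤ (C : ℝ) * (({y : X | ∃ g : G,
            (SimpleGraph.fromRel fun a b : G => a⁻¹ * b ∈ S).dist 1 g ≤ C * n ∧ g • x = y}.ncard : ℕ) : ℝ)) ∧
    ∀ K : Subgroup G, (K : Set G).Infinite →
      ¬ ∀ (X : Type) [MulAction K X],
        (∃ m : Set X → ℝ, (∀ A, 0 ≤ m A) ∧ m Set.univ = 1 ∧
          (∀ A B, Disjoint A B → m (A ∪ B) = m A + m B) ∧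
          ∀ (k : K) (A : Set X), m ((fun x => k • x) ⁻¹' A) = m A) →
        ∃ x : X, (MulAction.orbit K x).Finite := by
  obtain ⟨G, hG, S, ρ, hρ, htf, hS, hFM⟩ := H84.AR.arith
  refine ⟨G, hG, S, hS, ?_, ?_, hFM⟩
  · exact Pool.Agent.H49.HY.hyp_of_bact (hρ.bact htf) hS
  · obtain ⟨f, hf1, hf0, hfm, hf2⟩ := Pool.Agent.H89.SG.gap_of_latt hρ htf S hS
    refine ⟨f, hf1, ?_⟩
    intro X _ hX
    refine ⟨1, one_pos, fun n => ?_⟩
    obtain ⟨x, hx⟩ := hf2 X hX n
    refine ⟨x, ?_⟩
    rw [Nat.cast_one, one_mul, one_mul]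
    exact hx

end Pool.Agent.S02827
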