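import Pool.Statements.S03413
import Pool.Agent.H36.FT.Main

set_option autoImplicit false
open Pool Pool.MP_e8b852_al

namespace Pool.Agent.S03413

/-- If G is locally graded and G = AB with A, B subgroups each satisfying max (all subgroups f.g.) and having a finite-index soluble subgroup, then G also has all subgroups f.g. and a finite-index soluble subgroup. -/
theorem result :
    ∀ (G : Type) [Group G],
      (∀ H : Subgroup G, H.FG → H ≠ ⊥ →
        ∃ N : Subgroup H, N.Normal ∧ N ≠ ⊤ ∧ N.FiniteIndex) →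
      ∀ A B : Subgroup G,
        ((∀ K : Subgroup G, K ≤ A → K.FG) ∧
          ∃ S : Subgroup G, S ≤ A ∧ IsSolvable S ∧ (S.subgroupOf A).FiniteIndex) →
        ((∀ K : Subgroup G, K ≤ B → K.FG) ∧
          ∃ S : Subgroup G, S ≤ B ∧ IsSolvable S ∧ (S.subgroupOf B).FiniteIndex) →
        (∀ g : G, ∃ a ∈ A, ∃ b ∈ B, g = a * b) →
        ((∀ K : Subgroup G, K.FG) ∧
          ∃ S : Subgroup G, IsSolvable S ∧ S.FiniteIndex) := by
  intro G _ hLG A B hA hB hAB
  exact H12.FR.s03413_of H36.FT.ftr G hLG A B hA hB hAB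

end Pool.Agent.S03413
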