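import Pool.Statements.S04934
-- import your own Pool.Agent.* helpers here

set_option autoImplicit false
open Pool Pool.MP_6ac155_an

namespace Pool.Agent.S04934

/-- From the diametral local diameter two property: every unit vector `x` and every functional `f`
admit `y` in the unit ball, almost antipodal to `x`, with `f y > f x - τ`. -/
lemma slice {X : Type} [NormedAddCommGroup X] [NormedSpace ℝ X]
    (h : ∀ (f : X →L[ℝ] ℝ) (α : ℝ), 0 < α → ∀ x : X, ‖x‖ = 1 → ‖f‖ - α < f x →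
        ∀ ε : ℝ, 0 < ε → ∃ y : X, ‖y‖ ≤ 1 ∧ ‖f‖ - α < f y ∧ 2 - ε < ‖x - y‖)
    (f : X →L[ℝ] ℝ) (x : X) (hx : ‖x‖ = 1) (τ : ℝ) (hτ : 0 < τ) (ε : ℝ) (hε : 0 < ε) :
    ∃ y : X, ‖y‖ ≤ 1 ∧ f x - τ < f y ∧ 2 - ε < ‖x - y‖ := by
  have h1 : f x ≤ ‖f‖ := by
    have := f.le_opNorm x
    rw [hx, mul_one] at this
    exact (le_abs_self _).trans this
  obtain ⟨y, hy1, hy2, hy3⟩ := h f (‖f‖ - f x + τ) (by linarith) x hx (by linarith) ε hε
  exact ⟨y, hy1, by linarith, hy3⟩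

/-- One step of the construction: if `s` is a sum of `k` vectors of the ball, with
`‖x - s‖` almost `1 + k`, then one more vector `w` of the ball may be added, with `‖x - s - w‖`
almost `k + 2` and `f w` at least about `f x`. -/
lemma step {X : Type} [NormedAddCommGroup X] [NormedSpace ℝ X]
    (h : ∀ (f : X →L[ℝ] ℝ) (α : ℝ), 0 < α → ∀ x : X, ‖x‖ = 1 → ‖f‖ - α < f x →
        ∀ ε : ℝ, 0 < ε → ∃ y : X, ‖y‖ ≤ 1 ∧ ‖f‖ - α < f y ∧ 2 - ε < ‖x - y‖)
    (x : X) (hx : ‖x‖ = 1) (k : ℝ) (hk : 0 ≤ k) (s : X) (hs : ‖s‖ ≤ k) (η : ℝ) (hη : 0 < η)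
    (hη1 : η < 1 / 2) (hxs : 1 + k - η ≤ ‖x - s‖) (t : ℝ) (ht : 0 < t) (ht1 : t ≤ 1 / 2)
    (f : X →L[ℝ] ℝ) :
    ∃ w : X, ‖w‖ ≤ 1 ∧ f x - ‖f‖ * (2 * t * k + η) - 1 / 4 < f w ∧
      k + 2 - (η + η * (1 + t * k)) / t ≤ ‖x - (s + w)‖ := by
  set u : X := x - t • s with hu
  have hts : ‖t • s‖ ≤ t * k := by
    rw [norm_smul, Real.norm_eq_abs, abs_of_pos ht]
    exact mul_le_mul_of_nonneg_left hs ht.le
  -- norm of `u`
  have hu_le : ‖u‖ ≤ 1 + t * k := by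
    calc ‖u‖ ≤ ‖x‖ + ‖t • s‖ := norm_sub_le _ _
      _ ≤ 1 + t * k := by rw [hx]; linarith
  have hu_ge : 1 + t * k - η ≤ ‖u‖ := by
    have e : x - s = u - (1 - t) • s := by
      rw [hu, sub_smul, one_smul]; abel
    have h1 : ‖x - s‖ ≤ ‖u‖ + (1 - t) * k := by
      rw [e]
      calc ‖u - (1 - t) • s‖ ≤ ‖u‖ + ‖(1 - t) • s‖ := norm_sub_le _ _
        _ ≤ ‖u‖ + (1 - t) * k := by
          rw [norm_smul, Real.norm_eq_abs, abs_of_nonneg (by linarith : (0:ℝ) ≤ 1 - t)]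
          have := mul_le_mul_of_nonneg_left hs (by linarith : (0:ℝ) ≤ 1 - t)
          linarith
    linarith
  have htk : 0 ≤ t * k := by positivity
  have hupos : 0 < ‖u‖ := by linarith
  have hune : ‖u‖ ≠ 0 := hupos.ne'
  have hut : t ≤ ‖u‖ := by linarith
  -- normalise
  set v : X := ‖u‖⁻¹ • u with hv
  have hvn : ‖v‖ = 1 := by
    rw [hv, norm_smul, norm_inv, norm_norm, inv_mul_cancel₀ hune]
  have huv : u = ‖u‖ • v := by
    rw [hv, smul_smul, mul_inv_cancel₀ hune, one_smul]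
  obtain ⟨w, hw1, hw2, hw3⟩ := slice h f v hvn (1 / 4) (by norm_num) η hη
  refine ⟨w, hw1, ?_, ?_⟩
  · -- distance between `x` and `v`
    have d1 : ‖u - v‖ = |‖u‖ - 1| := by
      have : u - v = (‖u‖ - 1) • v := by rw [sub_smul, one_smul, ← huv]
      rw [this, norm_smul, hvn, mul_one, Real.norm_eq_abs]
    have d2 : |‖u‖ - 1| ≤ t * k + η := by
      rw [abs_le]; constructor <;> linarith
    have d3 : ‖x - u‖ ≤ t * k := by
      have : x - u = t • s := by rw [hu]; abel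
      rw [this]; exact hts
    have d4 : ‖x - v‖ ≤ 2 * t * k + η := by
      calc ‖x - v‖ = ‖(x - u) + (u - v)‖ := by congr 1; abel
        _ ≤ ‖x - u‖ + ‖u - v‖ := norm_add_le _ _
        _ ≤ t * k + (t * k + η) := by rw [d1]; linarith
        _ = 2 * t * k + η := by ring
    have d5 : f x - f v ≤ ‖f‖ * (2 * t * k + η) := by
      rw [← map_sub]
      calc f (x - v) ≤ |f (x - v)| := le_abs_self _
        _ ≤ ‖f‖ * ‖x - v‖ := f.le_opNorm _
        _ ≤ ‖f‖ * (2 * t * k + η) := mul_le_mul_of_nonneg_left d4 (norm_nonneg _)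
    linarith
  · -- the norm estimate
    have e1 : ‖u‖ * (2 - η) ≤ ‖u - ‖u‖ • w‖ := by
      have : u - ‖u‖ • w = ‖u‖ • (v - w) := by rw [smul_sub, ← huv]
      rw [this, norm_smul, norm_norm]
      exact mul_le_mul_of_nonneg_left hw3.le hupos.le
    have e2 : u - ‖u‖ • w = t • (x - (s + w)) + (1 - t) • x - (‖u‖ - t) • w := by
      conv_lhs => rw [show u - ‖u‖ • w = (x - t • s) - ‖u‖ • w from rfl]
      rw [smul_sub, smul_add, sub_smul, sub_smul, one_smul]; abel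
    have e3 : ‖u - ‖u‖ • w‖ ≤ t * ‖x - (s + w)‖ + (1 - t) + (‖u‖ - t) := by
      rw [e2]
      calc ‖t • (x - (s + w)) + (1 - t) • x - (‖u‖ - t) • w‖
          ≤ ‖t • (x - (s + w)) + (1 - t) • x‖ + ‖(‖u‖ - t) • w‖ := norm_sub_le _ _
        _ ≤ ‖t • (x - (s + w))‖ + ‖(1 - t) • x‖ + ‖(‖u‖ - t) • w‖ := by
            gcongr; exact norm_add_le _ _
        _ ≤ t * ‖x - (s + w)‖ + (1 - t) + (‖u‖ - t) := by
            rw [norm_smul, norm_smul, norm_smul, Real.norm_eq_abs, Real.norm_eq_abs,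
              Real.norm_eq_abs, abs_of_pos ht, abs_of_nonneg (by linarith : (0:ℝ) ≤ 1 - t),
              abs_of_nonneg (by linarith : (0:ℝ) ≤ ‖u‖ - t), hx, mul_one]
            have := mul_le_mul_of_nonneg_left hw1 (by linarith : (0:ℝ) ≤ ‖u‖ - t)
            linarith
    have e4 : ‖u‖ * η ≤ (1 + t * k) * η := mul_le_mul_of_nonneg_right hu_le hη.le
    have e5 : t * (k + 2) - (η + η * (1 + t * k)) ≤ t * ‖x - (s + w)‖ := by nlinarith
    have e6 : k + 2 - (η + η * (1 + t * k)) / t = (t * (k + 2) - (η + η * (1 + t * k))) / t := by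
      field_simp
    rw [e6, div_le_iff₀ ht]
    linarith

/-- The iteration. -/
lemma iterate {X : Type} [NormedAddCommGroup X] [NormedSpace ℝ X]
    (h : ∀ (f : X →L[ℝ] ℝ) (α : ℝ), 0 < α → ∀ x : X, ‖x‖ = 1 → ‖f‖ - α < f x →
        ∀ ε : ℝ, 0 < ε → ∃ y : X, ‖y‖ ≤ 1 ∧ ‖f‖ - α < f y ∧ 2 - ε < ‖x - y‖)
    {n : ℕ} (g : Fin n → (X →L[ℝ] ℝ)) (x : X) (hx : ‖x‖ = 1) (k : ℕ) :
    ∀ η : ℝ, 0 < η → ∃ s : X, ‖s‖ ≤ k ∧ 1 + k - η ≤ ‖x - s‖ ∧
      ∑ i, (g i (s - (k : ℝ) • x)) ^ 2 ≤ k * (∑ i, (2 * ‖g i‖) ^ 2 + 1) := by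
  induction k with
  | zero =>
    intro η hη
    refine ⟨0, by simp, by simp [hx]; exact hη.le, by simp⟩
  | succ k ih =>
    intro η hη
    set L : ℝ := ∑ i, ‖g i‖ ^ 2 with hL
    have hL0 : 0 ≤ L := Finset.sum_nonneg fun i _ => by positivity
    have hk0 : (0 : ℝ) ≤ k := Nat.cast_nonneg k
    -- the parameters
    set t : ℝ := 1 / (32 * (k + 1) ^ 2 * (L + 1)) with ht
    have hden : (32 : ℝ) ≤ 32 * (k + 1) ^ 2 * (L + 1) := by
      have h1 : (1 : ℝ) ≤ (k + 1) ^ 2 := by nlinarith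
      have h2 : (1 : ℝ) ≤ (k + 1) ^ 2 * (L + 1) := by nlinarith
      nlinarith
    have ht0 : 0 < t := by rw [ht]; positivity
    have ht1 : t ≤ 1 / 2 := by
      rw [ht]
      exact one_div_le_one_div_of_le (by norm_num) (by linarith)
    set η₁ : ℝ := min (1 / (16 * (k + 1) * (L + 1))) (t * η / (2 + t * k)) with hη₁
    have hη₁0 : 0 < η₁ := by
      rw [hη₁]
      refine lt_min ?_ ?_ <;> positivity
    have hη₁a : η₁ ≤ 1 / (16 * (k + 1) * (L + 1)) := min_le_left _ _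
    have hη₁b : η₁ ≤ t * η / (2 + t * k) := min_le_right _ _
    have hden2 : (16 : ℝ) ≤ 16 * (k + 1) * (L + 1) := by nlinarith [mul_nonneg hk0 hL0]
    have hη₁c : η₁ < 1 / 2 := by
      have : 1 / (16 * ((k : ℝ) + 1) * (L + 1)) ≤ 1 / 16 :=
        one_div_le_one_div_of_le (by norm_num) hden2
      linarith
    obtain ⟨s, hs1, hs2, hs3⟩ := ih η₁ hη₁0
    -- the functional
    set v : X := s - (k : ℝ) • x with hv
    set f : X →L[ℝ] ℝ := -∑ i, (g i v) • g i with hf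
    obtain ⟨w, hw1, hw2, hw3⟩ := step h x hx k hk0 s hs1 η₁ hη₁0 hη₁c hs2 t ht0 ht1 f
    refine ⟨s + w, ?_, ?_, ?_⟩
    · calc ‖s + w‖ ≤ ‖s‖ + ‖w‖ := norm_add_le _ _
        _ ≤ ((k + 1 : ℕ) : ℝ) := by push_cast; linarith
    · refine le_trans ?_ hw3
      have h2k : 0 < 2 + t * (k : ℝ) := by positivity
      have h3 : η₁ * (2 + t * k) ≤ t * η := by
        rwa [le_div_iff₀ h2k] at hη₁b
      have h4 : (η₁ + η₁ * (1 + t * k)) / t ≤ η := by
        rw [div_le_iff₀ ht0]; linarith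
      push_cast; linarith
    · -- the approachability estimate
      have hvn : ‖v‖ ≤ 2 * k := by
        calc ‖v‖ ≤ ‖s‖ + ‖(k : ℝ) • x‖ := norm_sub_le _ _
          _ ≤ 2 * k := by
            rw [norm_smul, hx, mul_one, Real.norm_eq_abs, abs_of_nonneg hk0]; linarith
      have hfn : ‖f‖ ≤ 2 * k * L := by
        rw [hf, norm_neg]
        calc ‖∑ i, (g i v) • g i‖ ≤ ∑ i, ‖(g i v) • g i‖ := norm_sum_le _ _
          _ ≤ ∑ i, 2 * k * ‖g i‖ ^ 2 := by
            refine Finset.sum_le_sum fun i _ => ?_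
            rw [norm_smul]
            have h1 : ‖g i v‖ ≤ ‖g i‖ * (2 * k) :=
              ((g i).le_opNorm v).trans (mul_le_mul_of_nonneg_left hvn (norm_nonneg _))
            calc ‖g i v‖ * ‖g i‖ ≤ (‖g i‖ * (2 * k)) * ‖g i‖ :=
                  mul_le_mul_of_nonneg_right h1 (norm_nonneg _)
              _ = 2 * k * ‖g i‖ ^ 2 := by ring
          _ = 2 * k * L := by rw [hL, Finset.mul_sum]
      have hfx : ∀ z : X, f z = -∑ i, g i v * g i z := by
        intro z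
        rw [hf]
        simp
      have herr : ‖f‖ * (2 * t * k + η₁) ≤ 1 / 4 := by
        have h1 : 0 ≤ 2 * t * k + η₁ := by positivity
        have h2 : ‖f‖ * (2 * t * k + η₁) ≤ 2 * k * L * (2 * t * k + η₁) :=
          mul_le_mul_of_nonneg_right hfn h1
        have h3 : 2 * k * L * (2 * t * k) ≤ 1 / 8 := by
          have e : 2 * k * L * (2 * t * k) = (4 * k ^ 2 * L) / (32 * (k + 1) ^ 2 * (L + 1)) := by
            rw [ht]; ring
          rw [e, div_le_iff₀ (by positivity)]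
          have : (k : ℝ) ^ 2 * L ≤ (k + 1) ^ 2 * (L + 1) := by
            have a1 : (k : ℝ) ^ 2 ≤ (k + 1) ^ 2 := by nlinarith
            have a2 : L ≤ L + 1 := by linarith
            exact mul_le_mul a1 a2 hL0 (by positivity)
          linarith
        have h4 : 2 * k * L * η₁ ≤ 1 / 8 := by
          have e : 2 * k * L * η₁ ≤ 2 * k * L * (1 / (16 * (k + 1) * (L + 1))) :=
            mul_le_mul_of_nonneg_left hη₁a (by positivity)
          refine e.trans ?_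
          rw [mul_one_div, div_le_iff₀ (by positivity)]
          have : (k : ℝ) * L ≤ (k + 1) * (L + 1) := by nlinarith
          linarith
        nlinarith
      have hcross : ∑ i, g i v * g i (w - x) ≤ 1 / 2 := by
        have h1 := hfx w
        have h2 := hfx x
        have h3 : ∑ i, g i v * g i (w - x) = f x - f w := by
          rw [h1, h2]
          simp only [map_sub, mul_sub, Finset.sum_sub_distrib]
          ring
        rw [h3]; linarith
      have hsq : ∑ i, (g i (w - x)) ^ 2 ≤ ∑ i, (2 * ‖g i‖) ^ 2 := by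
        refine Finset.sum_le_sum fun i _ => ?_
        have hwx : ‖w - x‖ ≤ 2 := by
          calc ‖w - x‖ ≤ ‖w‖ + ‖x‖ := norm_sub_le _ _
            _ ≤ 2 := by rw [hx]; linarith
        have h1 : |g i (w - x)| ≤ 2 * ‖g i‖ := by
          have := (g i).le_opNorm (w - x)
          rw [Real.norm_eq_abs] at this
          nlinarith [norm_nonneg (g i)]
        exact sq_le_sq' (by linarith [(abs_le.mp h1).1]) (abs_le.mp h1).2
      have hdec : s + w - ((k + 1 : ℕ) : ℝ) • x = v + (w - x) := by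
        rw [hv]; push_cast; rw [add_smul, one_smul]; abel
      rw [hdec]
      have hexp : ∑ i, (g i (v + (w - x))) ^ 2
          = ∑ i, (g i v) ^ 2 + 2 * ∑ i, g i v * g i (w - x) + ∑ i, (g i (w - x)) ^ 2 := by
        rw [Finset.mul_sum, ← Finset.sum_add_distrib, ← Finset.sum_add_distrib]
        refine Finset.sum_congr rfl fun i _ => ?_
        rw [map_add]; ring
      rw [hexp]
      push_cast
      linarith

/-- The negation of the preceding statement: There is a real Banach space with the diametral local diameter two property (slices of the unit ball) that fails the diametral diameter two property (relatively weakly open subsets of the unit ball). -/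
theorem result :
    ¬ (∃ (X : Type) (_ : NormedAddCommGroup X) (_ : NormedSpace ℝ X) (_ : CompleteSpace X),
      (∀ (f : X →L[ℝ] ℝ) (α : ℝ), 0 < α → ∀ x : X, ‖x‖ = 1 → ‖f‖ - α < f x →
        ∀ ε : ℝ, 0 < ε → ∃ y : X, ‖y‖ ≤ 1 ∧ ‖f‖ - α < f y ∧ 2 - ε < ‖x - y‖) ∧
      ¬ (∀ (n : ℕ) (g : Fin n → (X →L[ℝ] ℝ)) (δ : ℝ), 0 < δ → ∀ x : X, ‖x‖ = 1 →
        ∀ ε : ℝ, 0 < ε → ∃ y : X, ‖y‖ ≤ 1 ∧ (∀ i, |g i (y - x)| < δ) ∧ 2 - ε < ‖x - y‖)) := by
  rintro ⟨X, _, _, _, h1, h2⟩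
  apply h2
  intro n g δ hδ x hx ε hε
  set C : ℝ := ∑ i, (2 * ‖g i‖) ^ 2 + 1 with hC
  have hC0 : 0 < C := by
    have : 0 ≤ ∑ i, (2 * ‖g i‖) ^ 2 := Finset.sum_nonneg fun i _ => by positivity
    linarith
  obtain ⟨K, hK⟩ := exists_nat_gt (C / δ ^ 2)
  have hKpos : (0 : ℝ) < K := lt_of_le_of_lt (by positivity) hK
  obtain ⟨s, hs1, hs2, hs3⟩ := iterate h1 g x hx K (ε / 2) (by linarith)
  refine ⟨(K : ℝ)⁻¹ • s, ?_, ?_, ?_⟩
  · rw [norm_smul, norm_inv, Real.norm_eq_abs, abs_of_pos hKpos]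
    calc (K : ℝ)⁻¹ * ‖s‖ ≤ (K : ℝ)⁻¹ * K := mul_le_mul_of_nonneg_left hs1 (by positivity)
      _ = 1 := inv_mul_cancel₀ hKpos.ne'
  · intro i
    have e : (K : ℝ)⁻¹ • s - x = (K : ℝ)⁻¹ • (s - (K : ℝ) • x) := by
      rw [smul_sub, smul_smul, inv_mul_cancel₀ hKpos.ne', one_smul]
    rw [e, map_smul, smul_eq_mul]
    have h3 : (g i (s - (K : ℝ) • x)) ^ 2 ≤ K * C :=
      (Finset.single_le_sum (f := fun i => (g i (s - (K : ℝ) • x)) ^ 2)
        (fun j _ => sq_nonneg _) (Finset.mem_univ i)).trans hs3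
    have h4 : ((K : ℝ)⁻¹ * g i (s - (K : ℝ) • x)) ^ 2 < δ ^ 2 := by
      rw [mul_pow]
      calc ((K : ℝ)⁻¹) ^ 2 * (g i (s - (K : ℝ) • x)) ^ 2 ≤ ((K : ℝ)⁻¹) ^ 2 * (K * C) :=
            mul_le_mul_of_nonneg_left h3 (by positivity)
        _ = C / K := by field_simp
        _ < δ ^ 2 := by
          rw [div_lt_iff₀ hKpos]
          rw [div_lt_iff₀ (by positivity)] at hK
          linarith
    exact abs_lt_of_sq_lt_sq h4 hδ.le
  · have e : x - s = (x - (K : ℝ)⁻¹ • s) - (1 - (K : ℝ)⁻¹) • s := by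
      rw [sub_smul, one_smul]; abel
    have hK1 : (1 : ℝ) ≤ K := by
      have : 0 < K := by exact_mod_cast hKpos
      exact_mod_cast this
    have hKi : (K : ℝ)⁻¹ ≤ 1 := inv_le_one_of_one_le₀ hK1
    have h3 : ‖x - s‖ ≤ ‖x - (K : ℝ)⁻¹ • s‖ + (1 - (K : ℝ)⁻¹) * K := by
      rw [e]
      calc ‖(x - (K : ℝ)⁻¹ • s) - (1 - (K : ℝ)⁻¹) • s‖
          ≤ ‖x - (K : ℝ)⁻¹ • s‖ + ‖(1 - (K : ℝ)⁻¹) • s‖ := norm_sub_le _ _
        _ ≤ ‖x - (K : ℝ)⁻¹ • s‖ + (1 - (K : ℝ)⁻¹) * K := by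
          rw [norm_smul, Real.norm_eq_abs, abs_of_nonneg (by linarith : (0:ℝ) ≤ 1 - (K:ℝ)⁻¹)]
          have := mul_le_mul_of_nonneg_left hs1 (by linarith : (0:ℝ) ≤ 1 - (K:ℝ)⁻¹)
          linarith
    have h4 : (1 - (K : ℝ)⁻¹) * K = K - 1 := by
      rw [sub_mul, inv_mul_cancel₀ hKpos.ne']; ring
    linarith

end Pool.Agent.S04934
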