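import Pool.Statements.S05192
import Pool.Agent.H87.LE.B13_Final

set_option autoImplicit false
open MeasureTheory Filter
open Pool Pool.MP_7eb226_an

namespace Pool.Agent.S05192

/-- The negation of the preceding statement: For every bounded nonempty open Ω in ℝ^N (N≥2) and 2<q<2*, the set of λ admitting a nonzero H¹₀ weak solution of −Δu=λ‖u‖_q^{2−q}∣u∣^{q−2}u is positive, unbounded, and has only finitely many elements below any bound. -/
theorem result :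
    ¬ (∀ (N : ℕ), 2 ≤ N → ∀ (Ω : Set (EuclideanSpace ℝ (Fin N))), IsOpen Ω → Bornology.IsBounded Ω → Ω.Nonempty →
  ∀ q : ℝ, 2 < q → (3 ≤ N → q < 2 * (N : ℝ) / ((N : ℝ) - 2)) →
  ∀ S : Set ℝ, S = {lam : ℝ | ∃ (u : EuclideanSpace ℝ (Fin N) → ℝ)
      (G : EuclideanSpace ℝ (Fin N) → EuclideanSpace ℝ (Fin N)),
      MemLp u 2 (volume.restrict Ω) ∧ MemLp u (ENNReal.ofReal q) (volume.restrict Ω) ∧
      MemLp G 2 (volume.restrict Ω) ∧
      ¬ (u =ᵐ[volume.restrict Ω] 0) ∧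
      (∃ φ : ℕ → EuclideanSpace ℝ (Fin N) → ℝ,
        (∀ n, ContDiff ℝ ((⊤ : ℕ∞) : WithTop ℕ∞) (φ n) ∧ HasCompactSupport (φ n) ∧ tsupport (φ n) ⊆ Ω) ∧
        Tendsto (fun n => eLpNorm (fun x => φ n x - u x) 2 (volume.restrict Ω)) atTop (nhds 0) ∧
        Tendsto (fun n => eLpNorm (fun x => gradient (φ n) x - G x) 2 (volume.restrict Ω)) atTop (nhds 0)) ∧
      ∀ ψ : EuclideanSpace ℝ (Fin N) → ℝ, ContDiff ℝ ((⊤ : ℕ∞) : WithTop ℕ∞) ψ → HasCompactSupport ψ →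
        tsupport ψ ⊆ Ω →
        ∫ x in Ω, inner ℝ (G x) (gradient ψ x) =
          lam * ((eLpNorm u (ENNReal.ofReal q) (volume.restrict Ω)).toReal) ^ (2 - q) *
            ∫ x in Ω, |u x| ^ (q - 2) * u x * ψ x} →
  S ⊆ Set.Ioi 0 ∧ ¬ BddAbove S ∧ ∀ M : ℝ, (S ∩ Set.Iic M).Finite) := by
  intro H
  obtain ⟨Ω, q, M, hΩ, hD, hne, hq, hinf⟩ := Pool.Agent.H87.LE.spec_infinite
  let e : ℂ ≃ₗᵢ[ℝ] EuclideanSpace ℝ (Fin 2) := Complex.orthonormalBasisOneI.repr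
  have hb : Bornology.IsBounded Ω := by
    refine (Metric.isBounded_ball (x := (0:ℂ)) (r := 2)).subset fun z hz => ?_
    rw [mem_ball_zero_iff]
    have h1 := Complex.norm_le_abs_re_add_abs_im z
    have h2 : |z.re| < 1 := (hD hz).1
    have h3 : |z.im| < 1 := (hD hz).2
    linarith
  have h := H 2 le_rfl (e '' Ω) (e.toHomeomorph.isOpenMap Ω hΩ)
    (e.lipschitz.isBounded_image hb) (hne.image _) q hq (by norm_num) _ rfl
  have h2 := h.2.2 M
  rw [← Pool.Agent.H87.LE.transfer e Ω q] at h2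
  exact hinf h2

end Pool.Agent.S05192
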