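import Pool.Statements.S05481
import Pool.Agent.H15.FFMain

set_option autoImplicit false
open Filter Topology
open Pool Pool.MP_974af6_an

namespace Pool.Agent.S05481

/-- Every nonnegative continuous solution of the critical forest fire equations (total mass 1) whose initial data is admissible converges, for each k, to v_k(∞) = C(2k,k)/((2k−1)4^k), the coefficients of 1 − √(1−z). -/
theorem result :
  ∀ v : ℕ → ℝ → ℝ,
    (∀ k : ℕ, 1 ≤ k → ∀ t : ℝ, 0 ≤ t → 0 ≤ v k t) →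
    (∀ t : ℝ, 0 ≤ t → HasSum (fun k : ℕ => v (k + 1) t) 1) →
    (∀ k : ℕ, 1 ≤ k → ContinuousOn (v k) (Set.Ici 0)) →
    (∀ k : ℕ, 2 ≤ k → ∀ t : ℝ, 0 < t →
      HasDerivAt (v k)
        (-(k : ℝ) * v k t + ((k : ℝ) / 2) * ∑ l ∈ Finset.Ico 1 k, v l t * v (k - l) t) t) →
    (∃ δ : ℝ, 0 < δ ∧ ∃ g : ℂ → ℂ,
      AnalyticOnNhd ℂ g (Metric.closedBall (1 : ℂ) δ) ∧
      (∀ x : ℝ, 1 - δ ≤ x → x ≤ 1 →
        HasSum (fun k : ℕ => ((v (k + 1) 0 : ℝ) : ℂ) * g (x : ℂ) ^ (k + 1)) (x : ℂ)) ∧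
      (((deriv g 1).im = 0 ∧ 0 < (deriv g 1).re) ∨
        (deriv g 1 = 0 ∧ (deriv (deriv g) 1).im = 0 ∧ (deriv (deriv g) 1).re < 0))) →
    ∀ k : ℕ, 1 ≤ k →
      Tendsto (fun t : ℝ => v k t) atTop
        (𝓝 ((Nat.centralBinom k : ℝ) / ((2 * (k : ℝ) - 1) * 4 ^ k))) := by
  intro v h1 h2 h3 h4 _ k hk
  exact Pool.Agent.H15.FF.main h1 h2 h3 h4 k hk

end Pool.Agent.S05481
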