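import Pool.Statements.S05969
import Pool.Agent.H51.CycFinal

set_option autoImplicit false
open Finset
open Pool Pool.MP_bdd809_an

namespace Pool.Agent.S05969

/-- There is a two-variable power series f with square-summable coefficients whose reciprocal also has square-summable coefficients, yet the constant 1 is not an H^2-limit of polynomial multiples of f, so f is not shift-cyclic. -/
theorem result :
    ∃ a b : ℕ → ℕ → ℂ,
      Summable (fun p : ℕ × ℕ => ‖a p.1 p.2‖ ^ 2) ∧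
      Summable (fun p : ℕ × ℕ => ‖b p.1 p.2‖ ^ 2) ∧
      (∀ m n : ℕ,
        (∑ i ∈ range (m + 1), ∑ j ∈ range (n + 1), a i j * b (m - i) (n - j))
          = (if m = 0 ∧ n = 0 then (1 : ℂ) else 0)) ∧
      ∃ ε : ℝ, 0 < ε ∧
        ∀ c : ℕ → ℕ → ℂ, ∀ N : ℕ, (∀ i j : ℕ, N ≤ i ∨ N ≤ j → c i j = 0) →
          ε ≤ ∑' p : ℕ × ℕ,
            ‖(∑ i ∈ range (p.1 + 1), ∑ j ∈ range (p.2 + 1),
                c i j * a (p.1 - i) (p.2 - j))
              - (if p.1 = 0 ∧ p.2 = 0 then (1 : ℂ) else 0)‖ ^ 2 := by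
  obtain ⟨a, b, ha, hb, hab, ε, hε, hmain⟩ := Pool.Agent.H51.main_nc
  have hd : ∀ p : ℕ × ℕ, Pool.Agent.H51.dlt p = (if p.1 = 0 ∧ p.2 = 0 then (1 : ℂ) else 0) := by
    intro p
    unfold Pool.Agent.H51.dlt
    by_cases h : p = 0
    · rw [if_pos h, if_pos]
      rw [h]
      exact ⟨rfl, rfl⟩
    · rw [if_neg h, if_neg]
      rintro ⟨h1, h2⟩
      exact h (Prod.ext h1 h2)
  refine ⟨fun m n => a (m, n), fun m n => b (m, n), ha, hb, fun m n => ?_, ε, hε, fun c N hc => ?_⟩
  · have h1 := hab (m, n)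
    rw [hd] at h1
    exact h1
  · have h1 := hmain (fun p => c p.1 p.2) N (fun p hp => hc p.1 p.2 hp)
    refine h1.trans (le_of_eq ?_)
    refine tsum_congr fun p => ?_
    rw [hd]
    rfl

end Pool.Agent.S05969
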