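import Pool.Statements.S06085
import Pool.Agent.H17.WH.Main
import Pool.Agent.H41.LurTransfer

set_option autoImplicit false
open Filter Topology
open Pool Pool.MP_c645a0_an

namespace Pool.Agent.S06085

/-- For real Banach spaces X and Y, if X has an equivalent locally uniformly rotund norm and X and Y are homeomorphic in their weak topologies, then Y also has an equivalent locally uniformly rotund norm. -/
theorem result :
    ∀ (X Y : Type) [NormedAddCommGroup X] [NormedSpace ℝ X] [CompleteSpace X]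
      [NormedAddCommGroup Y] [NormedSpace ℝ Y] [CompleteSpace Y],
      (∃ N : X → ℝ, (∀ x y : X, N (x + y) ≤ N x + N y) ∧
        (∀ (c : ℝ) (x : X), N (c • x) = |c| * N x) ∧
        (∃ a b : ℝ, 0 < a ∧ 0 < b ∧ ∀ x : X, a * ‖x‖ ≤ N x ∧ N x ≤ b * ‖x‖) ∧
        ∀ (x : X) (u : ℕ → X),
          Tendsto (fun n : ℕ => 2 * N x ^ 2 + 2 * N (u n) ^ 2 - N (x + u n) ^ 2) atTop (𝓝 0) →
          Tendsto (fun n : ℕ => N (u n - x)) atTop (𝓝 0)) →
      Nonempty (WeakSpace ℝ X ≃ₜ WeakSpace ℝ Y) →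
      (∃ N : Y → ℝ, (∀ x y : Y, N (x + y) ≤ N x + N y) ∧
        (∀ (c : ℝ) (x : Y), N (c • x) = |c| * N x) ∧
        (∃ a b : ℝ, 0 < a ∧ 0 < b ∧ ∀ x : Y, a * ‖x‖ ≤ N x ∧ N x ≤ b * ‖x‖) ∧
        ∀ (x : Y) (u : ℕ → Y),
          Tendsto (fun n : ℕ => 2 * N x ^ 2 + 2 * N (u n) ^ 2 - N (x + u n) ^ 2) atTop (𝓝 0) →
          Tendsto (fun n : ℕ => N (u n - x)) atTop (𝓝 0)) := by
  intro X Y _ _ _ _ _ _ hX hhomeo
  obtain ⟨e⟩ := hhomeo
  obtain ⟨k, B, N, C, hN⟩ := Pool.Agent.H17.WH.embed_of_homeo e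
  have h := Pool.Agent.H41.LurTransfer.lur_of_subspace (Pool.Agent.H17.WH.perp B)
    (fun i : Fin B.card => ((B.equivFin.symm i : B) : Y →L[ℝ] ℝ)) (by
      intro y hy l hl
      have h1 := hy (B.equivFin ⟨l, hl⟩)
      simpa using h1) N C hN hX
  exact h

end Pool.Agent.S06085
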