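import Pool.Statements.S06716
import Pool.Agent.H94.SF.Top

set_option autoImplicit false
open Filter Topology
open Pool Pool.MP_f4af34_an

namespace Pool.Agent.S06716

/-- The negation of the preceding statement: Take a bounded connected C² domain in 3-space whose boundary is homeomorphic to a sphere. If u solves Δu + k²u = 0 inside (k > 0), with u tending to a nonzero constant and ∇u tending to 0 at the boundary, then the domain is a ball. -/
theorem result :
    ¬ (∀ (D : Set (EuclideanSpace ℝ (Fin 3))) (φ : EuclideanSpace ℝ (Fin 3) → ℝ),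
      Bornology.IsBounded D → IsConnected D → ContDiff ℝ 2 φ →
      D = {x | φ x < 0} →
      (∀ x, φ x = 0 → fderiv ℝ φ x ≠ 0) →
      Nonempty (frontier D ≃ₜ Metric.sphere (0 : EuclideanSpace ℝ (Fin 3)) 1) →
      ∀ (k c : ℝ) (u : EuclideanSpace ℝ (Fin 3) → ℝ),
        0 < k → c ≠ 0 → ContDiffOn ℝ 2 u D →
        (∀ x ∈ D, (∑ i : Fin 3, fderiv ℝ (fderiv ℝ u) x (EuclideanSpace.single i (1 : ℝ))
            (EuclideanSpace.single i (1 : ℝ))) + k ^ 2 * u x = 0) →
        (∀ x ∈ frontier D, Tendsto u (𝓝[D] x) (𝓝 c) ∧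
            Tendsto (fderiv ℝ u) (𝓝[D] x) (𝓝 0)) →
        ∃ (z : EuclideanSpace ℝ (Fin 3)) (r : ℝ), D = Metric.ball z r) := by
  exact SF.main

end Pool.Agent.S06716
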