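import Pool.Statements.S07468
import Pool.Agent.H6.LV.Final

set_option autoImplicit false
open Pool Pool.MP_1c61d1_co

namespace Pool.Agent.S07468

/-- The negation of the preceding statement: Every simple oriented matroid on a finite set, given by covector axioms, has a tope whose faces, ordered by conformal containment, form a Boolean lattice, i.e. a simplicial tope (region). -/
theorem result :
    ¬ (∀ (n : ℕ) (L : Set (Fin n → SignType)),
    (0 : Fin n → SignType) ∈ L →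
    (∀ X ∈ L, -X ∈ L) →
    (∀ X ∈ L, ∀ Y ∈ L, (fun e => if X e = 0 then Y e else X e) ∈ L) →
    (∀ X ∈ L, ∀ Y ∈ L, ∀ e : Fin n, X e ≠ 0 → Y e = -X e →
      ∃ Z ∈ L, Z e = 0 ∧ ∀ f : Fin n, ¬ (X f ≠ 0 ∧ Y f = -X f) →
        Z f = (if X f = 0 then Y f else X f)) →
    (∀ e : Fin n, ∃ X ∈ L, X e ≠ 0) →
    (∀ e f : Fin n, e ≠ f → (∃ X ∈ L, X e ≠ X f) ∧ (∃ X ∈ L, X e ≠ -X f)) →
    ∃ T ∈ L, (∀ e, T e ≠ 0) ∧ ∃ k : ℕ, ∃ g : (Fin n → SignType) → Finset (Fin k),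
      Set.BijOn g {X | X ∈ L ∧ ∀ e, X e = 0 ∨ X e = T e} Set.univ ∧
      ∀ X ∈ L, ∀ Y ∈ L, (∀ e, X e = 0 ∨ X e = T e) → (∀ e, Y e = 0 ∨ Y e = T e) →
        ((∀ e, X e = 0 ∨ X e = Y e) ↔ g X ⊆ g Y)) := by
  intro H
  have hOM := Pool.Agent.H6.LV.isOM_L25
  obtain ⟨T, hT, hT0, hB⟩ := H 25 Pool.Agent.H6.LV.L25 hOM.zero hOM.neg hOM.cmp hOM.elim
    (by
      intro e
      have hne : ∃ f : Fin 25, e ≠ f := by
        revert e
        decide
      obtain ⟨f, hf⟩ := hne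
      obtain ⟨X, hX, h1, _⟩ := Pool.Agent.H6.LV.exists_tope25 e f hf true true
      refine ⟨X, hX, ?_⟩
      rw [h1]
      decide)
    (by
      intro e f hef
      refine ⟨?_, ?_⟩
      · obtain ⟨X, hX, h1, h2⟩ := Pool.Agent.H6.LV.exists_tope25 e f hef true false
        refine ⟨X, hX, ?_⟩
        rw [h1, h2]
        decide
      · obtain ⟨X, hX, h1, h2⟩ := Pool.Agent.H6.LV.exists_tope25 e f hef true true
        refine ⟨X, hX, ?_⟩
        rw [h1, h2]
        decide)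
  exact Pool.Agent.H6.LV.not_boolean_L25 hT hT0 hB

end Pool.Agent.S07468
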