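import Pool.Statements.S07538

set_option autoImplicit false
open Pool Pool.MP_1e81c0_co

/-!
A counterexample with three arc sets on 42 vertices.

Put the eight places 0, ..., 7 on a circle.  From place `a` the arcs with label `i` go to the next
`hop i a` places.  Replace the places 0, 1, 2, 3, 4, 5, 6, 7 by 12, 2, 4, 8, 0, 3, 6, 7 vertices
(independent sets).  The maps `a ↦ a + hop i a` are monotone on the circle, so the places reached
from `a` by rainbow paths are the next `far a` ones, where `far a ≤ 7` (no rainbow cycle); and the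
sum of the three out-degrees is one more than the number of the vertices reached, at every vertex.
-/

namespace Pool.Agent.S07538

/-- Number of the next places to which there are arcs with label `i` from place `a`. -/
def hop (i : Fin 3) (a : Fin 8) : ℕ :=
  match i with
  | 0 => ![6, 5, 4, 4, 3, 2, 2, 3] a
  | 1 => ![1, 1, 0, 2, 1, 1, 0, 0] a
  | 2 => ![2, 1, 1, 4, 3, 2, 1, 3] a

/-- Number of the next places which rainbow paths from place `a` can reach. -/
def far (a : Fin 8) : ℕ := ![7, 6, 5, 7, 6, 5, 4, 7] a

/-- Arc with label `i` between places. -/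
def arc (i : Fin 3) (a b : Fin 8) : Prop := a ≠ b ∧ (b - a).val ≤ hop i a

instance (i : Fin 3) (a b : Fin 8) : Decidable (arc i a b) := by unfold arc; infer_instance

/-- The place `b` is one of the next `far a` places after `a`. -/
def rch (a b : Fin 8) : Prop := a ≠ b ∧ (b - a).val ≤ far a

instance (a b : Fin 8) : Decidable (rch a b) := by unfold rch; infer_instance

/-- The place of a vertex. -/
def plc (v : Fin 42) : Fin 8 :=
  if v.val < 12 then 0 else if v.val < 14 then 1 else if v.val < 18 then 2
  else if v.val < 26 then 3 else if v.val < 29 then 5 else if v.val < 35 then 6 else 7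

lemma one_step : ∀ i : Fin 3, ∀ a b : Fin 8, arc i a b → rch a b := by
  decide +kernel

lemma two_step : ∀ i j : Fin 3, i ≠ j → ∀ a b : Fin 8, arc i a b → ∀ c : Fin 8, arc j b c →
    rch a c := by
  decide +kernel

lemma three_step : ∀ i j l : Fin 3, i ≠ j → i ≠ l → j ≠ l → ∀ a b : Fin 8, arc i a b →
    ∀ c : Fin 8, arc j b c → ∀ d : Fin 8, arc l c d → rch a d := by
  decide +kernel

lemma count : ∀ v : Fin 42,
    (Finset.univ.filter (fun w : Fin 42 => rch (plc v) (plc w))).card <
      ∑ i : Fin 3, (Finset.univ.filter (fun w : Fin 42 => arc i (plc v) (plc w))).card := by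
  decide +kernel

lemma ncard_arc (i : Fin 3) (v : Fin 42) :
    Set.ncard {w : Fin 42 | arc i (plc v) (plc w)} =
      (Finset.univ.filter (fun w : Fin 42 => arc i (plc v) (plc w))).card := by
  rw [← Set.ncard_coe_finset]
  congr 1
  ext w
  simp

/-- The negation of the preceding statement: For loopless arc sets E_1..E_k on a finite nonempty vertex set, either some directed cycle has its arcs labelled by distinct indices, or some vertex v has at least Σ_i outdeg_{E_i}(v) other vertices reachable from v by such a rainbow path. -/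
theorem result :
    ¬ (∀ (V : Type) [Fintype V] [Nonempty V] (k : ℕ) (E : Fin k → V → V → Prop),
      (∀ i v, ¬ E i v v) →
      (∃ m ≥ 2, ∃ x : Fin m → V, Function.Injective x ∧
          ∃ ℓ : Fin m → Fin k, Function.Injective ℓ ∧
            ∀ j : Fin m, E (ℓ j) (x j) (x (finRotate m j))) ∨
      (∃ v : V,
        ∑ i : Fin k, Set.ncard {w : V | E i v w} ≤
          Set.ncard {w : V | w ≠ v ∧ ∃ m : ℕ, ∃ x : Fin (m + 2) → V,
            Function.Injective x ∧ x 0 = v ∧ x (Fin.last (m + 1)) = w ∧
            ∃ ℓ : Fin (m + 1) → Fin k, Function.Injective ℓ ∧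
              ∀ j : Fin (m + 1), E (ℓ j) (x j.castSucc) (x j.succ)})) := by
  intro H
  rcases H (Fin 42) 3 (fun i v w => arc i (plc v) (plc w)) (fun i v h => h.1 rfl) with
    ⟨m, hm, x, -, l, hl, hE⟩ | ⟨v, hv⟩
  · have hm3 : m ≤ 3 := by simpa using Fintype.card_le_of_injective l hl
    interval_cases m
    · have h0 : arc (l 0) (plc (x 0)) (plc (x 1)) := hE 0
      have h1 : arc (l 1) (plc (x 1)) (plc (x 0)) := hE 1
      exact (two_step (l 0) (l 1) (fun h => absurd (hl h) (by decide)) _ _ h0 _ h1).1 rfl
    · have h0 : arc (l 0) (plc (x 0)) (plc (x 1)) := hE 0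
      have h1 : arc (l 1) (plc (x 1)) (plc (x 2)) := hE 1
      have h2 : arc (l 2) (plc (x 2)) (plc (x 0)) := hE 2
      exact (three_step (l 0) (l 1) (l 2) (fun h => absurd (hl h) (by decide))
        (fun h => absurd (hl h) (by decide)) (fun h => absurd (hl h) (by decide))
        _ _ h0 _ h1 _ h2).1 rfl
  · have hsub : {w : Fin 42 | w ≠ v ∧ ∃ m : ℕ, ∃ x : Fin (m + 2) → Fin 42,
        Function.Injective x ∧ x 0 = v ∧ x (Fin.last (m + 1)) = w ∧
        ∃ l : Fin (m + 1) → Fin 3, Function.Injective l ∧
          ∀ j : Fin (m + 1), arc (l j) (plc (x j.castSucc)) (plc (x j.succ))} ⊆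
        ((Finset.univ.filter (fun w : Fin 42 => rch (plc v) (plc w)) : Finset (Fin 42)) :
          Set (Fin 42)) := by
      rintro w ⟨-, m, x, -, hx0, hxl, l, hl, hE⟩
      have hm3 : m + 1 ≤ 3 := by simpa using Fintype.card_le_of_injective l hl
      have hm2 : m ≤ 2 := by omega
      simp only [Finset.coe_filter, Finset.mem_univ, true_and, Set.mem_ofPred_eq]
      subst hx0
      subst hxl
      interval_cases m
      · exact one_step (l 0) _ _ (hE 0)
      · have h0 : arc (l 0) (plc (x 0)) (plc (x 1)) := hE 0
        have h1 : arc (l 1) (plc (x 1)) (plc (x 2)) := hE 1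
        exact two_step (l 0) (l 1) (fun h => absurd (hl h) (by decide)) _ _ h0 _ h1
      · have h0 : arc (l 0) (plc (x 0)) (plc (x 1)) := hE 0
        have h1 : arc (l 1) (plc (x 1)) (plc (x 2)) := hE 1
        have h2 : arc (l 2) (plc (x 2)) (plc (x 3)) := hE 2
        exact three_step (l 0) (l 1) (l 2) (fun h => absurd (hl h) (by decide))
          (fun h => absurd (hl h) (by decide)) (fun h => absurd (hl h) (by decide))
          _ _ h0 _ h1 _ h2
    have h1 := Set.ncard_le_ncard hsub (Finset.finite_toSet _)
    rw [Set.ncard_coe_finset] at h1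
    have h2 := count v
    have h3 : ∑ i : Fin 3, Set.ncard {w : Fin 42 | arc i (plc v) (plc w)} =
        ∑ i : Fin 3, (Finset.univ.filter (fun w : Fin 42 => arc i (plc v) (plc w))).card :=
      Finset.sum_congr rfl (fun i _ => ncard_arc i v)
    have h4 := le_trans hv h1
    rw [h3] at h4
    omega

end Pool.Agent.S07538
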