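import Pool.Statements.S07774
import Pool.Agent.H82.PaleyMain

set_option autoImplicit false
open Pool Pool.MP_28de5a_co

namespace Pool.Agent.S07774

/-- The negation of the preceding statement: For d ≥ 2, a real L is approached by (size of a maximal clique of GP(q^d,d))/q for arbitrarily large odd prime powers q ≡ 1 mod d iff L = 0 or L = 1/m with every prime factor of m dividing d. -/
theorem result :
    ¬ (∀ d : ℕ, 2 ≤ d → ∀ L : ℝ,
      ((∀ ε : ℝ, 0 < ε → ∀ N : ℕ, ∃ q : ℕ, N ≤ q ∧ IsPrimePow q ∧ Odd q ∧ q % d = 1 ∧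
          ∃ (F : Type) (_ : Field F) (_ : Fintype F), Fintype.card F = q ^ d ∧
            ∃ s : Finset F,
              (SimpleGraph.fromRel (fun x y : F => ∃ z : F, z ^ d = x - y)).IsClique (s : Set F) ∧
              (∀ t : Finset F,
                (SimpleGraph.fromRel (fun x y : F => ∃ z : F, z ^ d = x - y)).IsClique (t : Set F) →
                  s ⊆ t → t = s) ∧
              |(s.card : ℝ) / (q : ℝ) - L| < ε)
        ↔ (L = 0 ∨ ∃ m : ℕ, 0 < m ∧ m.primeFactors ⊆ d.primeFactors ∧ L = 1 / (m : ℝ)))) := by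
  intro h
  have h3 := h 3 (by norm_num)
  -- a prime for every n
  have hprime : ∀ n : ℕ, ∃ p : ℕ, n ≤ p ∧ 100 ≤ p ∧ p.Prime ∧ p % 3 = 2 := by
    intro n
    have hu : IsUnit ((2 : ℕ) : ZMod 3) := by
      rw [ZMod.isUnit_iff_coprime]
      norm_num
    obtain ⟨p, hpn, hpp, hp⟩ := Nat.forall_exists_prime_gt_and_eq_mod hu (max n 100)
    refine ⟨p, by omega, by omega, hpp, ?_⟩
    have h4 := (ZMod.natCast_eq_natCast_iff p 2 3).mp hp
    have h5 : p % 3 = 2 % 3 := h4
    omega
  choose P hPn hP100 hPp hP3 using hprime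
  have hcl : ∀ n : ℕ, ∃ (F : Type) (_ : Field F) (_ : Fintype F), Fintype.card F = ((P n) ^ 2) ^ 3 ∧
      ∃ s : Finset F,
        (SimpleGraph.fromRel (fun x y : F => ∃ z : F, z ^ 3 = x - y)).IsClique (s : Set F) ∧
        (∀ t : Finset F,
          (SimpleGraph.fromRel (fun x y : F => ∃ z : F, z ^ 3 = x - y)).IsClique (t : Set F) →
            s ⊆ t → t = s) ∧
        13 * (P n) ^ 2 ≤ s.card ∧ s.card ≤ 53 * (P n) ^ 2 := by
    intro n
    haveI : Fact (P n).Prime := ⟨hPp n⟩
    letI : Fintype (GaloisField (P n) 6) := Fintype.ofFinite _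
    have hc : Fintype.card (GaloisField (P n) 6) = ((P n) ^ 3) ^ 2 := by
      rw [← Nat.card_eq_fintype_card, GaloisField.card (P n) 6 (by norm_num)]
      ring
    obtain ⟨M, hM1, hM2, hM3, hM4⟩ :=
      Pool.Agent.H82.Paley.exists_clique (F := GaloisField (P n) 6) (P n) hc (hP3 n) (hP100 n)
    refine ⟨GaloisField (P n) 6, inferInstance, inferInstance, ?_, M, hM1, hM2, hM3, hM4⟩
    rw [hc]
    ring
  choose F instF instFF hcard s hs1 hs2 hs3 hs4 using hcl
  set r : ℕ → ℝ := fun n => ((s n).card : ℝ) / (((P n) ^ 2 : ℕ) : ℝ) with hr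
  have hpos : ∀ n, (0 : ℝ) < (((P n) ^ 2 : ℕ) : ℝ) := by
    intro n
    have h6 : 0 < (P n) ^ 2 := pow_pos (hPp n).pos 2
    exact_mod_cast h6
  have hrmem : ∀ n, r n ∈ Set.Icc (13 : ℝ) 53 := by
    intro n
    constructor
    · rw [hr, le_div_iff₀ (hpos n)]
      exact_mod_cast hs3 n
    · rw [hr, div_le_iff₀ (hpos n)]
      exact_mod_cast hs4 n
  obtain ⟨L, hL, φ, hφ, hlim⟩ := (isCompact_Icc).tendsto_subseq hrmem
  have hL3 := (h3 L).1 ?_
  · rcases hL3 with h0 | ⟨m, hm, _, hm2⟩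
    · have := hL.1
      rw [h0] at this
      norm_num at this
    · have h7 := hL.1
      have h8 : (1 : ℝ) / (m : ℝ) ≤ 1 := by
        rw [div_le_one (by exact_mod_cast hm)]
        exact_mod_cast hm
      rw [hm2] at h7
      linarith
  · intro ε hε N
    rw [Metric.tendsto_atTop] at hlim
    obtain ⟨n₀, hn₀⟩ := hlim ε hε
    set n := max n₀ N with hn
    have h9 := hn₀ n (le_max_left _ _)
    have h10 : n ≤ φ n := hφ.id_le n
    set k := φ n with hk
    refine ⟨(P k) ^ 2, ?_, ?_, ?_, ?_, F k, instF k, instFF k, hcard k, s k, hs1 k, hs2 k, ?_⟩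
    · have h11 : N ≤ n := le_max_right _ _
      have h12 := hPn k
      have h13 : P k ≤ (P k) ^ 2 := Nat.le_self_pow (by norm_num) _
      omega
    · exact (hPp k).isPrimePow.pow (by norm_num)
    · refine Odd.pow ((hPp k).odd_of_ne_two ?_)
      have := hP100 k
      omega
    · rw [Nat.pow_mod, hP3 k]
    · rw [Real.dist_eq] at h9
      exact h9

end Pool.Agent.S07774
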