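import Pool.Statements.S08241
import Pool.Agent.H97.VZ.Final
import Pool.Agent.H41.VH.FinH
import Pool.Agent.H95.FD.Main

set_option autoImplicit false
open Pool Pool.MP_3ce63d_co

namespace Pool.Agent.S08241

/-- Among matroids on {1..n}, and among isomorphism classes of n-element matroids, the fraction having a minor isomorphic to the Vámos matroid V8 tends to 1 as n grows. -/
theorem result :
    ∀ V : (n : ℕ) → Matroid (Fin n) → Prop,
      (∀ (n : ℕ) (M : Matroid (Fin n)), V n M ↔
        ∃ C D : Set (Fin n), ∃ φ : Fin 8 → Fin n, Function.Injective φ ∧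
          Set.range φ = ((M.contract C).delete D).E ∧
          ∀ I : Finset (Fin 8),
            (((M.contract C).delete D).Indep (φ '' (I : Set (Fin 8))) ↔
              (I.card ≤ 3 ∨
                (I.card = 4 ∧ I ≠ ({0, 1, 2, 3} : Finset (Fin 8)) ∧
                  I ≠ ({0, 1, 4, 5} : Finset (Fin 8)) ∧
                  I ≠ ({0, 1, 6, 7} : Finset (Fin 8)) ∧
                  I ≠ ({2, 3, 4, 5} : Finset (Fin 8)) ∧
                  I ≠ ({2, 3, 6, 7} : Finset (Fin 8)))))) →
      Filter.Tendsto
        (fun n : ℕ =>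
          (Nat.card {M : Matroid (Fin n) // M.E = Set.univ ∧ V n M} : ℝ) /
            (Nat.card {M : Matroid (Fin n) // M.E = Set.univ} : ℝ))
        Filter.atTop (nhds 1) ∧
      Filter.Tendsto
        (fun n : ℕ =>
          (Nat.card {S : Set (Matroid (Fin n)) // ∃ M : Matroid (Fin n),
              M.E = Set.univ ∧ V n M ∧
              S = {N : Matroid (Fin n) | N.E = Set.univ ∧
                ∃ e : Equiv.Perm (Fin n), ∀ I : Set (Fin n), M.Indep I ↔ N.Indep (e '' I)}} : ℝ) /
            (Nat.card {S : Set (Matroid (Fin n)) // ∃ M : Matroid (Fin n),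
              M.E = Set.univ ∧
              S = {N : Matroid (Fin n) | N.E = Set.univ ∧
                ∃ e : Equiv.Perm (Fin n), ∀ I : Set (Fin n), M.Indep I ↔ N.Indep (e '' I)}} : ℝ))
        Filter.atTop (nhds 1) := by
  exact Pool.Agent.H97.VZ.frozen Pool.Agent.H41.VH.C1_holds Pool.Agent.H95.FD.c2_holds

end Pool.Agent.S08241
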