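-- Proof of the negation: a 2-piercing family of fewer than 2^d pairwise disjoint proper boxes.
import Pool.Statements.S08592
import Pool.Agent.H30.Boxes.Final

set_option autoImplicit false
open Pool Pool.MP_4a756a_co

namespace Pool.Agent.S08592

/-- The negation of the preceding statement: For d≥1 and 2≤k≤n: if m pairwise disjoint boxes in [n]^d have every side a nonempty proper subset of [n], and every axis-parallel line meets at least k of them, then m is at least 2^d. -/
theorem result :
    ¬ (∀ (n d k m : ℕ), 1 ≤ d → 2 ≤ k → k ≤ n →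
      ∀ (S : Fin m → Fin d → Finset (Fin n)),
        (∀ j i, (S j i).Nonempty ∧ S j i ≠ Finset.univ) →
        (∀ j j', j ≠ j' → ∀ x : Fin d → Fin n,
          ¬ ((∀ l, x l ∈ S j l) ∧ (∀ l, x l ∈ S j' l))) →
        (∀ (i : Fin d) (x : Fin d → Fin n),
          k ≤ (Finset.univ.filter
            (fun j : Fin m => ∃ t : Fin n, ∀ l : Fin d, Function.update x i t l ∈ S j l)).card) →
        2 ^ d ≤ m) := by
  intro h
  apply Pool.Agent.H30.Boxes.not_conj
  intro n d k m h1 h2 h3 S h4 h5 h6
  apply h n d k m h1 h2 h3 S h4 h5
  intro i x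
  convert h6 i x

end Pool.Agent.S08592
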