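import Pool.Statements.S08629
import Pool.Agent.H69.EF.Assembly
import Pool.Agent.H90.EF.Large
import Pool.Agent.H90.EF.NumThree

set_option autoImplicit false
open Pool Pool.MP_4c8542_co

namespace Pool.Agent.S08629

/-- For all positive n,k,d with d ≤ n, the largest family of subsets of an n-set where any k members (repeats allowed) have union of size at most d has size equal to the max over k·i ≤ d of 2^(d−ki) times the sum over j ≤ i of C(n−d+ki, j). -/
theorem result :
    ∀ n k d : ℕ, 0 < n → 0 < k → 0 < d → d ≤ n →
      IsGreatest
        {m : ℕ | ∃ A : Finset (Finset (Fin n)),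
          (∀ f : Fin k → Finset (Fin n), (∀ j, f j ∈ A) →
            (Finset.univ.biUnion f).card ≤ d) ∧ A.card = m}
        ((Finset.range (d / k + 1)).sup
          (fun i => 2 ^ (d - k * i) *
            ∑ j ∈ Finset.range (i + 1), (n - d + k * i).choose j)) := by
  intro n k d _ hk _ hdn
  exact Pool.Agent.H69.EF.erdos_frankl (fun t => Pool.Agent.H90.EF.num3 t)
    (fun k hk => Pool.Agent.H90.EF.fin_of_four_le hk) hk hdn

end Pool.Agent.S08629
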