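import Pool.Statements.S09436
import Pool.Agent.H62.Jump.Main
-- import your own Pool.Agent.* helpers here

set_option autoImplicit false
open N958755c5
open Filter Asymptotics
open Pool Pool.MP_713846_co

namespace Pool.Agent.S09436

/-- The negation of the preceding statement: ∀ r≥3, ∃ c > r^{-r}, ∀ ε>0, ∃ m:ℕ→ℕ with m→∞ such that eventually in n, every r-uniform H on Fin n with ∣H∣ ≥ (1+ε)(n/r)^r has S ⊆ Fin n, ∣S∣ = m n, with ∣H[S]∣ ≥ c·∣S∣^r -/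
theorem result :
    ¬ (∀ r : ℕ, 3 ≤ r → ∃ c : ℝ, (r : ℝ)⁻¹ ^ r < c ∧ ∀ ε : ℝ, 0 < ε → ∃ m : ℕ → ℕ, Tendsto m atTop atTop ∧ ∀ᶠ n : ℕ in atTop, ∀ H : Finset (Finset (Fin n)), H.IsUniform r → (1 + ε) * ((n : ℝ) / r) ^ r ≤ H.card → ∃ S : Finset (Fin n), S.card = m n ∧ c * (S.card : ℝ) ^ r ≤ (H.hypergraphInduce S).card) := by
  exact Pool.Agent.H62.Jump.main

end Pool.Agent.S09436
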