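import Pool.Statements.S09506
import Pool.Agent.H78.DP.Forest
import Pool.Agent.H78.DP.SeqC

set_option autoImplicit false
open Pool Pool.MP_741d9e_co

namespace Pool.Agent.S09506

/-- The negation of the preceding statement: For every finite colouring of the natural numbers there is a strictly increasing sequence of positive integers and one colour such that all differences a_m − a_n and all products a_n·a_m (n<m) get that colour. -/
theorem result :
    ¬ (∀ (k : ℕ) (c : ℕ → Fin k),
      ∃ (a : ℕ → ℕ) (i : Fin k),
        StrictMono a ∧ 0 < a 0 ∧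
        ∀ n m : ℕ, n < m → c (a m - a n) = i ∧ c (a n * a m) = i) := by
  intro h
  obtain ⟨χ, hχ⟩ := Pool.Agent.H78.DP.exists_colouring
  let e := Fintype.equivFin (Bool × Bool × ZMod 4 × ZMod 4 × Bool × Bool)
  obtain ⟨a, i, hmono, hpos, hc⟩ := h _ (fun z => e (Pool.Agent.H78.DP.col χ z))
  refine Pool.Agent.H78.DP.main χ hχ hmono hpos ?_
  intro n m n' m' h1 h2
  apply e.injective
  exact (hc n m h1).1.trans (hc n' m' h2).2.symm

end Pool.Agent.S09506
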