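import Pool.Statements.S09535
import Pool.Agent.H55.BalFinal

set_option autoImplicit false
open Pool Pool.MP_753ad3_co

namespace Pool.Agent.S09535

/-- For every colouring of the naturals with finitely many colours there are positive a,b,c,d such that all eight numbers (a op b) op (c op d), each op being + or ×, get the same colour. -/
theorem result :
    ∀ (k : ℕ) (χ : ℕ → Fin k), ∃ a b c d : ℕ, 0 < a ∧ 0 < b ∧ 0 < c ∧ 0 < d ∧
      χ ((a + b) + (c * d)) = χ ((a + b) + (c + d)) ∧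
      χ ((a * b) + (c + d)) = χ ((a + b) + (c + d)) ∧
      χ ((a * b) + (c * d)) = χ ((a + b) + (c + d)) ∧
      χ ((a + b) * (c + d)) = χ ((a + b) + (c + d)) ∧
      χ ((a + b) * (c * d)) = χ ((a + b) + (c + d)) ∧
      χ ((a * b) * (c + d)) = χ ((a + b) + (c + d)) ∧
      χ ((a * b) * (c * d)) = χ ((a + b) + (c + d)) := by
  intro k χ
  obtain ⟨T, a, b, c, d, ha, hb, hc, hd, h1, h2, h3, h4, h5, h6, h7, h8⟩ :=
    Pool.Agent.H55.Bal.balanced χ
  refine ⟨a, b, c, d, ha, hb, hc, hd, ?_, ?_, ?_, ?_, ?_, ?_, ?_⟩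
  · rw [h1, h2]
  · rw [h1, h3]
  · rw [h1, h4]
  · rw [h1, h5]
  · rw [h1, h6]
  · rw [h1, h7]
  · rw [h1, h8]

end Pool.Agent.S09535
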