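import Pool.Statements.S09540
-- import your own Pool.Agent.* helpers here

set_option autoImplicit false
open Finset
open Pool Pool.MP_75a6f0_co

namespace Pool.Agent.S09540

/-
The counterexample.  `k = 3` and `G` is the disjoint union of three 4-cycles (so `Δ(G) + 1 = 3`).
The twelve vertices are partitioned into four classes of size three,
  `X₁ = {0,1,8}`, `X₂ = {2,3,9}`, `X₃ = {4,5,10}`, `X₄ = {6,7,11}`,
and the 4-cycles are the complete bipartite graphs
  `{0,1}|{2,3}`, `{4,5}|{6,7}`, `{8,9}|{10,11}`.
(There is no independent set meeting every class: this is Jin's example for independent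
transversals and maximum degree two.)  A vertex in the `i`-th cycle and in the class `X_j` gets the
list `{i, p_j, q_j}`.  The colours `p_j`, `q_j` occur in exactly three lists, so a proportional
colouring uses each of them at most once; hence in every class some vertex gets the colour of its
cycle and these vertices would form an independent transversal.
-/

/-- adjacency as a Boolean function -/
def adjB (u v : Fin 12) : Bool :=
  let s : List (Fin 12 × Fin 12) :=
    [(0,2),(0,3),(1,2),(1,3),(4,6),(4,7),(5,6),(5,7),(8,10),(8,11),(9,10),(9,11)]
  s.contains (u, v) || s.contains (v, u)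

/-- three disjoint 4-cycles -/
def G12 : SimpleGraph (Fin 12) where
  Adj u v := adjB u v = true
  symm := ⟨by decide⟩
  loopless := ⟨by decide⟩

instance : DecidableRel G12.Adj := fun u v => inferInstanceAs (Decidable (adjB u v = true))

/-- the lists -/
def L12 : Fin 12 → Finset ℕ := ![{0,3,4},{0,3,4},{0,5,6},{0,5,6},{1,7,8},{1,7,8},{1,9,10},{1,9,10},
  {2,3,4},{2,5,6},{2,7,8},{2,9,10}]

lemma deg12 : G12.maxDegree + 1 ≤ 3 := by
  have : G12.maxDegree ≤ 2 := by
    apply SimpleGraph.maxDegree_le_of_forall_degree_le
    decide
  omega

lemma card12 : ∀ v, (L12 v).card = 3 := by decide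

/-- The negation of the preceding statement: Every finite graph with k at least max degree plus 1 has, for any lists of k colours per vertex, a proper list colouring in which each colour c is used floor or ceiling of (number of lists containing c)/k times. -/
theorem result :
    ¬ (∀ (V : Type) [Fintype V] [DecidableEq V] (G : SimpleGraph V) [DecidableRel G.Adj] (k : ℕ),
      G.maxDegree + 1 ≤ k →
      ∀ L : V → Finset ℕ, (∀ v, (L v).card = k) →
        ∃ f : V → ℕ, (∀ v, f v ∈ L v) ∧ (∀ u v, G.Adj u v → f u ≠ f v) ∧
          ∀ c : ℕ,
            (univ.filter (fun v => c ∈ L v)).card / k ≤ (univ.filter (fun v => f v = c)).card ∧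
            (univ.filter (fun v => f v = c)).card ≤
              ((univ.filter (fun v => c ∈ L v)).card + k - 1) / k) := by
  intro h
  obtain ⟨f, hL, hadj, hc⟩ := h (Fin 12) G12 3 deg12 L12 card12
  -- each of the colours 3, …, 10 is used at most once
  have hone : ∀ c : ℕ, (univ.filter (fun v => c ∈ L12 v)).card = 3 →
      ∀ u v : Fin 12, f u = c → f v = c → u = v := by
    intro c h3 u v hu hv
    have h1 := (hc c).2
    rw [h3] at h1
    have h2 : (univ.filter (fun v => f v = c)).card ≤ 1 := le_trans h1 (by norm_num)
    exact Finset.card_le_one.mp h2 u (by simp [hu]) v (by simp [hv])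
  -- a class whose three vertices share two colours that are used at most once
  have hcls : ∀ (p q a a' a'' : ℕ) (u v w : Fin 12),
      (univ.filter (fun v => p ∈ L12 v)).card = 3 →
      (univ.filter (fun v => q ∈ L12 v)).card = 3 →
      L12 u = {a, p, q} → L12 v = {a', p, q} → L12 w = {a'', p, q} →
      u ≠ v → u ≠ w → v ≠ w → f u = a ∨ f v = a' ∨ f w = a'' := by
    intro p q a a' a'' u v w hp hq hu hv hw huv huw hvw
    have h1 := hL u
    have h2 := hL v
    have h3 := hL w
    rw [hu] at h1
    rw [hv] at h2
    rw [hw] at h3
    simp only [Finset.mem_insert, Finset.mem_singleton] at h1 h2 h3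
    have op := hone p hp
    have oq := hone q hq
    rcases h1 with h1 | h1 | h1
    · exact Or.inl h1
    all_goals
      rcases h2 with h2 | h2 | h2
      · exact Or.inr (Or.inl h2)
      all_goals
        rcases h3 with h3 | h3 | h3
        · exact Or.inr (Or.inr h3)
        all_goals
          first
          | exact absurd (op u v h1 h2) huv
          | exact absurd (op u w h1 h3) huw
          | exact absurd (op v w h2 h3) hvw
          | exact absurd (oq u v h1 h2) huv
          | exact absurd (oq u w h1 h3) huw
          | exact absurd (oq v w h2 h3) hvw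
  have c1 := hcls 3 4 0 0 2 0 1 8 (by decide) (by decide) (by decide) (by decide) (by decide)
    (by decide) (by decide) (by decide)
  have c2 := hcls 5 6 0 0 2 2 3 9 (by decide) (by decide) (by decide) (by decide) (by decide)
    (by decide) (by decide) (by decide)
  have c3 := hcls 7 8 1 1 2 4 5 10 (by decide) (by decide) (by decide) (by decide) (by decide)
    (by decide) (by decide) (by decide)
  have c4 := hcls 9 10 1 1 2 6 7 11 (by decide) (by decide) (by decide) (by decide) (by decide)
    (by decide) (by decide) (by decide)
  have key : ∀ u v : Fin 12, adjB u v = true → f u ≠ f v := fun u v huv => hadj u v huv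
  have e02 := key 0 2 (by decide)
  have e03 := key 0 3 (by decide)
  have e12 := key 1 2 (by decide)
  have e13 := key 1 3 (by decide)
  have e46 := key 4 6 (by decide)
  have e47 := key 4 7 (by decide)
  have e56 := key 5 6 (by decide)
  have e57 := key 5 7 (by decide)
  have e810 := key 8 10 (by decide)
  have e811 := key 8 11 (by decide)
  have e910 := key 9 10 (by decide)
  have e911 := key 9 11 (by decide)
  have l1 : f 8 = 2 ∨ f 9 = 2 := by
    rcases c1 with h1 | h1 | h1
    · rcases c2 with h2 | h2 | h2
      · exact absurd (h1.trans h2.symm) e02
      · exact absurd (h1.trans h2.symm) e03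
      · exact Or.inr h2
    · rcases c2 with h2 | h2 | h2
      · exact absurd (h1.trans h2.symm) e12
      · exact absurd (h1.trans h2.symm) e13
      · exact Or.inr h2
    · exact Or.inl h1
  have l2 : f 10 = 2 ∨ f 11 = 2 := by
    rcases c3 with h1 | h1 | h1
    · rcases c4 with h2 | h2 | h2
      · exact absurd (h1.trans h2.symm) e46
      · exact absurd (h1.trans h2.symm) e47
      · exact Or.inr h2
    · rcases c4 with h2 | h2 | h2
      · exact absurd (h1.trans h2.symm) e56
      · exact absurd (h1.trans h2.symm) e57
      · exact Or.inr h2
    · exact Or.inl h1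
  rcases l1 with h1 | h1 <;> rcases l2 with h2 | h2
  · exact e810 (h1.trans h2.symm)
  · exact e811 (h1.trans h2.symm)
  · exact e910 (h1.trans h2.symm)
  · exact e911 (h1.trans h2.symm)

end Pool.Agent.S09540
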