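import Pool.Statements.S09671
import Pool.Agent.H92.Lac6

set_option autoImplicit false
open Pool Pool.MP_7c2ef8_co

namespace Pool.Agent.S09671

/-- For every set K of positive integers with all ratios b/a (a<b in K) above some fixed 1+δ, some finite number of colors colors ℤ so that no progression with difference in K contains two adjacent identical blocks. -/
theorem result :
    ∀ K : Set ℕ, (∀ k ∈ K, 0 < k) →
      (∃ δ : ℝ, 0 < δ ∧ ∀ a ∈ K, ∀ b ∈ K, a < b → (1 + δ) * (a : ℝ) < (b : ℝ)) →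
      ∃ N : ℕ, ∃ c : ℤ → Fin N,
        ∀ k ∈ K, ∀ a : ℤ, ∀ n : ℕ, 0 < n →
          ∃ i : ℕ, i < n ∧
            c (a + (i : ℤ) * (k : ℤ)) ≠ c (a + ((n : ℤ) + (i : ℤ)) * (k : ℤ)) := by
  intro K hpos hlac
  obtain ⟨δ, hδ, hK⟩ := hlac
  obtain ⟨θ, c, hc, hθ⟩ := Pool.Agent.H92.Lac.exists_theta K hpos δ hδ hK
  exact Pool.Agent.H92.Lac.coloring K θ c hc hθ

end Pool.Agent.S09671
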