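import Pool.Statements.S10196

set_option autoImplicit false
open Pool Pool.MP_93ee52_co

namespace Pool.Agent.S10196

/-- Adjacency of the circulant graph on `Fin 13` with connection set `{1, 5, 8, 12}`. -/
def adj13 (a b : Fin 13) : Bool :=
  (b - a == 1) || (b - a == 5) || (b - a == 8) || (b - a == 12)

lemma adj13_symm : ∀ a b : Fin 13, adj13 a b = true → adj13 b a = true := by decide

lemma adj13_irrefl : ∀ a : Fin 13, adj13 a a = false := by decide

lemma adj13_triangle : ∀ a b c : Fin 13,
    adj13 a b = true → adj13 b c = true → adj13 a c = true → False := by decide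

lemma adj13_nbr : ∀ a : Fin 13,
    adj13 a (a + 1) = true ∧ adj13 a (a + 5) = true ∧ adj13 a (a + 8) = true := by decide

/-- The 39 maximal independent sets of the circulant graph, as Boolean predicates: the translates of
`{0, 2, 4, 6}`, `{0, 2, 6, 9}` and `{0, 3, 6, 9}`. -/
def base (k : Fin 3) (x : Fin 13) : Bool :=
  match k with
  | 0 => (x == 0) || (x == 2) || (x == 4) || (x == 6)
  | 1 => (x == 0) || (x == 2) || (x == 6) || (x == 9)
  | 2 => (x == 0) || (x == 3) || (x == 6) || (x == 9)

/-- The translate of a base set by `t`. -/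
def mset (p : Fin 3 × Fin 13) (x : Fin 13) : Bool := base p.1 (x - p.2)

lemma base_indep : ∀ k : Fin 3, ∀ x y : Fin 13,
    base k x = true → base k y = true → adj13 x y = false := by decide

lemma base_max : ∀ k : Fin 3, ∀ x : Fin 13,
    base k x = true ∨ ∃ y : Fin 13, base k y = true ∧ adj13 x y = true := by decide

lemma mset_indep (p : Fin 3 × Fin 13) (x y : Fin 13)
    (hx : mset p x = true) (hy : mset p y = true) : adj13 x y = false := by
  have h := base_indep p.1 (x - p.2) (y - p.2) hx hy
  unfold adj13 at h ⊢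
  have e : (y - p.2) - (x - p.2) = y - x := by
    abel
  rwa [e] at h

lemma mset_max (p : Fin 3 × Fin 13) (x : Fin 13) :
    mset p x = true ∨ ∃ y : Fin 13, mset p y = true ∧ adj13 x y = true := by
  rcases base_max p.1 (x - p.2) with h | ⟨y, hy, ha⟩
  · exact Or.inl h
  · refine Or.inr ⟨y + p.2, ?_, ?_⟩
    · unfold mset
      have e : y + p.2 - p.2 = y := by abel
      rwa [e]
    · unfold adj13 at ha ⊢
      have e : y - (x - p.2) = y + p.2 - x := by abel
      rwa [e] at ha

lemma mset_inj : ∀ p q : Fin 3 × Fin 13, (∀ x, mset p x = mset q x) → p = q := by decide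

/-- The graph: ten disjoint copies of the circulant graph, on `Fin 130`. -/
def G : SimpleGraph (Fin (10 * 13)) where
  Adj u v := (finProdFinEquiv.symm u : Fin 10 × Fin 13).1 = (finProdFinEquiv.symm v : Fin 10 × Fin 13).1 ∧
    adj13 (finProdFinEquiv.symm u : Fin 10 × Fin 13).2 (finProdFinEquiv.symm v : Fin 10 × Fin 13).2 = true
  symm := ⟨fun _ _ h => ⟨h.1.symm, adj13_symm _ _ h.2⟩⟩
  loopless := ⟨fun _ h => by
    have := h.2
    rw [adj13_irrefl] at this
    exact Bool.noConfusion this⟩

instance : DecidableRel G.Adj := fun _ _ => inferInstanceAs (Decidable (_ ∧ _))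

lemma G_adj (u v : Fin (10 * 13)) : G.Adj u v ↔
    (finProdFinEquiv.symm u : Fin 10 × Fin 13).1 = (finProdFinEquiv.symm v : Fin 10 × Fin 13).1 ∧
    adj13 (finProdFinEquiv.symm u : Fin 10 × Fin 13).2 (finProdFinEquiv.symm v : Fin 10 × Fin 13).2 = true :=
  Iff.rfl

lemma G_cliqueFree : G.CliqueFree 3 := by
  intro s hs
  rw [SimpleGraph.is3Clique_iff] at hs
  obtain ⟨a, b, c, hab, hac, hbc, -⟩ := hs
  exact adj13_triangle _ _ _ hab.2 hbc.2 hac.2

lemma G_degree (v : Fin (10 * 13)) : 3 ≤ G.degree v := by
  classical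
  obtain ⟨⟨i, a⟩, rfl⟩ := (finProdFinEquiv (m := 10) (n := 13)).surjective v
  have hsub : ({finProdFinEquiv (i, a + 1), finProdFinEquiv (i, a + 5),
      finProdFinEquiv (i, a + 8)} : Finset (Fin (10 * 13))) ⊆
      G.neighborFinset (finProdFinEquiv (i, a)) := by
    intro w hw
    rw [SimpleGraph.mem_neighborFinset, G_adj]
    simp only [Finset.mem_insert, Finset.mem_singleton] at hw
    have hn := adj13_nbr a
    rcases hw with rfl | rfl | rfl
    · simpa using hn.1
    · simpa using hn.2.1
    · simpa using hn.2.2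
  have hcard : ({finProdFinEquiv (i, a + 1), finProdFinEquiv (i, a + 5),
      finProdFinEquiv (i, a + 8)} : Finset (Fin (10 * 13))).card = 3 := by
    have h1 : ∀ a : Fin 13, a + 1 ≠ a + 5 ∧ a + 1 ≠ a + 8 ∧ a + 5 ≠ a + 8 := by decide
    have h := h1 a
    rw [Finset.card_eq_three]
    refine ⟨_, _, _, ?_, ?_, ?_, rfl⟩
    · intro hh
      exact h.1 (congrArg Prod.snd (finProdFinEquiv.injective hh))
    · intro hh
      exact h.2.1 (congrArg Prod.snd (finProdFinEquiv.injective hh))
    · intro hh
      exact h.2.2 (congrArg Prod.snd (finProdFinEquiv.injective hh))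
  calc 3 = _ := hcard.symm
    _ ≤ _ := Finset.card_le_card hsub
    _ = G.degree _ := G.card_neighborFinset_eq_degree _

/-- The maximal independent set of `G` built from a choice of a maximal independent set in each
copy. -/
def S (f : Fin 10 → Fin 3 × Fin 13) : Set (Fin (10 * 13)) :=
  {v | mset (f (finProdFinEquiv.symm v : Fin 10 × Fin 13).1)
    (finProdFinEquiv.symm v : Fin 10 × Fin 13).2 = true}

lemma S_indep (f : Fin 10 → Fin 3 × Fin 13) : G.IsIndepSet (S f) := by
  intro u hu v hv _ hadj
  rw [G_adj] at hadj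
  have hu' : mset (f (finProdFinEquiv.symm u : Fin 10 × Fin 13).1)
    (finProdFinEquiv.symm u : Fin 10 × Fin 13).2 = true := hu
  have hv' : mset (f (finProdFinEquiv.symm v : Fin 10 × Fin 13).1)
    (finProdFinEquiv.symm v : Fin 10 × Fin 13).2 = true := hv
  rw [← hadj.1] at hv'
  have := mset_indep _ _ _ hu' hv'
  rw [this] at hadj
  exact Bool.noConfusion hadj.2

lemma S_maximal (f : Fin 10 → Fin 3 × Fin 13) : Maximal G.IsIndepSet (S f) := by
  refine ⟨S_indep f, ?_⟩
  intro T hT hST u hu
  rcases mset_max (f (finProdFinEquiv.symm u : Fin 10 × Fin 13).1)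
    (finProdFinEquiv.symm u : Fin 10 × Fin 13).2 with h | ⟨y, hy, ha⟩
  · exact h
  · exfalso
    have hw : finProdFinEquiv ((finProdFinEquiv.symm u : Fin 10 × Fin 13).1, y) ∈ S f := by
      show mset _ _ = true
      rw [Equiv.symm_apply_apply]
      exact hy
    have hadj : G.Adj u (finProdFinEquiv ((finProdFinEquiv.symm u : Fin 10 × Fin 13).1, y)) := by
      rw [G_adj, Equiv.symm_apply_apply]
      exact ⟨rfl, ha⟩
    exact hT hu (hST hw) hadj.ne hadj

lemma S_inj : Function.Injective S := by
  intro f g hfg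
  funext i
  apply mset_inj
  intro x
  have h : (finProdFinEquiv (i, x) ∈ S f) ↔ (finProdFinEquiv (i, x) ∈ S g) := by rw [hfg]
  have h' : (mset (f i) x = true) ↔ (mset (g i) x = true) := by
    simpa [S] using h
  exact Bool.eq_iff_iff.mpr h'

/-- The negation of the preceding statement: For every n, every triangle-free simple graph on 10n vertices in which each vertex has degree at least 3 has at most 15^n maximal independent sets (independent sets maximal under inclusion). -/
theorem result :
    ¬ (∀ (n : ℕ) (G : SimpleGraph (Fin (10 * n))) [DecidableRel G.Adj],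
      G.CliqueFree 3 →
      (∀ v : Fin (10 * n), 3 ≤ G.degree v) →
      {s : Set (Fin (10 * n)) | Maximal G.IsIndepSet s}.ncard ≤ 15 ^ n) := by
  intro hall
  have h := hall 13 G G_cliqueFree G_degree
  have h2 : (Set.range S).ncard ≤ {s : Set (Fin (10 * 13)) | Maximal G.IsIndepSet s}.ncard := by
    apply Set.ncard_le_ncard
    · rintro _ ⟨f, rfl⟩
      exact S_maximal f
    · exact Set.toFinite _
  have h3 : (Set.range S).ncard = 39 ^ 10 := by
    rw [← Set.image_univ, Set.ncard_image_of_injective _ S_inj, Set.ncard_univ]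
    simp
  rw [h3] at h2
  have h4 : (39 : ℕ) ^ 10 ≤ 15 ^ 13 := h2.trans h
  norm_num at h4

end Pool.Agent.S10196
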