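import Pool.Statements.S10723
-- import your own Pool.Agent.* helpers here
import Pool.Agent.H7.MM.Final

set_option autoImplicit false
open Pool Pool.MP_abca84_co

namespace Pool.Agent.S10723

/-- Every r-regular finite simple graph on n vertices has its vertices partitioned into k vertex-disjoint paths with k(r+1) ≤ n, i.e. the path cover number is at most n/(r+1). -/
theorem result :
    ∀ (V : Type) [Fintype V] [DecidableEq V] (G : SimpleGraph V) [DecidableRel G.Adj] (r : ℕ),
      G.IsRegularOfDegree r →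
        ∃ (k : ℕ) (u v : Fin k → V) (p : ∀ i, G.Walk (u i) (v i)),
          (∀ i, (p i).IsPath) ∧
          (∀ x : V, ∃! i, x ∈ (p i).support) ∧
          k * (r + 1) ≤ Fintype.card V := by
  intro V _ _ G _ r hr
  classical
  have hdg : ∀ v, Pool.Agent.H16.PC.dg G v = r := by
    intro v
    rw [← hr v, ← SimpleGraph.card_neighborFinset_eq_degree]
    unfold Pool.Agent.H16.PC.dg
    congr 1
    ext w
    rw [Pool.Agent.H16.PC.mem_nb, SimpleGraph.mem_neighborFinset]
  obtain ⟨F, ⟨hle, hac, h2⟩, hF⟩ := Pool.Agent.H7.MM.main_bound hdg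
  obtain ⟨k, u, v, p, hp, hx, hk⟩ := Pool.Agent.H16.PC.exists_cover hac h2
  refine ⟨k, u, v, fun i => (p i).mapLe hle,
    fun i => (SimpleGraph.Walk.isPath_mapLe hle).2 (hp i), ?_, ?_⟩
  · intro x
    obtain ⟨i, hi, hi'⟩ := hx x
    refine ⟨i, ?_, ?_⟩
    · show x ∈ ((p i).mapLe hle).support
      rw [SimpleGraph.Walk.support_mapLe_eq_support]
      exact hi
    · intro j hj
      apply hi'
      have hj' : x ∈ ((p j).mapLe hle).support := hj
      rwa [SimpleGraph.Walk.support_mapLe_eq_support] at hj'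
  · have hk' : 2 * k + Pool.Agent.H7.MM.TD F ≤ 2 * Fintype.card V := hk
    have h3 : (r + 1) * (2 * k + Pool.Agent.H7.MM.TD F) ≤ (r + 1) * (2 * Fintype.card V) :=
      Nat.mul_le_mul_left _ hk'
    have h4 : (r + 1) * (2 * k + Pool.Agent.H7.MM.TD F) =
        2 * (k * (r + 1)) + (r + 1) * Pool.Agent.H7.MM.TD F := by ring
    omega

end Pool.Agent.S10723
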