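import Pool.Statements.S11196
import Pool.Agent.H82.BisMain

set_option autoImplicit false
open Filter Topology
open Pool Pool.MP_c07108_co

namespace Pool.Agent.S11196

/-- The negation of the preceding statement: There is a nonnegative g with g(d)/d → 0 such that every finite simple graph has a bisection (part sizes differ by at most 1) where each vertex v has at least deg(v)/2 − g(deg(v)) neighbours in its own part. -/
theorem result :
    ¬ (∃ g : ℕ → ℝ, (∀ d, 0 ≤ g d) ∧
      Tendsto (fun d : ℕ => g d / (d : ℝ)) atTop (𝓝 0) ∧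
      ∀ (n : ℕ) (G : SimpleGraph (Fin n)) [DecidableRel G.Adj],
        ∃ A : Finset (Fin n),
          |((A.card : ℤ) - (Aᶜ.card : ℤ))| ≤ 1 ∧
          ∀ v : Fin n,
            (((G.neighborFinset v).filter (fun w => (w ∈ A ↔ v ∈ A))).card : ℝ)
              ≥ (G.degree v : ℝ) / 2 - g (G.degree v)) := by
  rintro ⟨g, _, hg, H⟩
  exact Pool.Agent.H82.Bis.BP_false g hg
    (Pool.Agent.H82.Bis.BP_of_Hyp 1 (Or.inl rfl) g (Pool.Agent.H82.Bis.Hyp_of_int g H))

end Pool.Agent.S11196
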