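import Pool.Statements.S11244

set_option autoImplicit false
open Pointwise
open Pool Pool.MP_c21415_co

namespace Pool.Agent.S11244

open RegularWreathProduct

/-- The base group: cyclic of order `N`, written multiplicatively. -/
abbrev D (N : ℕ) : Type := Multiplicative (ZMod N)

/-- The cyclic group of order three. -/
abbrev Q : Type := Multiplicative (ZMod 3)

/-- The wreath product. -/
abbrev W (N : ℕ) : Type := RegularWreathProduct (D N) Q

/-- The generator of `Q`. -/
def t : Q := Multiplicative.ofAdd 1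

/-- The shift element. -/
def sh (N : ℕ) : W N := ⟨1, t⟩

/-- Elements supported at the identity coordinate. -/
def h0 (N : ℕ) (d : D N) : W N := ⟨fun q => if q = 1 then d else 1, 1⟩

/-- membership predicate for the set `A`. -/
def PA (N : ℕ) (g : W N) : Prop := g.right = 1 ∧ g.left (t * t) = 1

lemma PA_mul_h0 (N : ℕ) (g : W N) (d : D N) (hg : PA N g) : PA N (g * h0 N d) := by
  obtain ⟨h1, h2⟩ := hg
  refine ⟨?_, ?_⟩
  · simp [h0, h1]
  · have : ¬ (t * t : Q) = 1 := by decide
    simp [h0, h1, h2, this]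

lemma PA_mul_conj (N : ℕ) (g : W N) (d : D N) (hg : PA N g) :
    ∃ g' : W N, PA N g' ∧ g * sh N * h0 N d = g' * sh N := by
  obtain ⟨h1, h2⟩ := hg
  refine ⟨⟨fun q => g.left q * (if q = t then d else 1), 1⟩, ⟨rfl, ?_⟩, ?_⟩
  · have : ¬ (t * t : Q) = t := by decide
    simp [h2, this]
  · ext y
    · have : (t⁻¹ * y = 1) ↔ y = t := by
        constructor
        · intro h; have := congrArg (fun z => t * z) h; simpa using this
        · intro h; simp [h]
      simp [h0, sh, h1, this]
    · simp [h0, sh, h1]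

/-- The number of elements `N|X| ≤ |X B^3|`: key injectivity. -/
lemma key_inj (N : ℕ) (g g' : W N) (d d' : D N) (hg : PA N g) (hg' : PA N g')
    (h : g * (sh N * sh N * h0 N d) = g' * (sh N * sh N * h0 N d')) : g = g' ∧ d = d' := by
  obtain ⟨h1, h2⟩ := hg
  obtain ⟨h1', h2'⟩ := hg'
  have hl := congrArg (fun z : W N => z.left (t * t)) h
  have e1 : (t⁻¹ * (t * t) : Q) = t := by decide
  have e2 : (t⁻¹ * t : Q) = 1 := by decide
  have e3 : ((t * t)⁻¹ * (t * t) : Q) = 1 := by decide
  have hd : d = d' := by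
    simpa [h0, sh, h1, h2, h1', h2'] using hl
  subst hd
  exact ⟨mul_right_cancel h, rfl⟩

theorem result :
    ¬ (∃ c : ℝ, ∀ (G : Type) [Group G] [DecidableEq G] (A B : Finset G) (α : ℝ),
      (((A * B).card : ℝ) < α * (A.card : ℝ)) →
      (∀ b ∈ B, (((A * {b} * B).card : ℝ) ≤ α * (A.card : ℝ))) →
      ∀ h : ℕ, 1 ≤ h →
        ∃ X : Finset G, X ⊆ A ∧ X.Nonempty ∧
          (((X * B ^ h).card : ℝ) ≤ α ^ (c * (h : ℝ)) * (X.card : ℝ))) := by
  classical
  rintro ⟨c, hc⟩
  obtain ⟨N, hN⟩ := exists_nat_gt ((3 : ℝ) ^ (c * ((3 : ℕ) : ℝ)))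
  have hNpos : 0 < N := by
    have h0 : (0 : ℝ) < (3 : ℝ) ^ (c * ((3 : ℕ) : ℝ)) := Real.rpow_pos_of_pos (by norm_num) _
    have : (0 : ℝ) < (N : ℝ) := h0.trans hN
    exact_mod_cast this
  have : NeZero N := ⟨hNpos.ne'⟩
  have : Fintype (W N) := Fintype.ofFinite _
  have : DecidableEq (W N) := Classical.decEq _
  let A : Finset (W N) := Finset.univ.filter (fun g => PA N g)
  let B : Finset (W N) := insert (sh N) (Finset.univ.image (h0 N))
  have memA : ∀ g, g ∈ A ↔ PA N g := by intro g; simp [A]
  have memB : ∀ g, g ∈ B ↔ g = sh N ∨ ∃ d, h0 N d = g := by intro g; simp [B]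
  have oneA : (1 : W N) ∈ A := by rw [memA]; exact ⟨rfl, rfl⟩
  have hApos : 0 < A.card := Finset.card_pos.mpr ⟨1, oneA⟩
  have hAB : A * B ⊆ A ∪ A * {sh N} := by
    intro z hz
    obtain ⟨a, ha, b, hb, rfl⟩ := Finset.mem_mul.mp hz
    rcases (memB b).mp hb with rfl | ⟨d, rfl⟩
    · exact Finset.mem_union_right _ (Finset.mul_mem_mul ha (Finset.mem_singleton_self _))
    · exact Finset.mem_union_left _ ((memA _).mpr (PA_mul_h0 N a d ((memA a).mp ha)))
  have hABc : (A * B).card ≤ 2 * A.card := by
    calc (A * B).card ≤ (A ∪ A * {sh N}).card := Finset.card_le_card hAB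
      _ ≤ A.card + (A * {sh N}).card := Finset.card_union_le _ _
      _ = 2 * A.card := by rw [Finset.card_mul_singleton]; ring
  have hlt : (((A * B).card : ℝ) < 3 * (A.card : ℝ)) := by
    have h1 : ((A * B).card : ℝ) ≤ 2 * (A.card : ℝ) := by exact_mod_cast hABc
    have h2 : (0 : ℝ) < (A.card : ℝ) := by exact_mod_cast hApos
    linarith
  have hbB : ∀ b ∈ B, (((A * {b} * B).card : ℝ) ≤ 3 * (A.card : ℝ)) := by
    intro b hb
    have : (A * {b} * B).card ≤ 2 * A.card := by
      rcases (memB b).mp hb with rfl | ⟨d, rfl⟩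
      · have hsub : A * {sh N} * B ⊆ A * {sh N} ∪ A * {sh N} * {sh N} := by
          intro z hz
          obtain ⟨a', ha', b', hb', rfl⟩ := Finset.mem_mul.mp hz
          obtain ⟨a, ha, s, hs, rfl⟩ := Finset.mem_mul.mp ha'
          rw [Finset.mem_singleton] at hs
          subst hs
          rcases (memB b').mp hb' with rfl | ⟨d, rfl⟩
          · exact Finset.mem_union_right _ (Finset.mul_mem_mul
              (Finset.mul_mem_mul ha (Finset.mem_singleton_self _)) (Finset.mem_singleton_self _))
          · obtain ⟨g', hg', he⟩ := PA_mul_conj N a d ((memA a).mp ha)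
            rw [he]
            exact Finset.mem_union_left _ (Finset.mul_mem_mul ((memA g').mpr hg')
              (Finset.mem_singleton_self _))
        calc (A * {sh N} * B).card ≤ (A * {sh N} ∪ A * {sh N} * {sh N}).card :=
              Finset.card_le_card hsub
          _ ≤ (A * {sh N}).card + (A * {sh N} * {sh N}).card := Finset.card_union_le _ _
          _ = 2 * A.card := by
            simp only [Finset.card_mul_singleton]; ring
      · have hsub : A * {h0 N d} * B ⊆ A * B := by
          apply Finset.mul_subset_mul_right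
          intro z hz
          obtain ⟨a, ha, s, hs, rfl⟩ := Finset.mem_mul.mp hz
          rw [Finset.mem_singleton] at hs
          subst hs
          exact (memA _).mpr (PA_mul_h0 N a d ((memA a).mp ha))
        exact (Finset.card_le_card hsub).trans hABc
    have h1 : ((A * {b} * B).card : ℝ) ≤ 2 * (A.card : ℝ) := by exact_mod_cast this
    have h2 : (0 : ℝ) < (A.card : ℝ) := by exact_mod_cast hApos
    linarith
  obtain ⟨X, hXA, hXne, hX⟩ := hc (W N) A B 3 hlt hbB 3 (by norm_num)
  have hlow : X.card * N ≤ (X * B ^ 3).card := by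
    have hcard : X.card * N = (X ×ˢ (Finset.univ : Finset (D N))).card := by
      rw [Finset.card_product, Finset.card_univ]
      congr 1
      have h1 : Fintype.card (D N) = Fintype.card (ZMod N) :=
        Fintype.card_congr Multiplicative.toAdd
      rw [h1, ZMod.card]
    rw [hcard]
    apply Finset.card_le_card_of_injOn
      (fun p : W N × D N => p.1 * (sh N * sh N * h0 N p.2))
    · intro p hp
      have hp' : p.1 ∈ X := by
        have := Finset.mem_coe.mp hp
        exact (Finset.mem_product.mp this).1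
      apply Finset.mem_coe.mpr
      apply Finset.mul_mem_mul hp'
      rw [pow_succ, pow_two]
      apply Finset.mul_mem_mul
      · apply Finset.mul_mem_mul
        · exact (memB _).mpr (Or.inl rfl)
        · exact (memB _).mpr (Or.inl rfl)
      · exact (memB _).mpr (Or.inr ⟨p.2, rfl⟩)
    · intro p hp p' hp' he
      have hp1 : p.1 ∈ X := (Finset.mem_product.mp (Finset.mem_coe.mp hp)).1
      have hp1' : p'.1 ∈ X := (Finset.mem_product.mp (Finset.mem_coe.mp hp')).1
      obtain ⟨e1, e2⟩ := key_inj N p.1 p'.1 p.2 p'.2 ((memA _).mp (hXA hp1))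
        ((memA _).mp (hXA hp1')) he
      exact Prod.ext e1 e2
  have hXpos : (0 : ℝ) < (X.card : ℝ) := by exact_mod_cast Finset.card_pos.mpr hXne
  have hlow' : (X.card : ℝ) * (N : ℝ) ≤ ((X * B ^ 3).card : ℝ) := by exact_mod_cast hlow
  have : (X.card : ℝ) * (N : ℝ) ≤ (3 : ℝ) ^ (c * ((3 : ℕ) : ℝ)) * (X.card : ℝ) :=
    hlow'.trans hX
  nlinarith

end Pool.Agent.S11244
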