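import Pool.Statements.S11915
import Pool.Agent.H97.NV.Final

set_option autoImplicit false
open Pool Pool.MP_de3c7d_co

namespace Pool.Agent.S11915

/-- For any finite alphabet and any coloring x of ℤ², if for some n,m ≥ 1 at most nm distinct n×m blocks occur in x, then x has a nonzero period vector. -/
theorem result :
    ∀ (A : Type) [Finite A] (x : ℤ × ℤ → A) (n m : ℕ), 1 ≤ n → 1 ≤ m →
      Set.ncard (Set.range (fun c : ℤ × ℤ =>
        (fun q : Fin n × Fin m => x (c.1 + ((q.1 : ℕ) : ℤ), c.2 + ((q.2 : ℕ) : ℤ))))) ≤ n * m →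
      ∃ v : ℤ × ℤ, v ≠ 0 ∧ ∀ z : ℤ × ℤ, x (z + v) = x z := by
  intro A _ x n m _ _ h
  exact Pool.Agent.H97.NV.nivat A x n m h

end Pool.Agent.S11915
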