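import Pool.Statements.S12199
import Pool.Agent.H43.RelaxTime

set_option autoImplicit false
open Pool Pool.MP_ea35a0_co

namespace Pool.Agent.S12199

/-- For every ε>0, every connected graph with enough edges m has simple-random-walk relaxation time (degree-weighted variance over edge Dirichlet form) at most (1+ε)·2m²/π², i.e. the path is asymptotically extremal. -/
theorem result :
    ∀ ε : ℝ, ε > 0 → ∃ M : ℕ, ∀ (n : ℕ) (G : SimpleGraph (Fin n)) [DecidableRel G.Adj],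
      G.Connected → M ≤ G.edgeFinset.card →
      ∀ f : Fin n → ℝ, ∃ c : ℝ,
        ∑ v, (G.degree v : ℝ) * (f v - c) ^ 2 ≤
          (1 + ε) * (2 * (G.edgeFinset.card : ℝ) ^ 2 / Real.pi ^ 2) *
            ((1 / 2 : ℝ) * ∑ u, ∑ v, (if G.Adj u v then (f u - f v) ^ 2 else 0)) := by
  intro ε hε
  -- the threshold
  obtain ⟨M, hM⟩ : ∃ M : ℕ, Real.pi * (1 + Real.sqrt ((1 + ε) / ε)) ≤ M := exists_nat_ge _
  refine ⟨M + 1, ?_⟩
  intro n G _ hG hcard f
  obtain ⟨m, hm⟩ : ∃ m, m = G.edgeFinset.card := ⟨_, rfl⟩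
  rw [← hm] at hcard ⊢
  have hm1 : 1 ≤ m := by omega
  obtain ⟨c, hc⟩ := Pool.Agent.H43.RelaxTime.poincare G hG hm.symm hm1 f
  refine ⟨c, ?_⟩
  set A := ∑ v, (G.degree v : ℝ) * (f v - c) ^ 2 with hA
  set B := ((1 / 2 : ℝ) * ∑ u, ∑ v, (if G.Adj u v then (f u - f v) ^ 2 else 0)) with hB
  have hApos : 0 ≤ A := Finset.sum_nonneg fun v _ => by positivity
  have hmpos : (0 : ℝ) < m := by exact_mod_cast hm1
  have hpi := Real.pi_pos
  set x := Real.pi / m with hx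
  have hxpos : 0 < x := by positivity
  have hratio : 0 < (1 + ε) / ε := by positivity
  have hs0 : 0 ≤ Real.sqrt ((1 + ε) / ε) := Real.sqrt_nonneg _
  have hMm : Real.pi * (1 + Real.sqrt ((1 + ε) / ε)) ≤ m := by
    have : (M : ℝ) ≤ m := by exact_mod_cast (by omega : M ≤ m)
    linarith
  have hx1 : x * (1 + Real.sqrt ((1 + ε) / ε)) ≤ 1 := by
    rw [hx, div_mul_eq_mul_div, div_le_one hmpos]
    exact hMm
  have hxle1 : x ≤ 1 := by nlinarith
  have hxs : x * Real.sqrt ((1 + ε) / ε) ≤ 1 := by nlinarith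
  have hx2 : x ^ 2 * ((1 + ε) / ε) ≤ 1 := by
    have h1 : (x * Real.sqrt ((1 + ε) / ε)) ^ 2 ≤ 1 := by
      have h2 : 0 ≤ x * Real.sqrt ((1 + ε) / ε) := by positivity
      nlinarith
    rw [mul_pow, Real.sq_sqrt hratio.le] at h1
    exact h1
  have hx3 : x ^ 2 * (1 + ε) ≤ ε := by
    have : x ^ 2 * ((1 + ε) / ε) = x ^ 2 * (1 + ε) / ε := by ring
    rw [this, div_le_one hε] at hx2
    exact hx2
  have hcos := Real.cos_bound (x := x) (by rw [abs_of_pos hxpos]; exact hxle1)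
  rw [abs_of_pos hxpos] at hcos
  have hcos2 : x ^ 2 / 2 - x ^ 4 * (5 / 96) ≤ 1 - Real.cos x := by
    have := (abs_le.mp hcos).2
    linarith
  have hkey : x ^ 2 / 2 ≤ (1 + ε) * (1 - Real.cos x) := by
    have h1 : (1 + ε) * (x ^ 2 / 2 - x ^ 4 * (5 / 96)) ≤ (1 + ε) * (1 - Real.cos x) :=
      mul_le_mul_of_nonneg_left hcos2 (by positivity)
    have h2 : x ^ 2 / 2 ≤ (1 + ε) * (x ^ 2 / 2 - x ^ 4 * (5 / 96)) := by
      have h3 : x ^ 4 * (1 + ε) ≤ x ^ 2 * ε := by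
        have : x ^ 4 * (1 + ε) = x ^ 2 * (x ^ 2 * (1 + ε)) := by ring
        rw [this]
        exact mul_le_mul_of_nonneg_left hx3 (by positivity)
      nlinarith [sq_nonneg x]
    linarith
  have hfin : A * (x ^ 2 / 2) ≤ (1 + ε) * B := by
    calc A * (x ^ 2 / 2) ≤ A * ((1 + ε) * (1 - Real.cos x)) :=
          mul_le_mul_of_nonneg_left hkey hApos
      _ = (1 + ε) * ((1 - Real.cos x) * A) := by ring
      _ ≤ (1 + ε) * B := mul_le_mul_of_nonneg_left hc (by positivity)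
  have hxx : x ^ 2 / 2 * (2 * (m : ℝ) ^ 2 / Real.pi ^ 2) = 1 := by
    rw [hx]
    field_simp
  calc A = A * (x ^ 2 / 2) * (2 * (m : ℝ) ^ 2 / Real.pi ^ 2) := by
        rw [mul_assoc, hxx, mul_one]
    _ ≤ (1 + ε) * B * (2 * (m : ℝ) ^ 2 / Real.pi ^ 2) :=
        mul_le_mul_of_nonneg_right hfin (by positivity)
    _ = (1 + ε) * (2 * (m : ℝ) ^ 2 / Real.pi ^ 2) * B := by ring

end Pool.Agent.S12199
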