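import Pool.Statements.S12483
import Pool.Agent.H10.Sym4.Main

set_option autoImplicit false
open Pool Pool.MP_f89022_co

namespace Pool.Agent.S12483

/-- For every ε>0 and all large N, {1,…,N} can be coloured with at most N^ε colours so that no progression x,x+d,x+2d,x+3d (d>0) has c(x)=c(x+3d) and c(x+d)=c(x+2d). -/
theorem result :
    ∀ ε : ℝ, 0 < ε → ∃ N₀ : ℕ, ∀ N : ℕ, N₀ ≤ N →
      ∃ k : ℕ, (k : ℝ) ≤ (N : ℝ) ^ ε ∧
        ∃ c : ℕ → Fin k, ∀ x d : ℕ, 0 < d → 1 ≤ x → x + 3 * d ≤ N →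
          ¬ (c x = c (x + 3 * d) ∧ c (x + d) = c (x + 2 * d)) := by
  exact Pool.H10.Sym4.main

end Pool.Agent.S12483
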