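import Pool.Statements.S12528
import Pool.Agent.H77.Loz.Final

set_option autoImplicit false
open Pool Pool.MP_fa5b42_co

namespace Pool.Agent.S12528

/-- The negation of the preceding statement: If a polygonal closed disk P admits 14 monohedral plane tilings by congruent copies whose symmetry groups are wallpaper groups (two independent translations), pairwise non-isomorphic, then P is a 30-60-90 triangle. -/
theorem result :
    ¬ (∀ P : Set (EuclideanSpace ℝ (Fin 2)),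
      Nonempty (P ≃ₜ Metric.closedBall (0 : EuclideanSpace ℝ (Fin 2)) 1) →
      (∃ s : Finset (EuclideanSpace ℝ (Fin 2) × EuclideanSpace ℝ (Fin 2)),
        frontier P ⊆ ⋃ p ∈ s, segment ℝ p.1 p.2) →
      (∃ 𝒯 : Fin 14 → Set (Set (EuclideanSpace ℝ (Fin 2))),
        (∀ i,
          (∀ A ∈ 𝒯 i, ∃ g : EuclideanSpace ℝ (Fin 2) ≃ᵢ EuclideanSpace ℝ (Fin 2),
              A = (⇑g) '' P) ∧
          ⋃₀ (𝒯 i) = Set.univ ∧
          (𝒯 i).Pairwise (fun A B => Disjoint (interior A) (interior B)) ∧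
          (∃ u v : EuclideanSpace ℝ (Fin 2),
            LinearIndependent ℝ ![u, v] ∧
            (fun A : Set (EuclideanSpace ℝ (Fin 2)) =>
                (fun x : EuclideanSpace ℝ (Fin 2) => x + u) '' A) '' (𝒯 i) = 𝒯 i ∧
            (fun A : Set (EuclideanSpace ℝ (Fin 2)) =>
                (fun x : EuclideanSpace ℝ (Fin 2) => x + v) '' A) '' (𝒯 i) = 𝒯 i)) ∧
        (∀ i j, i ≠ j →
          ¬ ∃ φ : (EuclideanSpace ℝ (Fin 2) ≃ᵢ EuclideanSpace ℝ (Fin 2)) →
                (EuclideanSpace ℝ (Fin 2) ≃ᵢ EuclideanSpace ℝ (Fin 2)),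
              Set.BijOn φ
                {g : EuclideanSpace ℝ (Fin 2) ≃ᵢ EuclideanSpace ℝ (Fin 2) |
                  (fun A : Set (EuclideanSpace ℝ (Fin 2)) => (⇑g) '' A) '' (𝒯 i) = 𝒯 i}
                {g : EuclideanSpace ℝ (Fin 2) ≃ᵢ EuclideanSpace ℝ (Fin 2) |
                  (fun A : Set (EuclideanSpace ℝ (Fin 2)) => (⇑g) '' A) '' (𝒯 j) = 𝒯 j} ∧
              ∀ g ∈ {g : EuclideanSpace ℝ (Fin 2) ≃ᵢ EuclideanSpace ℝ (Fin 2) |
                  (fun A : Set (EuclideanSpace ℝ (Fin 2)) => (⇑g) '' A) '' (𝒯 i) = 𝒯 i},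
              ∀ h ∈ {g : EuclideanSpace ℝ (Fin 2) ≃ᵢ EuclideanSpace ℝ (Fin 2) |
                  (fun A : Set (EuclideanSpace ℝ (Fin 2)) => (⇑g) '' A) '' (𝒯 i) = 𝒯 i},
              φ (g * h) = φ g * φ h)) →
      ∃ a b c : EuclideanSpace ℝ (Fin 2),
        P = convexHull ℝ {a, b, c} ∧
        EuclideanGeometry.angle b a c = Real.pi / 6 ∧
        EuclideanGeometry.angle a b c = Real.pi / 3 ∧
        EuclideanGeometry.angle a c b = Real.pi / 2) := by
  intro h
  obtain ⟨a, b, c, hP, _⟩ := h Pool.Agent.H77.Loz.P0 Pool.Agent.H77.Loz.homeo_P0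
    Pool.Agent.H77.Loz.frontier_P0
    ⟨fun i => Pool.Agent.H77.Loz.Tiling (Pool.Agent.H77.Loz.taus i),
      fun i => ⟨Pool.Agent.H77.Loz.tiling_congruent _,
        Pool.Agent.H77.Loz.tiling_cover (Pool.Agent.H77.Loz.good_taus i),
        Pool.Agent.H77.Loz.tiling_disjoint (Pool.Agent.H77.Loz.good_taus i),
        Pool.Agent.H77.Loz.translations i⟩,
      fun i j hij => fun ⟨φ, hb, hm⟩ => Pool.Agent.H77.Loz.not_iso hij φ hb hm⟩
  exact Pool.Agent.H77.Loz.P0_not_triangle a b c hP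

end Pool.Agent.S12528
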