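import Pool.Statements.S12811
import Pool.Agent.H11.CS.Main

set_option autoImplicit false
open Matrix
open Pool Pool.MP_16b7e9_gt

namespace Pool.Agent.S12811

/-- For every n ≥ 6, take two positive definite real symmetric n×n matrices A, B. If min over integer x of (x−v)ᵀA(x−v) equals the same for B at every v in {0,½}ⁿ, then B = UᵀAU for some integer U with det ±1. -/
theorem result :
    ∀ n : ℕ, 6 ≤ n → ∀ A B : Matrix (Fin n) (Fin n) ℝ, A.PosDef → B.PosDef →
      (∀ S : Finset (Fin n),
        (⨅ x : Fin n → ℤ,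
          dotProduct (fun i => (x i : ℝ) - (if i ∈ S then (1/2 : ℝ) else 0))
            (A.mulVec (fun i => (x i : ℝ) - (if i ∈ S then (1/2 : ℝ) else 0))))
        = (⨅ x : Fin n → ℤ,
          dotProduct (fun i => (x i : ℝ) - (if i ∈ S then (1/2 : ℝ) else 0))
            (B.mulVec (fun i => (x i : ℝ) - (if i ∈ S then (1/2 : ℝ) else 0))))) →
      ∃ U : Matrix (Fin n) (Fin n) ℤ, IsUnit U.det ∧
        B = (U.map (Int.cast : ℤ → ℝ))ᵀ * A * U.map (Int.cast : ℤ → ℝ) := by
  intro n _ A B hA hB h
  exact Pool.H11.CS.equiv_of_vonorm A B hA hB h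

end Pool.Agent.S12811
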