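import Pool.Statements.S13265
import Pool.Agent.H52.Assembly

set_option autoImplicit false
open Pool Pool.MP_617eb0_gt

namespace Pool.Agent.S13265

/-- For all d,k,s with 1≤k≤s≤d−2 and k not dividing s, some finite γ gives ζ_s(K)^(1/s) ≤ γ·ζ_k(K)^(1/k) for every d-dimensional convex body K with finite k-content (content via polytope approximation). -/
theorem result :
    ∀ d k s : ℕ, 1 ≤ k → k ≤ s → s + 2 ≤ d → ¬ k ∣ s →
    ∀ ζ : ℕ → Set (EuclideanSpace ℝ (Fin d)) → ENNReal,
      (∀ (j : ℕ) (K : Set (EuclideanSpace ℝ (Fin d))),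
        ζ j K = ⨅ (P : ℕ → Set (EuclideanSpace ℝ (Fin d)))
          (_ : (∀ n, (∃ S : Finset (EuclideanSpace ℝ (Fin d)),
                  P n = convexHull ℝ (↑S : Set (EuclideanSpace ℝ (Fin d))))
                ∧ (interior (P n)).Nonempty)
              ∧ Filter.Tendsto (fun n => EMetric.hausdorffEdist (P n) K)
                  Filter.atTop (nhds (0 : ENNReal))),
          Filter.liminf
            (fun n => ∑' F : {F : Set (EuclideanSpace ℝ (Fin d)) //
                IsExposed ℝ (P n) F ∧ F.Nonempty ∧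
                Module.finrank ℝ (affineSpan ℝ F).direction = j},
              MeasureTheory.Measure.hausdorffMeasure (j : ℝ)
                (F : Set (EuclideanSpace ℝ (Fin d))))
            Filter.atTop) →
      ∃ γ : NNReal, ∀ K : Set (EuclideanSpace ℝ (Fin d)),
        Convex ℝ K → IsCompact K → (interior K).Nonempty → ζ k K < ⊤ →
        ζ s K ^ ((1 : ℝ) / (s : ℝ)) ≤ (γ : ENNReal) * ζ k K ^ ((1 : ℝ) / (k : ℝ)) := by
  intro d k s hk hks _ _ ζ hζ
  classical
  have hk0 : (0 : ℝ) < k := by exact_mod_cast hk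
  have hs0 : (0 : ℝ) < s := by
    have : 0 < s := by omega
    exact_mod_cast this
  obtain ⟨C0, hC0⟩ := Pool.Agent.H52.Poly.Z_le (E := EuclideanSpace ℝ (Fin d)) k hk s hks
  -- a constant at least one
  set C : NNReal := C0 + 1 with hCdef
  have hCpos : (C : ENNReal) ≠ 0 := by
    rw [hCdef]; simp
  have hCtop : (C : ENNReal) ≠ ⊤ := ENNReal.coe_ne_top
  have hC : ∀ S : Finset (EuclideanSpace ℝ (Fin d)),
      Pool.Agent.H52.Poly.Z S s ≤ (C : ENNReal) * (Pool.Agent.H52.Poly.Z S k) ^ ((s : ℝ) / (k : ℝ)) := by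
    intro S
    refine (hC0 S).trans ?_
    gcongr
    rw [hCdef]; exact le_self_add
  -- the content of a polytope
  have hcontent : ∀ (S : Finset (EuclideanSpace ℝ (Fin d))) (j : ℕ),
      (∑' F : {F : Set (EuclideanSpace ℝ (Fin d)) //
                IsExposed ℝ (convexHull ℝ (S : Set (EuclideanSpace ℝ (Fin d)))) F ∧ F.Nonempty ∧
                Module.finrank ℝ (affineSpan ℝ F).direction = j},
              MeasureTheory.Measure.hausdorffMeasure (j : ℝ)
                (F : Set (EuclideanSpace ℝ (Fin d)))) = Pool.Agent.H52.Poly.Z S j := by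
    intro S j
    let e : {F : Set (EuclideanSpace ℝ (Fin d)) //
                IsExposed ℝ (convexHull ℝ (S : Set (EuclideanSpace ℝ (Fin d)))) F ∧ F.Nonempty ∧
                Module.finrank ℝ (affineSpan ℝ F).direction = j} ≃ Pool.Agent.H52.Poly.FaceT S j :=
      Equiv.subtypeEquivRight (fun F => by rw [direction_affineSpan])
    rw [← e.symm.tsum_eq, tsum_fintype]
    rfl
  refine ⟨C ^ ((1 : ℝ) / (s : ℝ)), ?_⟩
  intro K _ _ _ _
  have hmain : ζ s K ≤ (C : ENNReal) * (ζ k K) ^ ((s : ℝ) / (k : ℝ)) := by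
    have h1 : (ζ s K / C) ^ ((k : ℝ) / (s : ℝ)) ≤ ζ k K := by
      rw [hζ k K]
      apply le_iInf
      intro P
      apply le_iInf
      intro hP
      set L := Filter.liminf
            (fun n => ∑' F : {F : Set (EuclideanSpace ℝ (Fin d)) //
                IsExposed ℝ (P n) F ∧ F.Nonempty ∧
                Module.finrank ℝ (affineSpan ℝ F).direction = k},
              MeasureTheory.Measure.hausdorffMeasure (k : ℝ)
                (F : Set (EuclideanSpace ℝ (Fin d))))
            Filter.atTop with hL
      have h2 : ζ s K ≤ (C : ENNReal) * L ^ ((s : ℝ) / (k : ℝ)) := by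
        have h3 : ζ s K ≤ Filter.liminf
            (fun n => ∑' F : {F : Set (EuclideanSpace ℝ (Fin d)) //
                IsExposed ℝ (P n) F ∧ F.Nonempty ∧
                Module.finrank ℝ (affineSpan ℝ F).direction = s},
              MeasureTheory.Measure.hausdorffMeasure (s : ℝ)
                (F : Set (EuclideanSpace ℝ (Fin d))))
            Filter.atTop := by
          rw [hζ s K]
          exact iInf₂_le P hP
        have hmono : Monotone (fun x : ENNReal => (C : ENNReal) * x ^ ((s : ℝ) / (k : ℝ))) := by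
          intro x y hxy
          simp only
          gcongr
        have hcont : Continuous (fun x : ENNReal => (C : ENNReal) * x ^ ((s : ℝ) / (k : ℝ))) := by
          apply ENNReal.continuous_const_mul hCtop |>.comp
          exact ENNReal.continuous_rpow_const
        have h4 := hmono.map_liminf_of_continuousAt (F := Filter.atTop)
          (fun n : ℕ => ∑' F : {F : Set (EuclideanSpace ℝ (Fin d)) //
                IsExposed ℝ (P n) F ∧ F.Nonempty ∧
                Module.finrank ℝ (affineSpan ℝ F).direction = k},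
              MeasureTheory.Measure.hausdorffMeasure (k : ℝ)
                (F : Set (EuclideanSpace ℝ (Fin d)))) hcont.continuousAt
        rw [← hL] at h4
        refine h3.trans ?_
        rw [h4]
        refine Filter.liminf_le_liminf (Filter.Eventually.of_forall ?_)
        intro n
        obtain ⟨S, hS⟩ := (hP.1 n).1
        simp only [Function.comp_apply]
        rw [hS, hcontent S s, hcontent S k]
        exact hC S
      have h5 : ζ s K / C ≤ L ^ ((s : ℝ) / (k : ℝ)) := by
        rw [ENNReal.div_le_iff hCpos hCtop, mul_comm]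
        exact h2
      calc (ζ s K / C) ^ ((k : ℝ) / (s : ℝ)) ≤ (L ^ ((s : ℝ) / (k : ℝ))) ^ ((k : ℝ) / (s : ℝ)) := by
            gcongr
        _ = L := by
            rw [← ENNReal.rpow_mul]
            have : (s : ℝ) / (k : ℝ) * ((k : ℝ) / (s : ℝ)) = 1 := by field_simp
            rw [this, ENNReal.rpow_one]
    have h6 : ζ s K / C ≤ (ζ k K) ^ ((s : ℝ) / (k : ℝ)) := by
      calc ζ s K / C = ((ζ s K / C) ^ ((k : ℝ) / (s : ℝ))) ^ ((s : ℝ) / (k : ℝ)) := by
            rw [← ENNReal.rpow_mul]
            have : (k : ℝ) / (s : ℝ) * ((s : ℝ) / (k : ℝ)) = 1 := by field_simp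
            rw [this, ENNReal.rpow_one]
        _ ≤ _ := by gcongr
    rw [ENNReal.div_le_iff hCpos hCtop, mul_comm] at h6
    exact h6
  calc ζ s K ^ ((1 : ℝ) / (s : ℝ)) ≤ ((C : ENNReal) * (ζ k K) ^ ((s : ℝ) / (k : ℝ))) ^ ((1 : ℝ) / (s : ℝ)) := by
        gcongr
    _ = _ := by
        rw [ENNReal.mul_rpow_of_nonneg _ _ (by positivity), ← ENNReal.rpow_mul]
        have : (s : ℝ) / (k : ℝ) * ((1 : ℝ) / (s : ℝ)) = (1 : ℝ) / k := by field_simp
        rw [this, ENNReal.coe_rpow_of_nonneg _ (by positivity)]

end Pool.Agent.S13265
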