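import Pool.Statements.S13550
import Pool.Agent.H66.Moore

set_option autoImplicit false
open Pool Pool.MP_8d6ae8_gt

namespace Pool.Agent.S13550

open Pool.Agent.H66.Moore Set Topology Filter

/-- Points used in the inductive transmission. -/
def pt (y : ℕ → ℕ → ℕ) (j : ℕ) (t : List (List ℕ)) : ℕ → B :=
  fun i => if i < j then .y (y i) else .s (t.getD (i - j) [])

lemma pt_lt (y : ℕ → ℕ → ℕ) {j i : ℕ} (t : List (List ℕ)) (h : i < j) : pt y j t i = .y (y i) := by
  simp [pt, h]

lemma pt_ge (y : ℕ → ℕ → ℕ) {j i : ℕ} (t : List (List ℕ)) (h : j ≤ i) :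
    pt y j t i = .s (t.getD (i - j) []) := by
  simp [pt, Nat.not_lt.mpr h]

/-- A sequence hitting prescribed thresholds on its own initial segments. -/
lemma exists_seq (M : ℕ → List ℕ → ℕ) : ∃ x : ℕ → ℕ, ∀ n, x n = M n (ini x n) := by
  let pre : ℕ → List ℕ := fun n => Nat.rec [] (fun n l => l ++ [M n l]) n
  have hpre0 : pre 0 = [] := rfl
  have hpreS : ∀ n, pre (n + 1) = pre n ++ [M n (pre n)] := fun n => rfl
  refine ⟨fun n => M n (pre n), fun n => ?_⟩
  have : ∀ n, ini (fun n => M n (pre n)) n = pre n := by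
    intro n
    induction n with
    | zero => rfl
    | succ n ih => rw [ini_succ, ih, hpreS]
  rw [this]

/-- One step of the transmission. -/
lemma step (f : X → ℝ) (hf : ∀ p : X, ∀ ε > 0, ∃ m, ∀ q ∈ Nb p m, |f q - f p| < ε) (c j : ℕ)
    (hj : j < c) (y : ℕ → ℕ → ℕ)
    (h : ∀ t : List (List ℕ), f (some (c, pt y j t)) = 1) :
    ∃ y' : ℕ → ℕ → ℕ, ∀ t : List (List ℕ), f (some (c, pt y' (j + 1) t)) = 1 := by
  -- thresholds
  have hm : ∀ (t : List (List ℕ)) (k : ℕ) (l : List ℕ), ∃ m, ∀ q ∈ Nb (some (c, pt y j (l :: t))) m,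
      |f q - 1| < 1 / ((k : ℝ) + 1) := by
    intro t k l
    obtain ⟨m, hm⟩ := hf (some (c, pt y j (l :: t))) (1 / ((k : ℝ) + 1)) (by positivity)
    refine ⟨m, fun q hq => ?_⟩
    have := hm q hq
    rwa [h] at this
  choose m hm using hm
  obtain ⟨g, hg⟩ := exists_surjective_nat (List (List ℕ) × ℕ)
  obtain ⟨x, hx⟩ := exists_seq (fun n l => m (g (Nat.unpair n).1).1 (g (Nat.unpair n).1).2 l)
  refine ⟨Function.update y j x, fun t => ?_⟩
  set P : ℕ → B := pt (Function.update y j x) (j + 1) t with hP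
  have hPj : P j = .y x := by
    rw [hP, pt_lt _ _ (Nat.lt_succ_self j), Function.update_self]
  -- the key estimate
  have key : ∀ k : ℕ, |f (some (c, P)) - 1| ≤ 2 * (1 / ((k : ℝ) + 1)) := by
    intro k
    obtain ⟨m0, hm0⟩ := hf (some (c, P)) (1 / ((k : ℝ) + 1)) (by positivity)
    obtain ⟨a, ha⟩ := hg (t, k)
    set n := Nat.pair a m0 with hn
    have hn1 : (Nat.unpair n).1 = a := by rw [hn, Nat.unpair_pair]
    have hn2 : m0 ≤ n := Nat.right_le_pair a m0
    have hxn : x n = m t k (ini x n) := by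
      have := hx n
      rw [hn1, ha] at this
      exact this
    set q : ℕ → B := Function.update P j (.e (ini x n) (x n)) with hq
    have hq1 : some (c, q) ∈ Nb (some (c, P)) m0 := by
      refine Or.inr ⟨j, hj, ?_, ?_, ini x n, x n, ?_, rfl⟩
      · intro i hi
        rw [hP, pt_lt _ _ (by omega)]
        trivial
      · intro i hi _
        rw [hP, pt_ge _ _ (by omega)]
        trivial
      · rw [hPj]
        refine ⟨?_, ?_, ?_⟩
        · simpa using hn2
        · simp
        · simp
    have hq2 : some (c, q) ∈ Nb (some (c, pt y j (ini x n :: t))) (m t k (ini x n)) := by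
      refine Or.inr ⟨j, hj, ?_, ?_, ini x n, x n, ?_, ?_⟩
      · intro i hi
        rw [pt_lt _ _ hi]
        trivial
      · intro i hi _
        rw [pt_ge _ _ hi.le]
        trivial
      · rw [pt_ge _ _ le_rfl]
        refine ⟨?_, ?_⟩
        · simp
        · rw [hxn]
      · congr 1
        congr 1
        rw [hq]
        funext i
        rcases lt_trichotomy i j with hi | hi | hi
        · rw [Function.update_of_ne hi.ne, Function.update_of_ne hi.ne, hP, pt_lt _ _ (by omega),
            pt_lt _ _ hi, Function.update_of_ne hi.ne]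
        · subst hi
          rw [Function.update_self, Function.update_self]
        · rw [Function.update_of_ne hi.ne', Function.update_of_ne hi.ne', hP, pt_ge _ _ (by omega),
            pt_ge _ _ hi.le]
          have : i - j = (i - (j + 1)) + 1 := by omega
          rw [this, List.getD_cons_succ]
    have e1 := hm0 _ hq1
    have e2 := hm t k (ini x n) _ hq2
    have : f (some (c, P)) - 1 = (f (some (c, q)) - 1) - (f (some (c, q)) - f (some (c, P))) := by
      ring
    rw [this]
    calc |(f (some (c, q)) - 1) - (f (some (c, q)) - f (some (c, P)))|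
        ≤ |f (some (c, q)) - 1| + |f (some (c, q)) - f (some (c, P))| := abs_sub _ _
      _ ≤ 2 * (1 / ((k : ℝ) + 1)) := by linarith
  have hlim : Tendsto (fun k : ℕ => 2 * (1 / ((k : ℝ) + 1))) atTop (𝓝 (2 * 0)) :=
    tendsto_one_div_add_atTop_nhds_zero_nat.const_mul 2
  rw [mul_zero] at hlim
  have := ge_of_tendsto' hlim key
  have h0 : |f (some (c, P)) - 1| = 0 := le_antisymm this (abs_nonneg _)
  have := abs_eq_zero.mp h0
  linarith

/-- The negation of the preceding statement: Every regular developable space X is completely regular if it has a coarser metrizable topology t₂ such that each point p in an open set O has an open D around p whose t₂-closure lies in O. -/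
theorem result :
    ¬ (∀ (X : Type) (t : TopologicalSpace X),
      @RegularSpace X t →
      (∃ G : ℕ → Set (Set X),
          (∀ n : ℕ, ∀ U ∈ G n, @IsOpen X t U) ∧
          (∀ n : ℕ, ⋃₀ G n = Set.univ) ∧
          ∀ x : X, ∀ O : Set X, @IsOpen X t O → x ∈ O →
            ∃ n : ℕ, ⋃₀ {U ∈ G n | x ∈ U} ⊆ O) →
      (∃ t₂ : TopologicalSpace X, t ≤ t₂ ∧
          @TopologicalSpace.MetrizableSpace X t₂ ∧
          ∀ p : X, ∀ O : Set X, @IsOpen X t O → p ∈ O →
            ∃ D : Set X, @IsOpen X t D ∧ p ∈ D ∧ @closure X t₂ D ⊆ O) →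
      @CompletelyRegularSpace X t) := by
  intro hall
  have hcl : ∀ p : X, ∀ O : Set X, @IsOpen X T1 O → p ∈ O →
      ∃ D : Set X, @IsOpen X T1 D ∧ p ∈ D ∧ @closure X T2 D ⊆ O := by
    intro p O hO hp
    obtain ⟨m, hm⟩ := isOpen_T1.mp hO p hp
    obtain ⟨m', hm'⟩ := closure_Nb p m
    exact ⟨Nb p m', Nb_open p m', self_mem_Nb p m', hm'.trans hm⟩
  have hreg : @RegularSpace X T1 := by
    let := T1
    refine RegularSpace.of_exists_mem_nhds_isClosed_subset ?_
    intro p s hs
    obtain ⟨O, hOs, hO, hpO⟩ := mem_nhds_iff.mp hs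
    obtain ⟨D, hD, hpD, hDO⟩ := hcl p O hO hpO
    refine ⟨@closure X T2 D, ?_, ?_, hDO.trans hOs⟩
    · exact mem_of_superset (hD.mem_nhds hpD) (@subset_closure X T2 D)
    · exact (@isClosed_closure X T2 D).mono T1_le_T2
  have hdev : ∃ G : ℕ → Set (Set X),
          (∀ n : ℕ, ∀ U ∈ G n, @IsOpen X T1 U) ∧
          (∀ n : ℕ, ⋃₀ G n = Set.univ) ∧
          ∀ x : X, ∀ O : Set X, @IsOpen X T1 O → x ∈ O →
            ∃ n : ℕ, ⋃₀ {U ∈ G n | x ∈ U} ⊆ O := by
    refine ⟨fun n => Set.range (fun p => Nb p n), ?_, ?_, ?_⟩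
    · rintro n U ⟨p, rfl⟩
      exact Nb_open p n
    · intro n
      refine eq_univ_of_forall fun p => ?_
      exact ⟨Nb p n, ⟨p, rfl⟩, self_mem_Nb p n⟩
    · intro x O hO hx
      obtain ⟨m, hm⟩ := isOpen_T1.mp hO x hx
      obtain ⟨n0, hn0⟩ := dev x
      refine ⟨max m n0, ?_⟩
      rintro z ⟨U, ⟨⟨p, rfl⟩, hxU⟩, hzU⟩
      have hpx : p = x := hn0 (max m n0) (le_max_right _ _) p hxU
      subst hpx
      exact hm (Nb_anti p (le_max_left _ _) hzU)
  have hcr := hall X T1 hreg hdev ⟨T2, T1_le_T2, T2_metrizable, hcl⟩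
  let := T1
  have hK : IsClosed ((Nb none 0)ᶜ : Set X) := (Nb_open none 0).isClosed_compl
  obtain ⟨f, hfc, hf0, hf1⟩ := hcr.completely_regular none _ hK
    (fun h => h (self_mem_Nb none 0))
  let g : X → ℝ := fun x => (f x : ℝ)
  have hg : Continuous g := continuous_subtype_val.comp hfc
  have hgm : ∀ p : X, ∀ ε > 0, ∃ m, ∀ q ∈ Nb p m, |g q - g p| < ε := by
    intro p ε hε
    have ho : IsOpen (g ⁻¹' Metric.ball (g p) ε) := Metric.isOpen_ball.preimage hg
    obtain ⟨m, hm⟩ := isOpen_T1.mp ho p (Metric.mem_ball_self hε)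
    refine ⟨m, fun q hq => ?_⟩
    have := hm hq
    rwa [mem_preimage, Metric.mem_ball, Real.dist_eq] at this
  have hind : ∀ c j : ℕ, 0 < c → j ≤ c →
      ∃ y : ℕ → ℕ → ℕ, ∀ t : List (List ℕ), g (some (c, pt y j t)) = 1 := by
    intro c j hc
    induction j with
    | zero =>
      intro _
      refine ⟨fun _ _ => 0, fun t => ?_⟩
      have : f (some (c, pt (fun _ _ => 0) 0 t)) = 1 := by
        apply hf1
        rintro (h | ⟨c', p', h, -, -, h2⟩)
        · simp at h
        · simp only [Option.some.injEq, Prod.mk.injEq] at h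
          rw [← h.2, pt_ge _ _ le_rfl] at h2
          exact h2 trivial
      change (f (some (c, pt (fun _ _ => 0) 0 t)) : ℝ) = 1
      rw [this]
      rfl
    | succ j ih =>
      intro hj
      obtain ⟨y, hy⟩ := ih (by omega)
      exact step g hgm c j (by omega) y hy
  obtain ⟨m, hm⟩ := hgm none 1 one_pos
  obtain ⟨y, hy⟩ := hind (m + 1) (m + 1) (by omega) le_rfl
  have hmem : (some (m + 1, pt y (m + 1) []) : X) ∈ Nb none m := by
    refine Or.inr ⟨m + 1, _, rfl, by omega, ?_, ?_⟩
    · intro i hi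
      rw [pt_lt _ _ (by omega)]
      trivial
    · rw [pt_lt _ _ (by omega)]
      exact fun h => h
  have h1 := hm _ hmem
  rw [hy []] at h1
  have h2 : g none = 0 := by
    change (f none : ℝ) = 0
    rw [hf0]
    rfl
  rw [h2] at h1
  norm_num at h1

end Pool.Agent.S13550
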