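import Pool.Statements.S14416
import Pool.Agent.H64.SocFinal

set_option autoImplicit false
open Pool Pool.MP_16f0b8_lc

namespace Pool.Agent.S14416

open Pool.Agent.H64.Soc

/-- The negation of the preceding statement: For all n,k ≥ 2: every k-coloring of (n+1)-sets of naturals has some k-coloring of n-sets such that every infinite homogeneous set for the latter Turing-computes an infinite homogeneous set for the former. -/
theorem result :
    ¬ (∀ n k : ℕ, 2 ≤ n → 2 ≤ k →
      ∀ c : Finset ℕ → Fin k, ∃ d : Finset ℕ → Fin k,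
        ∀ H : Set ℕ, H.Infinite →
          (∃ i : Fin k, ∀ s : Finset ℕ, (↑s : Set ℕ) ⊆ H → s.card = n → d s = i) →
          ∃ G : Set ℕ, G.Infinite ∧
            (∃ j : Fin k, ∀ s : Finset ℕ, (↑s : Set ℕ) ⊆ G → s.card = n + 1 → c s = j) ∧
            TuringReducible
              (fun m : ℕ => Part.some (Set.indicator G (fun _ => (1 : ℕ)) m))
              (fun m : ℕ => Part.some (Set.indicator H (fun _ => (1 : ℕ)) m))) := by
  classical
  intro hall
  obtain ⟨f, hsymm, hf⟩ := core
  -- colour a triple by whether it is monochromatic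
  obtain ⟨d, hd⟩ := hall 2 2 le_rfl le_rfl
    (fun s => if ∃ i : Fin 3, ∀ x ∈ s, ∀ y ∈ s, x ≠ y → f x y = i then 1 else 0)
  obtain ⟨H, hH, ⟨c, hc⟩, hno⟩ := hf (fun x y => d {x, y})
  obtain ⟨G, hG, ⟨j, hj⟩, hred⟩ := hd H hH ⟨c, by
    intro s hs hcard
    rw [Finset.card_eq_two] at hcard
    obtain ⟨x, y, hxy, rfl⟩ := hcard
    rw [Finset.coe_insert, Finset.coe_singleton, Set.insert_subset_iff,
      Set.singleton_subset_iff] at hs
    rcases lt_or_gt_of_ne hxy with h | h
    · exact hc x hs.1 y hs.2 h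
    · rw [Finset.pair_comm]
      exact hc y hs.2 x hs.1 h⟩
  have hno' := hno G hG hred
  -- the homogeneous colour is `1`
  obtain ⟨i, x, hx, y, hy, z, hz, hxy, hyz, h1, h2, h3⟩ := exists_mono_triangle f G hG
  have hcard3 : ∀ x y z : ℕ, x ≠ y → x ≠ z → y ≠ z → ({x, y, z} : Finset ℕ).card = 3 := by
    intro x y z h1 h2 h3
    rw [Finset.card_eq_three]
    exact ⟨x, y, z, h1, h2, h3, rfl⟩
  have hsub3 : ∀ x ∈ G, ∀ y ∈ G, ∀ z ∈ G, (↑({x, y, z} : Finset ℕ) : Set ℕ) ⊆ G := by
    intro x hx y hy z hz w hw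
    simp only [Finset.coe_insert, Finset.coe_singleton, Set.mem_insert_iff,
      Set.mem_singleton_iff] at hw
    rcases hw with rfl | rfl | rfl <;> assumption
  have hj1 : j = 1 := by
    have h4 := hj {x, y, z} (hsub3 x hx y hy z hz)
      (hcard3 x y z (by omega) (by omega) (by omega))
    rw [← h4, if_pos]
    refine ⟨i, ?_⟩
    intro u hu v hv huv
    simp only [Finset.mem_insert, Finset.mem_singleton] at hu hv
    rcases hu with rfl | rfl | rfl <;> rcases hv with rfl | rfl | rfl <;>
      first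
        | exact absurd rfl huv
        | assumption
        | (rw [hsymm]; assumption)
  -- all triples of `G` are monochromatic
  have hmono : ∀ x ∈ G, ∀ y ∈ G, ∀ z ∈ G, x ≠ y → x ≠ z → y ≠ z →
      f x y = f x z ∧ f x y = f y z := by
    intro x hx y hy z hz hxy hxz hyz
    have h4 := hj {x, y, z} (hsub3 x hx y hy z hz) (hcard3 x y z hxy hxz hyz)
    rw [hj1] at h4
    by_cases hex : ∃ i : Fin 3, ∀ u ∈ ({x, y, z} : Finset ℕ), ∀ v ∈ ({x, y, z} : Finset ℕ),
        u ≠ v → f u v = i
    · obtain ⟨i, hi⟩ := hex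
      have a1 := hi x (by simp) y (by simp) hxy
      have a2 := hi x (by simp) z (by simp) hxz
      have a3 := hi y (by simp) z (by simp) hyz
      exact ⟨a1.trans a2.symm, a1.trans a3.symm⟩
    · rw [if_neg hex] at h4
      exact absurd h4 (by decide)
  -- hence `G` is homogeneous for `f`
  obtain ⟨u, hu, v, hv, huv, hne⟩ := hno' i
  apply hne
  -- connect the pair `{u, v}` with the pair `{x, y}`
  have hstep : ∀ a ∈ G, ∀ b ∈ G, ∀ c ∈ G, a ≠ b → a ≠ c → f a b = f a c := by
    intro a ha b hb c hc hab hac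
    by_cases hbc : b = c
    · rw [hbc]
    · exact (hmono a ha b hb c hc hab hac hbc).1
  obtain ⟨w, hw, hwgt⟩ := hG.exists_gt (u + v + x + y)
  have e1 : f u v = f u w := hstep u hu v hv w hw huv (by omega)
  have e2 : f w u = f w x := hstep w hw u hu x hx (by omega) (by omega)
  have e3 : f x w = f x y := hstep x hx w hw y hy (by omega) (by omega)
  rw [e1, hsymm u w, e2, hsymm w x, e3, h1]

end Pool.Agent.S14416
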