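import Pool.Statements.S15198
import Pool.Agent.H85.Rigid.Main

set_option autoImplicit false
open Pool Pool.MP_aac87f_lc

namespace Pool.Agent.S15198

/-- The negation of the preceding statement: There is ε>0 such that for arbitrarily large finite abelian groups G some rational matrix f(x−y) has the following property: changing fewer than ∣G∣^(1+ε) entries (by rationals) always leaves rank above ε∣G∣. -/
theorem result :
    ¬ (∃ ε : ℝ, 0 < ε ∧ ∀ N : ℕ, ∃ (G : Type) (_ : AddCommGroup G) (_ : Fintype G), N ≤ Fintype.card G ∧ ∃ f : G → ℚ, ∀ S : Matrix G G ℚ, ((Finset.univ.filter (fun p : G × G => S p.1 p.2 ≠ 0)).card : ℝ) < (Fintype.card G : ℝ) ^ (1 + ε) → ε * (Fintype.card G : ℝ) < ((Matrix.of (fun x y : G => f (x - y)) - S).rank : ℝ)) := by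
  rintro ⟨ε, hε, h⟩
  obtain ⟨N₀, hN₀⟩ := Pool.Agent.H85.Rigid.main_nonrigid ε hε
  obtain ⟨G, i1, i2, hcard, f, hf⟩ := h N₀
  obtain ⟨S, hS1, hS2⟩ := hN₀ G hcard f
  refine absurd (hf S ?_) (not_lt.mpr hS2)
  refine lt_of_eq_of_lt ?_ hS1
  congr

end Pool.Agent.S15198
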