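import Pool.Statements.S15640
import Pool.Agent.H94.HC.Final

set_option autoImplicit false
open FirstOrder FirstOrder.Language
open Pool Pool.MP_faa25e_lc

namespace Pool.Agent.S15640

/-- The negation of the preceding statement: For every characterizable cardinal κ (via Scott sentences of countable structures, models meaning back-and-forth equivalent structures), κ is not homogeneously characterizable exactly when κ has countable cofinality. -/
theorem result :
    ¬ (∀ κ : Cardinal.{0},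
      (Cardinal.aleph0 ≤ κ ∧
        ∃ (L : FirstOrder.Language.{0,0}) (M : Type) (_ : L.Structure M),
          L.card ≤ Cardinal.aleph0 ∧ Countable M ∧
          (∀ μ : Cardinal.{0}, Cardinal.aleph0 ≤ μ → μ ≤ κ →
            ∃ (A : Type) (_ : L.Structure A), Cardinal.mk A = μ ∧
              (∃ S : Set (L.PartialEquiv M A), S.Nonempty ∧ (∀ f ∈ S, f.dom.FG) ∧
                (∀ f ∈ S, ∀ m : M, ∃ g ∈ S, f ≤ g ∧ m ∈ g.dom) ∧
                (∀ f ∈ S, ∀ a : A, ∃ g ∈ S, f ≤ g ∧ a ∈ g.cod))) ∧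
          (∀ (A : Type) (_ : L.Structure A),
            (∃ S : Set (L.PartialEquiv M A), S.Nonempty ∧ (∀ f ∈ S, f.dom.FG) ∧
                (∀ f ∈ S, ∀ m : M, ∃ g ∈ S, f ≤ g ∧ m ∈ g.dom) ∧
                (∀ f ∈ S, ∀ a : A, ∃ g ∈ S, f ≤ g ∧ a ∈ g.cod)) →
            Cardinal.mk A ≠ Order.succ κ)) →
      ((¬ ∃ (L : FirstOrder.Language.{0,0}) (M : Type) (_ : L.Structure M),
          L.card ≤ Cardinal.aleph0 ∧ Countable M ∧
          ∃ P : L.Relations 1,
            Set.Infinite {x : M | Structure.RelMap P ![x]} ∧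
            (∀ σ : Equiv.Perm {x : M // Structure.RelMap P ![x]},
              ∃ e : L.Equiv M M, ∀ x : {x : M // Structure.RelMap P ![x]}, e x.1 = (σ x).1) ∧
            (∀ (A : Type) (_ : L.Structure A),
              (∃ S : Set (L.PartialEquiv M A), S.Nonempty ∧ (∀ f ∈ S, f.dom.FG) ∧
                (∀ f ∈ S, ∀ m : M, ∃ g ∈ S, f ≤ g ∧ m ∈ g.dom) ∧
                (∀ f ∈ S, ∀ a : A, ∃ g ∈ S, f ≤ g ∧ a ∈ g.cod)) →
              Cardinal.mk A ≤ κ) ∧
            (∃ (A : Type) (_ : L.Structure A),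
              (∃ S : Set (L.PartialEquiv M A), S.Nonempty ∧ (∀ f ∈ S, f.dom.FG) ∧
                (∀ f ∈ S, ∀ m : M, ∃ g ∈ S, f ≤ g ∧ m ∈ g.dom) ∧
                (∀ f ∈ S, ∀ a : A, ∃ g ∈ S, f ≤ g ∧ a ∈ g.cod)) ∧
              Cardinal.mk {a : A // Structure.RelMap P ![a]} = κ))
        ↔ κ.ord.cof = Cardinal.aleph0)) := by
  intro h
  obtain ⟨hc, hh⟩ := Pool.Agent.H94.HC.char_and_hom
  exact ((h Pool.Agent.H94.HC.kap ⟨Pool.Agent.H94.HC.aleph0_le_kap, hc⟩).mpr
    Pool.Agent.H94.HC.cof_kap) hh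

end Pool.Agent.S15640
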