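import Pool.Statements.S15774
import Pool.Agent.H19.Moeckel.Bound
import Pool.Agent.H19.Moeckel.Hess

set_option autoImplicit false
open Pool Pool.MP_ac0d1b_mp

namespace Pool.Agent.S15774

/-- The negation of the preceding statement: For any planar Newtonian central configuration rotating at rate ω, if the rotating-frame linearised flow stays bounded modulo the translation, rotation and scaling directions, then the Hessian of U on the sphere I=1 is positive definite modulo rotation. -/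
theorem result :
    ¬ (∀ (n : ℕ) (m : Fin n → ℝ) (x : Fin n × Fin 2 → ℝ) (ω : ℝ)
    (U : (Fin n × Fin 2 → ℝ) → ℝ) (J : (Fin n × Fin 2 → ℝ) → (Fin n × Fin 2 → ℝ)),
    2 ≤ n →
    (∀ i, 0 < m i) →
    (∀ q : Fin n × Fin 2 → ℝ, U q = ∑ i : Fin n, ∑ j : Fin n,
        if i < j then m i * m j / Real.sqrt ((q (i, 0) - q (j, 0)) ^ 2 + (q (i, 1) - q (j, 1)) ^ 2) else 0) →
    (∀ (v : Fin n × Fin 2 → ℝ) (p : Fin n × Fin 2), J v p = if p.2 = 0 then -v (p.1, 1) else v (p.1, 0)) →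
    (∀ i j : Fin n, i ≠ j → (x (i, 0), x (i, 1)) ≠ (x (j, 0), x (j, 1))) →
    (∀ k : Fin 2, ∑ i : Fin n, m i * x (i, k) = 0) →
    0 < ω →
    (∀ p : Fin n × Fin 2, fderiv ℝ U x (Pi.single p (1 : ℝ)) = -(ω ^ 2 * m p.1 * x p)) →
    (∀ ξ η : ℝ → (Fin n × Fin 2 → ℝ),
      (∀ t : ℝ, HasDerivAt ξ (η t) t ∧
        HasDerivAt η (fun p : Fin n × Fin 2 => ω ^ 2 * ξ t p
          + (m p.1)⁻¹ * fderiv ℝ (fderiv ℝ U) x (ξ t) (Pi.single p (1 : ℝ))
          - 2 * ω * J (η t) p) t) →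
      ∃ C : ℝ, ∀ t : ℝ, ∃ a b : Fin 2 → ℝ, ∃ c : Fin 4 → ℝ, ∀ p : Fin n × Fin 2,
        |ξ t p - (a p.2 + c 0 * x p + c 1 * J x p)| ≤ C ∧
        |η t p - (b p.2 + c 2 * x p + c 3 * J x p)| ≤ C) →
    ∀ ζ : Fin n × Fin 2 → ℝ,
      (∀ k : Fin 2, ∑ i : Fin n, m i * ζ (i, k) = 0) →
      ∑ p : Fin n × Fin 2, m p.1 * ζ p * x p = 0 →
      (¬ ∃ c : ℝ, ζ = c • J x) →
      0 < fderiv ℝ (fderiv ℝ U) x ζ ζ + ω ^ 2 * ∑ p : Fin n × Fin 2, m p.1 * ζ p ^ 2) := by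
  intro h
  have hx : ∀ i j : Fin 9, i < j → 0 < (H19.Moeckel.xx (i, 0) - H19.Moeckel.xx (j, 0)) ^ 2
      + (H19.Moeckel.xx (i, 1) - H19.Moeckel.xx (j, 1)) ^ 2 :=
    fun i j hij => H19.Moeckel.sq_pos_of_ne i j hij.ne
  set U : (Fin 9 × Fin 2 → ℝ) → ℝ := fun q => ∑ i : Fin 9, ∑ j : Fin 9,
    if i < j then H19.Moeckel.m9 i * H19.Moeckel.m9 j
      / Real.sqrt ((q (i, 0) - q (j, 0)) ^ 2 + (q (i, 1) - q (j, 1)) ^ 2) else 0 with hUdef
  have hU : ∀ q : Fin 9 × Fin 2 → ℝ, U q = ∑ i : Fin 9, ∑ j : Fin 9,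
      if i < j then H19.Moeckel.m9 i * H19.Moeckel.m9 j
      / Real.sqrt ((q (i, 0) - q (j, 0)) ^ 2 + (q (i, 1) - q (j, 1)) ^ 2) else 0 := fun q => rfl
  have hsec : ∀ (v : Fin 9 × Fin 2 → ℝ) (p : Fin 9 × Fin 2),
      fderiv ℝ (fderiv ℝ U) H19.Moeckel.xx v (Pi.single p (1 : ℝ))
        = H19.Moeckel.m9 p.1 * (H19.Moeckel.acc v p - v p) := by
    intro v p
    obtain ⟨a, k⟩ := p
    rw [H19.Moeckel.U_second_single H19.Moeckel.m9 U hU H19.Moeckel.xx hx v a k]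
    unfold H19.Moeckel.acc
    simp only [H19.Moeckel.Psi_eq]
    rw [← Finset.mul_sum]
    ring
  have key := h 9 H19.Moeckel.m9 H19.Moeckel.xx 1 U H19.Moeckel.JJ (by norm_num)
    H19.Moeckel.m9_pos hU (fun v p => rfl) H19.Moeckel.xx_distinct H19.Moeckel.xx_com one_pos
    (by
      rintro ⟨a, k⟩
      rw [H19.Moeckel.U_first_single H19.Moeckel.m9 U hU H19.Moeckel.xx hx a k,
        H19.Moeckel.grad_eq a k]
      ring)
    (by
      intro ξ η hsol
      apply H19.Moeckel.bounded_all ξ η (fun t => (hsol t).1)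
      intro t
      refine (hsol t).2.congr_deriv ?_
      funext p
      have hm := (H19.Moeckel.m9_pos p.1).ne'
      rw [hsec]
      simp only [Pi.sub_apply, Pi.smul_apply, smul_eq_mul]
      field_simp
      ring)
    H19.Moeckel.zz H19.Moeckel.zz_com H19.Moeckel.zz_xx
    (by
      rintro ⟨c, hc⟩
      have h1 := congrFun hc (0, 0)
      have h2 : (c • H19.Moeckel.JJ H19.Moeckel.xx) (0, 0) = 0 := by
        simp [H19.Moeckel.JJ, H19.Moeckel.xx, H19.Moeckel.XQ]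
      rw [h2, H19.Moeckel.zz_0_0] at h1
      exact H19.Moeckel.cc_neg.ne h1)
  have hneg := H19.Moeckel.zz_form_neg
  have e1 : fderiv ℝ (fderiv ℝ U) H19.Moeckel.xx H19.Moeckel.zz H19.Moeckel.zz
      = ∑ p : Fin 9 × Fin 2, H19.Moeckel.zz p * (H19.Moeckel.m9 p.1
        * (H19.Moeckel.acc H19.Moeckel.zz p - H19.Moeckel.zz p)) := by
    have e2 : H19.Moeckel.zz
        = ∑ p : Fin 9 × Fin 2, H19.Moeckel.zz p • (Pi.single p (1 : ℝ) : Fin 9 × Fin 2 → ℝ) := by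
      funext q
      rw [Finset.sum_apply, Finset.sum_eq_single q]
      · simp
      · intro b _ hb
        simp [hb.symm]
      · simp
    have e3 : ∀ L : (Fin 9 × Fin 2 → ℝ) →L[ℝ] ℝ, L H19.Moeckel.zz
        = ∑ p : Fin 9 × Fin 2, H19.Moeckel.zz p * L (Pi.single p (1 : ℝ)) := by
      intro L
      conv_lhs => rw [e2]
      rw [map_sum]
      apply Finset.sum_congr rfl
      intro p _
      rw [map_smul, smul_eq_mul]
    rw [e3]
    apply Finset.sum_congr rfl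
    intro p _
    rw [hsec]
  have e5 : (∑ p : Fin 9 × Fin 2, H19.Moeckel.zz p * (H19.Moeckel.m9 p.1
        * (H19.Moeckel.acc H19.Moeckel.zz p - H19.Moeckel.zz p)))
      + (1 : ℝ) ^ 2 * ∑ p : Fin 9 × Fin 2, H19.Moeckel.m9 p.1 * H19.Moeckel.zz p ^ 2
      = ∑ i : Fin 9, ∑ k : Fin 2, H19.Moeckel.m9 i * H19.Moeckel.zz (i, k)
        * H19.Moeckel.acc H19.Moeckel.zz (i, k) := by
    rw [one_pow, one_mul, ← Finset.sum_add_distrib, Fintype.sum_prod_type]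
    apply Finset.sum_congr rfl
    intro i _
    apply Finset.sum_congr rfl
    intro k _
    ring
  rw [e1, e5] at key
  exact absurd key (not_lt.mpr hneg.le)

end Pool.Agent.S15774
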