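import Pool.Statements.S16907
import Pool.Agent.H62.N6.Top

set_option autoImplicit false
open Filter Topology
open Pool Pool.MP_4f0605_nt

namespace Pool.Agent.S16907

/-- There is a constant c > 0 such that the number of pairs of 6-tuples of integers in [0,B] with equal sums of 1st through 4th powers, divided by B^6, tends to c as B grows. -/
theorem result :
    ∃ c : ℝ, 0 < c ∧
      Tendsto
        (fun B : ℕ =>
          ((Finset.filter
              (fun p : (Fin 6 → ℕ) × (Fin 6 → ℕ) =>
                ∀ j ∈ Finset.Icc 1 4, ∑ i, p.1 i ^ j = ∑ i, p.2 i ^ j)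
              ((Fintype.piFinset fun _ : Fin 6 => Finset.range (B + 1)) ×ˢ
                (Fintype.piFinset fun _ : Fin 6 => Finset.range (B + 1)))).card : ℝ)
            / (B : ℝ) ^ 6)
        atTop (𝓝 c) := by
  exact Pool.Agent.H62.N6.frozen

end Pool.Agent.S16907
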