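import Pool.Statements.S17440
import Pool.Agent.H35.Klarner

set_option autoImplicit false
open Pool Pool.MP_75084c_nt

namespace Pool.Agent.S17440

/-- The negation of the preceding statement: Let S be the smallest set of naturals containing 1 and closed under x↦2x, 3x+2, 6x+3. Then there is c>0 such that, for all large n, S has at least c·n elements in [1,n]. -/
theorem result :
    ¬ (∃ c : ℝ, 0 < c ∧ ∃ N : ℕ, ∀ n : ℕ, N ≤ n →
      c * (n : ℝ) ≤
        ((({x : ℕ | ∀ T : Set ℕ, 1 ∈ T →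
              (∀ y ∈ T, 2 * y ∈ T ∧ 3 * y + 2 ∈ T ∧ 6 * y + 3 ∈ T) → x ∈ T}
            ∩ Set.Icc 1 n).ncard : ℕ) : ℝ)) := by
  classical
  rintro ⟨c, hc, N, hN⟩
  apply Pool.Agent.H35.Klarner.no_pos_density
  refine ⟨c, hc, N, fun n hn => ?_⟩
  have h := hN n hn
  refine le_trans h ?_
  have h2 : ({x : ℕ | ∀ T : Set ℕ, 1 ∈ T →
              (∀ y ∈ T, 2 * y ∈ T ∧ 3 * y + 2 ∈ T ∧ 6 * y + 3 ∈ T) → x ∈ T}
            ∩ Set.Icc 1 n).ncard ≤ Pool.Agent.H35.Klarner.cnt Pool.Agent.H35.Klarner.K (n + 1) := by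
    unfold Pool.Agent.H35.Klarner.cnt
    rw [← Set.ncard_coe_finset]
    apply Set.ncard_le_ncard _ (Finset.finite_toSet _)
    intro x hx
    obtain ⟨hx1, hx2⟩ := hx
    rw [Finset.coe_filter]
    refine ⟨?_, hx1⟩
    rw [Finset.mem_range]
    have := hx2.2
    omega
  exact_mod_cast h2

end Pool.Agent.S17440
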