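import Pool.Statements.S18390
import Pool.Agent.H29.EGZ.S.Main
import Pool.Agent.H29.EGZ.S.All

set_option autoImplicit false
open Pool Pool.MP_c25d06_nt

namespace Pool.Agent.S18390

/-- The negation of the preceding statement: For every odd n ≥ 3 and every r, the EGZ constant of (Z/n)^r equals (g((Z/3)^r) − 1)(n − 1) + 1. Here g is the least size forcing every subset to contain exp-many distinct elements summing to zero. -/
theorem result :
    ¬ (∀ n : ℕ, Odd n → 3 ≤ n → ∀ r : ℕ,
      sInf {l : ℕ | ∀ f : Fin l → (Fin r → ZMod n), ∃ I : Finset (Fin l),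
          I.card = AddMonoid.exponent (Fin r → ZMod n) ∧ ∑ i ∈ I, f i = 0}
        = (sInf {l : ℕ | ∀ S : Finset (Fin r → ZMod 3), l ≤ S.card →
              ∃ T ⊆ S, T.card = AddMonoid.exponent (Fin r → ZMod 3) ∧ ∑ x ∈ T, x = 0} - 1)
            * (n - 1) + 1) :=
  Pool.Agent.H29.EGZ.main_of Pool.Agent.H29.EGZ.no_good_lift

end Pool.Agent.S18390
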