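import Pool.Statements.S18683
import Pool.Agent.H15.CG.Small
import Pool.Agent.H15.CG.Large

set_option autoImplicit false
open N9a221aa5
open Pool Pool.MP_dcec01_nt

namespace Pool.Agent.S18683

/-- For all n and finsets A ⊆ [1,n] with ⌊n/2⌋+⌊n/3⌋−⌊n/6⌋ < ∣A∣, every odd l with 3 ≤ l ≤ ⌊n/3⌋+1 is the length of some cycle in the coprime graph induced on A. -/
theorem result :
    ∀ (n : ℕ) (A : Finset ℕ), A ⊆ Finset.Icc 1 n → n / 2 + n / 3 - n / 6 < A.card → ∀ l : ℕ, Odd l → 3 ≤ l → l ≤ n / 3 + 1 → l ∈ (coprimeGraph.induce (A : Set ℕ)).oddCycleLengths := by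
  intro n A hA hc l hodd h3 hl
  rcases Nat.lt_or_ge 6097 n with hn | hn
  · exact Pool.Agent.H15.CG.reduce
      (fun A hA hc K hK hK2 => Pool.Agent.H15.CG.large n hn A hA hc K hK hK2) A hA hc l hodd h3 hl
  · exact Pool.Agent.H15.CG.small_frozen n hn A hA hc l hodd h3 hl

end Pool.Agent.S18683
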