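import Pool.Statements.S18815
import Pool.Agent.H30.CollatzC

set_option autoImplicit false
open Pool Pool.MP_e701bf_nt

namespace Pool.Agent.S18815

/-- For every N there is a positive integer n > N such that the 3x+1 map T (m/2 if m even, (3m+1)/2 if m odd) does not reach 1 within any k steps with k < μ·log n, where μ = 1/((1/2)·log(4/3)). -/
theorem result :
    ∀ N : ℕ, ∃ n : ℕ, N < n ∧ 0 < n ∧
      ∀ k : ℕ, (k : ℝ) < ((1 / 2 : ℝ) * Real.log (4 / 3))⁻¹ * Real.log (n : ℝ) →
        (fun m : ℕ => if m % 2 = 0 then m / 2 else (3 * m + 1) / 2)^[k] n ≠ 1 := by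
  intro N
  obtain ⟨n, h1, h2, h3⟩ := Pool.Agent.H30.Collatz.main N
  refine ⟨n, h1, h2, fun k hk => ?_⟩
  have h4 := h3 k hk
  have hT : Pool.Agent.H30.Collatz.T =
      (fun m : ℕ => if m % 2 = 0 then m / 2 else (3 * m + 1) / 2) := rfl
  rw [hT] at h4
  exact h4

end Pool.Agent.S18815
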