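import Pool.Statements.S18994
import Pool.Agent.H31.TraceObs
import Pool.Agent.H31.TraceAdm
import Pool.Agent.H31.TraceDim

set_option autoImplicit false
open Filter Topology
open Pool Pool.MP_f5ee21_nt

namespace Pool.Agent.S18994

/-- The negation of the preceding statement: For every finite alphabet of at least two positive integers whose continued-fraction Cantor set has Hausdorff dimension above 1/2, every sufficiently large integer that is a trace of the even-length semigroup modulo every q is an actual trace. -/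
theorem result :
    ¬ (∀ A : Finset ℕ, (∀ a ∈ A, 1 ≤ a) → 2 ≤ A.card →
      ((1 / 2 : ENNReal) < dimH {x : ℝ | ∃ a : ℕ → ℕ, (∀ j, a j ∈ A) ∧
          Tendsto (fun n : ℕ =>
            ((List.map (fun j : ℕ => (!![(a j : ℝ), 1; 1, 0] : Matrix (Fin 2) (Fin 2) ℝ))
                (List.range (n + 1))).prod 0 0) /
            ((List.map (fun j : ℕ => (!![(a j : ℝ), 1; 1, 0] : Matrix (Fin 2) (Fin 2) ℝ))
                (List.range (n + 1))).prod 1 0)) atTop (𝓝 x)}) →
      ∃ N : ℤ, ∀ t : ℤ, N ≤ t →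
        (∀ q : ℤ, 1 ≤ q → ∃ l : List ℕ, l ≠ [] ∧ Even l.length ∧ (∀ b ∈ l, b ∈ A) ∧
          Matrix.trace ((List.map (fun b : ℕ => (!![(b : ℤ), 1; 1, 0] : Matrix (Fin 2) (Fin 2) ℤ)) l).prod)
            ≡ t [ZMOD q]) →
        ∃ l : List ℕ, l ≠ [] ∧ Even l.length ∧ (∀ b ∈ l, b ∈ A) ∧
          Matrix.trace ((List.map (fun b : ℕ => (!![(b : ℤ), 1; 1, 0] : Matrix (Fin 2) (Fin 2) ℤ)) l).prod) = t) := by
  intro H
  obtain ⟨m, hm2, hdim⟩ := H31.TraceDim.exists_dim
  let A : Finset ℕ := (Finset.range m).image (fun j => 4 + 12 * j)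
  have hmem : ∀ j < m, 4 + 12 * j ∈ A := fun j hj =>
    Finset.mem_image.mpr ⟨j, Finset.mem_range.mpr hj, rfl⟩
  have hA12 : ∀ b ∈ A, b % 12 = 4 := by
    intro b hb
    obtain ⟨j, _, rfl⟩ := Finset.mem_image.mp hb
    omega
  have h4 : 4 ∈ A := by simpa using hmem 0 (by omega)
  have h16 : 16 ∈ A := by simpa using hmem 1 (by omega)
  have hcard : 2 ≤ A.card := by
    have : ({4, 16} : Finset ℕ) ⊆ A := by
      intro b hb
      simp at hb
      rcases hb with rfl | rfl
      · exact h4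
      · exact h16
    calc 2 = ({4, 16} : Finset ℕ).card := by decide
      _ ≤ A.card := Finset.card_le_card this
  obtain ⟨N, hN⟩ := H A (fun a ha => by have := hA12 a ha; omega) hcard (hdim A hmem)
  -- a large trace
  have hj : N ≤ 36 * 25 ^ (N.natAbs + 1) - 2 := by
    have h1 : N.natAbs + 1 < 25 ^ (N.natAbs + 1) := Nat.lt_pow_self (by norm_num)
    have h2 : (N.natAbs : ℤ) + 1 < 25 ^ (N.natAbs + 1) := by exact_mod_cast h1
    have h3 : N ≤ N.natAbs := Int.le_natAbs
    linarith
  obtain ⟨l, hl, he, hlA, htr⟩ := hN (36 * 25 ^ (N.natAbs + 1) - 2) hj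
    (fun q hq => H31.TraceAdm.admissible A h4 h16 _ q hq)
  exact H31.TraceObs.no_trace l hl he (fun b hb => hA12 b (hlA b hb)) (N.natAbs + 1) (by omega) htr

end Pool.Agent.S18994
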