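import Pool.Statements.S19221
import Pool.Agent.H27.DyadicAbs
import Pool.Agent.H27.DyadicGeo

set_option autoImplicit false
open Classical
open Pool Pool.MP_27a786_pr

namespace Pool.Agent.S19221

/-- the tiling probability, in terms of the helper definitions. -/
noncomputable def prob (d n : ℕ) (p : ℝ) : ℝ :=
  ∑ A ∈ (H27.Dyadic.tiles d n).powerset, (if ∃ S ⊆ A, H27.Dyadic.IsTiling S then
    p ^ A.card * (1 - p) ^ ((H27.Dyadic.tiles d n).card - A.card) else 0)

theorem conv (d n : ℕ) (p : ℝ) :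
    (∑ A ∈ ((Finset.univ : Finset ((Fin d → Fin (n + 1)) × (Fin d → Fin (2 ^ n)))).filter
                (fun x => ∑ k, (x.1 k : ℕ) = n ∧ ∀ k, (x.2 k : ℕ) < 2 ^ (x.1 k : ℕ))).powerset,
          if (∃ S ⊆ A,
                (⋃ x ∈ S, Set.pi Set.univ (fun k => Set.Icc (((x.2 k : ℕ) : ℝ) / 2 ^ (x.1 k : ℕ))
                    ((((x.2 k : ℕ) : ℝ) + 1) / 2 ^ (x.1 k : ℕ)))) = Set.Icc (0 : Fin d → ℝ) 1 ∧
                ∀ x ∈ S, ∀ y ∈ S, x ≠ y →
                  Disjoint
                    (interior (Set.pi Set.univ (fun k => Set.Icc (((x.2 k : ℕ) : ℝ) / 2 ^ (x.1 k : ℕ))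
                      ((((x.2 k : ℕ) : ℝ) + 1) / 2 ^ (x.1 k : ℕ)))))
                    (interior (Set.pi Set.univ (fun k => Set.Icc (((y.2 k : ℕ) : ℝ) / 2 ^ (y.1 k : ℕ))
                      ((((y.2 k : ℕ) : ℝ) + 1) / 2 ^ (y.1 k : ℕ))))))
          then p ^ A.card * (1 - p) ^
              (((Finset.univ : Finset ((Fin d → Fin (n + 1)) × (Fin d → Fin (2 ^ n)))).filter
                (fun x => ∑ k, (x.1 k : ℕ) = n ∧ ∀ k, (x.2 k : ℕ) < 2 ^ (x.1 k : ℕ))).card - A.card)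
          else 0) = prob d n p := by
  unfold prob
  refine Finset.sum_congr rfl (fun A _ => ?_)
  by_cases h : ∃ S ⊆ A, H27.Dyadic.IsTiling S
  · rw [if_pos h]
    exact if_pos h
  · rw [if_neg h]
    exact if_neg h

theorem prob_small (m n : ℕ) (p : ℝ) (hp0 : 0 ≤ p) (hp : p ≤ (H27.Dyadic.lam m : ℝ) / 2) :
    prob (m+1) n p ≤ 1 / 2 := by
  have hl := H27.Dyadic.lam_pos m
  have hl1 := H27.Dyadic.lam_le_one m
  have hl' : (0:ℝ) < H27.Dyadic.lam m := by exact_mod_cast hl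
  have hl1' : (H27.Dyadic.lam m : ℝ) ≤ 1 := by exact_mod_cast hl1
  -- write p = c * lam m
  let c : NNReal := ⟨p / H27.Dyadic.lam m, by positivity⟩
  have hc : c ≤ 1 / 2 := by
    rw [← NNReal.coe_le_coe]
    change p / (H27.Dyadic.lam m : ℝ) ≤ ((1 / 2 : NNReal) : ℝ)
    push_cast
    rw [div_le_iff₀ hl']
    linarith
  have hpc : p = ((c * H27.Dyadic.lam m : NNReal) : ℝ) := by
    push_cast
    change p = p / (H27.Dyadic.lam m : ℝ) * (H27.Dyadic.lam m : ℝ)
    field_simp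
  have hle : c * H27.Dyadic.lam m ≤ 1 := by
    rw [← NNReal.coe_le_coe, ← hpc]
    push_cast
    linarith
  have h1 : prob (m+1) n ((c * H27.Dyadic.lam m : NNReal) : ℝ) ≤
      ((H27.Dyadic.F (H27.Dyadic.fmem n m) (c * H27.Dyadic.lam m) Set.univ : NNReal) : ℝ) := by
    refine le_trans (le_of_eq ?_) (H27.Dyadic.prob_le (m := m) (n := n) (c * H27.Dyadic.lam m) hle)
    unfold prob
    refine Finset.sum_congr rfl (fun A _ => ?_)
    by_cases h : ∃ S ⊆ A, H27.Dyadic.IsTiling S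
    · simp only [if_pos h]
    · simp only [if_neg h]
  rw [← hpc] at h1
  have hc1 : c ≤ 1 := hc.trans (by rw [← NNReal.coe_le_coe]; push_cast; norm_num)
  have h2 := H27.Dyadic.F_univ_le n m c hc1
  have h3 : ((H27.Dyadic.F (H27.Dyadic.fmem n m) (c * H27.Dyadic.lam m) Set.univ : NNReal) : ℝ) ≤ 1 / 2 := by
    have := h2.trans hc
    have h4 : ((H27.Dyadic.F (H27.Dyadic.fmem n m) (c * H27.Dyadic.lam m) Set.univ : NNReal) : ℝ)
      ≤ ((1 / 2 : NNReal) : ℝ) := by exact_mod_cast this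
    simpa using h4
  exact h1.trans h3

theorem prob_one (m n : ℕ) : prob (m+1) n 1 = 1 := by
  unfold prob
  rw [Finset.sum_eq_single (H27.Dyadic.tiles (m+1) n)]
  · rw [if_pos (H27.Dyadic.exists_tiling m n)]
    simp
  · intro A hA hne
    rw [Finset.mem_powerset] at hA
    have hlt : A.card < (H27.Dyadic.tiles (m+1) n).card :=
      Finset.card_lt_card (lt_of_le_of_ne hA hne)
    have : (H27.Dyadic.tiles (m+1) n).card - A.card ≠ 0 := by omega
    split_ifs
    · rw [sub_self, zero_pow this, mul_zero]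
    · rfl
  · intro h; exact absurd (Finset.mem_powerset_self _) h

/-- For every d ≥ 4, the infimum of p in [0,1] for which the probability that independently p-available order-n dyadic tiles of [0,1]^d contain a tiling tends to 1 as n→∞ is strictly positive. -/
theorem result :
  ∀ d : ℕ, 4 ≤ d →
    0 < sInf {p : ℝ | p ∈ Set.Icc (0 : ℝ) 1 ∧
      Filter.Tendsto (fun n : ℕ =>
        ∑ A ∈ ((Finset.univ : Finset ((Fin d → Fin (n + 1)) × (Fin d → Fin (2 ^ n)))).filter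
                (fun x => ∑ k, (x.1 k : ℕ) = n ∧ ∀ k, (x.2 k : ℕ) < 2 ^ (x.1 k : ℕ))).powerset,
          if (∃ S ⊆ A,
                (⋃ x ∈ S, Set.pi Set.univ (fun k => Set.Icc (((x.2 k : ℕ) : ℝ) / 2 ^ (x.1 k : ℕ))
                    ((((x.2 k : ℕ) : ℝ) + 1) / 2 ^ (x.1 k : ℕ)))) = Set.Icc (0 : Fin d → ℝ) 1 ∧
                ∀ x ∈ S, ∀ y ∈ S, x ≠ y →
                  Disjoint
                    (interior (Set.pi Set.univ (fun k => Set.Icc (((x.2 k : ℕ) : ℝ) / 2 ^ (x.1 k : ℕ))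
                      ((((x.2 k : ℕ) : ℝ) + 1) / 2 ^ (x.1 k : ℕ)))))
                    (interior (Set.pi Set.univ (fun k => Set.Icc (((y.2 k : ℕ) : ℝ) / 2 ^ (y.1 k : ℕ))
                      ((((y.2 k : ℕ) : ℝ) + 1) / 2 ^ (y.1 k : ℕ))))))
          then p ^ A.card * (1 - p) ^
              (((Finset.univ : Finset ((Fin d → Fin (n + 1)) × (Fin d → Fin (2 ^ n)))).filter
                (fun x => ∑ k, (x.1 k : ℕ) = n ∧ ∀ k, (x.2 k : ℕ) < 2 ^ (x.1 k : ℕ))).card - A.card)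
          else 0)
        Filter.atTop (nhds 1)} := by
  intro d hd
  obtain ⟨m, rfl⟩ : ∃ m, d = m + 1 := ⟨d - 1, by omega⟩
  have hlpos : (0:ℝ) < (H27.Dyadic.lam m : ℝ) / 2 := by
    have : (0:ℝ) < H27.Dyadic.lam m := by exact_mod_cast H27.Dyadic.lam_pos m
    linarith
  simp only [conv]
  refine lt_of_lt_of_le hlpos (le_csInf ?_ ?_)
  · -- p = 1 belongs to the set
    refine ⟨1, ⟨by norm_num, le_rfl⟩, ?_⟩
    have hconst : (fun n : ℕ => prob (m+1) n 1) = fun _ => 1 := funext (prob_one m)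
    rw [hconst]; exact tendsto_const_nhds
  · rintro p ⟨⟨hp0, hp1⟩, hlim⟩
    by_contra hlt
    push Not at hlt
    have := le_of_tendsto hlim (Filter.Eventually.of_forall (fun n => prob_small m n p hp0 hlt.le))
    norm_num at this

end Pool.Agent.S19221
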