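import Pool.Statements.S19301
import Pool.Agent.H83.RGG.Final

set_option autoImplicit false
open Pool Pool.MP_4da2d5_pr

namespace Pool.Agent.S19301

/-- For c>0 and d(n)/log³n→∞, the total variation distance between the random geometric graph on S^{d-1} (n uniform points, edge iff inner product ≥ threshold giving edge probability c/n) and G(n,c/n) tends to 0. -/
theorem result :
    ∀ c : ℝ, 0 < c → ∀ d : ℕ → ℕ,
      Filter.Tendsto (fun n : ℕ => (d n : ℝ) / (Real.log n) ^ 3) Filter.atTop Filter.atTop →
      ∀ t : ℕ → ℝ,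
        (∀ᶠ n in Filter.atTop,
          (MeasureTheory.Measure.pi
              (fun _ : Fin 2 × Fin (d n) => ProbabilityTheory.gaussianReal 0 1))
            {g : Fin 2 × Fin (d n) → ℝ |
              t n * Real.sqrt (∑ k, g (0, k) ^ 2) * Real.sqrt (∑ k, g (1, k) ^ 2)
                ≤ ∑ k, g (0, k) * g (1, k)}
            = ENNReal.ofReal (c / n)) →
        Filter.Tendsto (fun n : ℕ =>
          (1 / 2 : ℝ) * ∑' G : SimpleGraph (Fin n),
            |((MeasureTheory.Measure.pi
                  (fun _ : Fin n × Fin (d n) => ProbabilityTheory.gaussianReal 0 1))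
                {g : Fin n × Fin (d n) → ℝ | ∀ i j : Fin n, i ≠ j →
                  (G.Adj i j ↔
                    t n * Real.sqrt (∑ k, g (i, k) ^ 2) * Real.sqrt (∑ k, g (j, k) ^ 2)
                      ≤ ∑ k, g (i, k) * g (j, k))}).toReal
              - (c / n) ^ G.edgeSet.ncard * (1 - c / n) ^ (n.choose 2 - G.edgeSet.ncard)|)
          Filter.atTop (nhds 0) :=
  Pool.Agent.H83.RGG.final

end Pool.Agent.S19301
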