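import Pool.Statements.S19470
import Pool.Agent.H35.PosAssocD

set_option autoImplicit false
open Pool Pool.MP_8e1c75_pr

namespace Pool.Agent.S19470

open Finset Pool.Agent.H35.PosAssoc in
/-- The gadget graph with 60 + 16 + 6 + 256 vertices and nine colours is a counterexample. -/
theorem aux (h : ∀ (V : Type) [Fintype V] [DecidableEq V] (G : SimpleGraph V) [DecidableRel G.Adj]
    (A : Finset V),
    (∀ v w : V, G.Adj v w → (v ∈ A ↔ w ∉ A)) →
    ∀ (q : ℕ), 3 ≤ q → ∀ (c : Fin q) (X Y : Finset V → ℝ), Monotone X → Monotone Y →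
    (((Finset.univ : Finset (V → Fin q)).filter
          (fun f => ∀ v w : V, G.Adj v w → f v ≠ f w)).card : ℝ) *
      (∑ f ∈ (Finset.univ : Finset (V → Fin q)).filter
          (fun f => ∀ v w : V, G.Adj v w → f v ≠ f w),
        X (A.filter (fun v => f v = c)) * Y (A.filter (fun v => f v = c)))
    ≥ (∑ f ∈ (Finset.univ : Finset (V → Fin q)).filter
          (fun f => ∀ v w : V, G.Adj v w → f v ≠ f w),
        X (A.filter (fun v => f v = c))) *
      (∑ f ∈ (Finset.univ : Finset (V → Fin q)).filter
          (fun f => ∀ v w : V, G.Adj v w → f v ≠ f w),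
        Y (A.filter (fun v => f v = c)))) : False := by
  classical
  have hbip : ∀ v w : VT 60 16 6, (GG 60 16 6).Adj v w →
      (v ∈ univ.filter (fun x : VT 60 16 6 => sideA x = true) ↔
        w ∉ univ.filter (fun x : VT 60 16 6 => sideA x = true)) := by
    intro v w hvw
    simp only [mem_filter, mem_univ, true_and]
    rcases hvw with hvw | hvw
    · have := EB_side hvw
      simp [this.1, this.2]
    · have := EB_side hvw
      simp [this.1, this.2]
  have hX : Monotone (fun S : Finset (VT 60 16 6) =>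
      if (∀ i : Fin 60, (Sum.inl i : VT 60 16 6) ∈ S) then (1 : ℝ) else 0) := by
    intro S T hST
    dsimp only
    split_ifs with h1 h2 h2
    · exact le_refl _
    · exact absurd (fun i => hST (h1 i)) h2
    · exact zero_le_one
    · exact le_refl _
  have hY : Monotone (fun S : Finset (VT 60 16 6) =>
      if (∃ i : Fin 16, (Sum.inr (Sum.inl i) : VT 60 16 6) ∈ S) then (1 : ℝ) else 0) := by
    intro S T hST
    dsimp only
    split_ifs with h1 h2 h2
    · exact le_refl _
    · exact absurd (h1.imp fun i hi => hST hi) h2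
    · exact zero_le_one
    · exact le_refl _
  have key := h (VT 60 16 6) (GG 60 16 6) (univ.filter (fun x : VT 60 16 6 => sideA x = true)) hbip
    9 (by norm_num) 0 _ _ hX hY
  have eU : ∀ (f : VT 60 16 6 → Fin 9), (∀ i : Fin 60, (Sum.inl i : VT 60 16 6) ∈
      (univ.filter (fun x : VT 60 16 6 => sideA x = true)).filter (fun v => f v = 0)) ↔
      (∀ i : Fin 60, f (.inl i) = 0) := by
    intro f
    constructor
    · intro hf i
      exact (mem_filter.mp (hf i)).2
    · intro hf i
      exact mem_filter.mpr ⟨mem_filter.mpr ⟨mem_univ _, rfl⟩, hf i⟩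
  have eV : ∀ (f : VT 60 16 6 → Fin 9), (∃ i : Fin 16, (Sum.inr (Sum.inl i) : VT 60 16 6) ∈
      (univ.filter (fun x : VT 60 16 6 => sideA x = true)).filter (fun v => f v = 0)) ↔
      (∃ i : Fin 16, f (.inr (.inl i)) = 0) := by
    intro f
    constructor
    · rintro ⟨i, hf⟩
      exact ⟨i, (mem_filter.mp hf).2⟩
    · rintro ⟨i, hf⟩
      exact ⟨i, mem_filter.mpr ⟨mem_filter.mpr ⟨mem_univ _, rfl⟩, hf⟩⟩
  simp only [eU, eV, ite_mul, one_mul, zero_mul, Finset.sum_ite, Finset.sum_const_zero, add_zero,
    Finset.sum_const, nsmul_eq_mul, mul_one] at key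
  have hm := main_ineq 0
  -- the four sets
  set F : Finset (VT 60 16 6 → Fin 9) := univ.filter
    (fun f => ∀ v w : VT 60 16 6, (GG 60 16 6).Adj v w → f v ≠ f w) with hF
  have e1 : univ.filter (fun f : VT 60 16 6 → Fin 9 => Proper f) = F := by
    ext f
    simp [hF, Proper]
  have e2 : univ.filter (fun f : VT 60 16 6 → Fin 9 => Proper f ∧ (∀ i, f (.inl i) = 0)) =
      F.filter (fun f => ∀ i : Fin 60, f (.inl i) = 0) := by
    ext f
    simp [hF, Proper]
  have e3 : univ.filter (fun f : VT 60 16 6 → Fin 9 => Proper f ∧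
      (∀ i, f (.inr (.inl i)) ≠ 0)) =
      F.filter (fun f => ¬ ∃ i : Fin 16, f (.inr (.inl i)) = 0) := by
    ext f
    simp [hF, Proper]
  have e4 : univ.filter (fun f : VT 60 16 6 → Fin 9 => Proper f ∧ (∀ i, f (.inl i) = 0) ∧
      (∀ i, f (.inr (.inl i)) ≠ 0)) =
      (F.filter (fun f => ∀ i : Fin 60, f (.inl i) = 0)).filter
        (fun f => ¬ ∃ i : Fin 16, f (.inr (.inl i)) = 0) := by
    ext f
    simp [hF, Proper, and_assoc]
  rw [e1, e2, e3, e4] at hm
  have c1 := Finset.card_filter_add_card_filter_not (s := F)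
    (fun f => ∃ i : Fin 16, f (.inr (.inl i)) = 0)
  have c2 := Finset.card_filter_add_card_filter_not
    (s := F.filter (fun f => ∀ i : Fin 60, f (.inl i) = 0))
    (fun f => ∃ i : Fin 16, f (.inr (.inl i)) = 0)
  have key' : (F.filter (fun f => ∀ i : Fin 60, f (.inl i) = 0)).card *
      (F.filter (fun f => ∃ i : Fin 16, f (.inr (.inl i)) = 0)).card ≤
      F.card * ((F.filter (fun f => ∀ i : Fin 60, f (.inl i) = 0)).filter
        (fun f => ∃ i : Fin 16, f (.inr (.inl i)) = 0)).card := by
    exact_mod_cast key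
  have h1 := congrArg (fun t =>
    (F.filter (fun f => ∀ i : Fin 60, f (.inl i) = 0)).card * t) c1
  have h2 := congrArg (fun t => F.card * t) c2
  simp only [mul_add] at h1 h2
  rw [mul_comm F.card (F.filter (fun f => ∀ i : Fin 60, f (.inl i) = 0)).card] at h2
  omega

/-- The negation of the preceding statement: For every finite bipartite graph with side A, every q ≥ 3, every color c, and all increasing X, Y on sets, E[X·Y] ≥ E[X]·E[Y] for the set of A-vertices colored c under a uniformly random proper q-coloring. -/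
theorem result :
    ¬ (∀ (V : Type) [Fintype V] [DecidableEq V] (G : SimpleGraph V) [DecidableRel G.Adj]
    (A : Finset V),
    (∀ v w : V, G.Adj v w → (v ∈ A ↔ w ∉ A)) →
    ∀ (q : ℕ), 3 ≤ q → ∀ (c : Fin q) (X Y : Finset V → ℝ), Monotone X → Monotone Y →
    (((Finset.univ : Finset (V → Fin q)).filter
          (fun f => ∀ v w : V, G.Adj v w → f v ≠ f w)).card : ℝ) *
      (∑ f ∈ (Finset.univ : Finset (V → Fin q)).filter
          (fun f => ∀ v w : V, G.Adj v w → f v ≠ f w),
        X (A.filter (fun v => f v = c)) * Y (A.filter (fun v => f v = c)))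
    ≥ (∑ f ∈ (Finset.univ : Finset (V → Fin q)).filter
          (fun f => ∀ v w : V, G.Adj v w → f v ≠ f w),
        X (A.filter (fun v => f v = c))) *
      (∑ f ∈ (Finset.univ : Finset (V → Fin q)).filter
          (fun f => ∀ v w : V, G.Adj v w → f v ≠ f w),
        Y (A.filter (fun v => f v = c)))) := by
  intro h
  exact aux h

end Pool.Agent.S19470
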